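import Pool.Agent.Work.MP_f1a024_nt.RL.Stmts

/-!
# Block WL: item ACL
-/

namespace Pool.Agent.Work.MP_f1a024_nt.RL

open Finset
open Pool.Agent.Work.MP_f1a024_nt.RW

/-- `m` different integers `≥ c` -/
theorem ACL_sum (c : ℕ) (I : Finset ℕ) :
    (∀ B ∈ I, c ≤ B) → I.card * (I.card + 1) / 2 ≤ ∑ B ∈ I, (B + 1 - c) := by
  induction I using Finset.induction_on_max with
  | empty => intro _; simp
  | insert m s hlt ih =>
    intro hc
    have hm : m ∉ s := fun h => lt_irrefl _ (hlt m h)
    rw [card_insert_of_notMem hm, sum_insert hm]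
    have h1 := ih fun B hB => hc B (mem_insert_of_mem hB)
    have hsub : s ⊆ Ico c m := by
      intro B hB
      exact mem_Ico.2 ⟨hc B (mem_insert_of_mem hB), hlt B hB⟩
    have h2 := card_le_card hsub
    rw [Nat.card_Ico] at h2
    have h3 : c ≤ m := hc m (mem_insert_self _ _)
    have h4 : (s.card + 1) * (s.card + 1 + 1) / 2 = s.card * (s.card + 1) / 2 + (s.card + 1) := by
      have : (s.card + 1) * (s.card + 1 + 1) = s.card * (s.card + 1) + (s.card + 1) * 2 := by ring
      rw [this, Nat.add_mul_div_right _ _ (by norm_num)]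
    rw [h4]
    omega

/-- the last product -/
theorem ACL_prod (b X : ℕ) (e : ℕ → ℕ) :
    ∏ c ∈ Icc 1 b, ∏ p ∈ (range X).filter (fun p => p.Prime ∧
      p ∉ (range X).filter (fun p => p.Prime ∧ e p < c)), p ≤
      ∏ p ∈ (range X).filter Nat.Prime, p ^ e p := by
  have h1 : ∀ c ∈ Icc 1 b, ∏ p ∈ (range X).filter (fun p => p.Prime ∧
      p ∉ (range X).filter (fun p => p.Prime ∧ e p < c)), p =
      ∏ p ∈ (range X).filter Nat.Prime, if c ≤ e p then p else 1 := by
    intro c _
    rw [← prod_filter]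
    refine prod_congr ?_ fun _ _ => rfl
    ext p
    simp only [mem_filter, mem_range, not_and, not_lt]
    constructor
    · rintro ⟨h, h', h''⟩
      exact ⟨⟨h, h'⟩, h'' h h'⟩
    · rintro ⟨⟨h, h'⟩, h''⟩
      exact ⟨h, h', fun _ _ => h''⟩
  rw [prod_congr rfl h1, prod_comm]
  refine prod_le_prod' fun p hp => ?_
  rw [mem_filter] at hp
  rw [← prod_filter, prod_const]
  refine Nat.pow_le_pow_right hp.2.pos ?_
  have h2 : (Icc 1 b).filter (fun c => c ≤ e p) ⊆ Icc 1 (e p) := by
    intro c hc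
    rw [mem_filter, mem_Icc] at hc
    exact mem_Icc.2 ⟨hc.1.1, hc.2⟩
  simpa using card_le_card h2

theorem prfACL (h : GML) : ACL := by
  intro b X e n a x hx
  have hx' : ∀ B ∈ Icc 1 b, 1 ≤ a B ∧ a B ≤ B ∧ x B ≤ X ∧
      ((range (x B)).filter (fun p => p.Prime ∧ e p < a B)).card + 1 ≤ n B := by
    intro B hB
    rw [mem_Icc] at hB
    exact hx B hB.1 hB.2
  have hmap : ∀ B ∈ Icc 1 b, a B ∈ Icc 1 b := by
    intro B hB
    have h1 := hx' B hB
    rw [mem_Icc] at hB ⊢
    omega
  rw [← prod_fiberwise_of_maps_to hmap x,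
    ← sum_fiberwise_of_maps_to hmap (fun B => n B + B - a B), ← prod_pow_eq_pow_sum]
  refine le_trans ?_ (Nat.mul_le_mul_left _ (ACL_prod b X e))
  rw [← prod_mul_distrib]
  refine prod_le_prod' fun c _ => ?_
  refine (h ((range X).filter (fun p => p.Prime ∧ e p < c)) X ℕ ((Icc 1 b).filter (fun B => a B = c))
    x fun i hi => ?_).trans ?_
  · exact (hx' i (mem_filter.1 hi).1).2.2.1
  · refine Nat.mul_le_mul_right _ (Nat.pow_le_pow_right (by norm_num) ?_)
    have h1 := ACL_sum c ((Icc 1 b).filter (fun B => a B = c)) (by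
      intro B hB
      rw [mem_filter] at hB
      have := (hx' B hB.1).2.1
      omega)
    refine (Nat.add_le_add_right h1 _).trans ?_
    rw [← sum_add_distrib]
    refine sum_le_sum fun B hB => ?_
    rw [mem_filter] at hB
    obtain ⟨h2, h3, h4, h5⟩ := hx' B hB.1
    have h6 : (((range X).filter (fun p => p.Prime ∧ e p < c)).filter (· < x B)).card ≤
        ((range (x B)).filter (fun p => p.Prime ∧ e p < a B)).card := by
      refine card_le_card fun p hp => ?_
      rw [mem_filter, mem_filter] at hp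
      rw [mem_filter, mem_range, hB.2]
      exact ⟨hp.2, hp.1.2⟩
    have h7 := hB.2
    omega

end Pool.Agent.Work.MP_f1a024_nt.RL
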