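import Pool.Agent.Work.MP_f1a024_nt.RL.Stmts

/-!
# Block WL, item AKL: the coefficients at products of free primes
-/

namespace Pool.Agent.Work.MP_f1a024_nt.RL

open Finset MvPolynomial Filter
open Pool.Agent.Work.MP_f1a024_nt.AH (tau PG val D1 D2 D4 D10a D10b)
open Pool.Agent.Work.MP_f1a024_nt.RW

/-- item AKL -/
theorem prfAKL (_hNB : NB) (hUB : UB) : AKL := by
  intro d f u κ m hKM hm i
  unfold AK
  rw [Finset.sum_eq_single (κ, m)]
  · intro y hy hne
    by_cases h0 : (u i).coeff y.1 = 0
    · rw [h0, zero_mul]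
    exfalso
    have hsup : y.1 ∈ (u i).support := MvPolynomial.mem_support_iff.2 h0
    have hadd : y.1 + y.2 = κ + m := (HasAntidiagonal.mem_antidiagonal (n := κ + m)).1 hy
    have hy1 : y.1 ≠ κ := by
      intro h
      apply hne
      rw [h] at hadd
      exact Prod.ext h (add_left_cancel hadd)
    obtain ⟨π, hπ, -⟩ := hKM i y.1 hsup hy1
    have h1 : y.1 π + y.2 π = κ π + m π := by
      rw [← Finsupp.add_apply, ← Finsupp.add_apply, hadd]
    have h2 : π ∈ m.support := by
      rw [Finsupp.mem_support_iff]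
      omega
    have h3 := hm π h2
    have h4 : y.1 π ≤ up u π :=
      (hUB.2.2.1 (u i) y.1 hsup π).trans (hUB.2.2.2.2.1 _ u i π)
    omega
  · intro h
    exact absurd ((HasAntidiagonal.mem_antidiagonal (n := κ + m) (a := (κ, m))).2 rfl) h

end Pool.Agent.Work.MP_f1a024_nt.RL
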