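import Pool.Agent.Work.MP_f1a024_nt.RL.Stmts

/-!
# Block WL, item EBL: the induction
-/

set_option autoImplicit false

namespace Pool.Agent.Work.MP_f1a024_nt.RL

open Finset MvPolynomial Filter
open Pool.Agent.Work.MP_f1a024_nt.AH (tau PG val D1 D2 D4 D10a D10b)
open Pool.Agent.Work.MP_f1a024_nt.RW

theorem EBL_prod (P : ℕ → ℕ) (q j b : ℕ) (hjb : j ≤ b) (hq : ∀ B, 1 ≤ B → B ≤ b → q ≤ P B) :
    (∏ B ∈ Finset.Icc 1 j, P B) * q ^ (b - j) ≤ ∏ B ∈ Finset.Icc 1 b, P B := by
  induction b, hjb using Nat.le_induction with
  | base => simp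
  | succ b hb ih =>
    have h1 := ih (fun B hB1 hB => hq B hB1 (by omega))
    rw [Finset.prod_Icc_succ_top (by omega), show b + 1 - j = (b - j) + 1 by omega, pow_succ,
      ← mul_assoc]
    exact Nat.mul_le_mul h1 (hq (b + 1) (by omega) le_rfl)

theorem EBL_const {k : ℕ} {h : VE k → ℚ} (hh : h ∈ PF k 0) : ∃ c : ℚ, ∀ α, h α = c := by
  unfold PF at hh
  induction hh using Submodule.span_induction with
  | mem h hh =>
    obtain ⟨γ, hγ, rfl⟩ := hh
    refine ⟨1, fun α => ?_⟩
    have h0 : ∀ j, γ j = 0 := by
      intro j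
      have h1 : γ j ≤ wv γ := Finset.single_le_sum (f := γ) (fun _ _ => Nat.zero_le _)
        (Finset.mem_univ j)
      omega
    unfold cbf
    refine Finset.prod_eq_one fun j _ => ?_
    rw [h0 j, Nat.choose_zero_right, Nat.cast_one]
  | zero => exact ⟨0, fun _ => rfl⟩
  | add f g _ _ hf hg =>
    obtain ⟨c, hc⟩ := hf
    obtain ⟨c', hc'⟩ := hg
    exact ⟨c + c', fun α => by rw [Pi.add_apply, hc, hc']⟩
  | smul r f _ hf =>
    obtain ⟨c, hc⟩ := hf
    exact ⟨r * c, fun α => by rw [Pi.smul_apply, hc, smul_eq_mul]⟩

theorem EBL_sup {m : Ex} {p : Nat.Primes} {c : ℕ} {q : Nat.Primes}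
    (hq : q ∈ (m.erase p + Finsupp.single p c).support) : q = p ∨ q ∈ m.support := by
  by_cases hqp : q = p
  · exact Or.inl hqp
  · right
    rw [Finsupp.mem_support_iff, Finsupp.add_apply, Finsupp.single_eq_of_ne hqp, add_zero,
      Finsupp.erase_ne hqp] at hq
    exact Finsupp.mem_support_iff.2 hq

theorem prfEBL (hNB : NB) (hUB : UB) (h1 : AKU) (h2 : STL) (h3 : LTL) (h4 : LFL) (_h5 : PFL) :
    EBL := by
  classical
  intro hD k d s A u κ n a x S k₃ b hs _ hΛ hKM hB hx hS huv
  obtain ⟨n0, nadd, npos, ninj, nex, -, nle, nfac, nsing, -⟩ := id hNB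
  obtain ⟨-, -, hU3, -, hU5, -⟩ := id hUB
  have hup : ∀ i, ∀ y ∈ (u i).support, ∀ q, y q ≤ up u q := by
    intro i y hy q
    exact le_trans (hU3 (u i) y hy q) (hU5 (Fin (d + 1)) u i q)
  have main : ∀ j ≤ b, ∀ N : ℕ, ∀ m : Ex, nn m = N →
      (∀ B, 1 ≤ B → B ≤ j → ∀ p ∈ S B, ∀ π ∈ m.support, up u π ≠ κ π → (π : ℕ) ≤ p) →
      nn κ * nn m * ∏ B ∈ Icc 1 j, x B < k₃ →
      ∀ h ∈ PF k j, ∑ i, h (A i) * AK (fW s A) u i (κ + m) = 0 := by
    intro j
    induction j using Nat.strong_induction_on with
    | _ j ihj =>
    intro hj N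
    induction N using Nat.strong_induction_on with
    | _ N ihN =>
    intro m hmN hm hlt h hh
    rcases Nat.eq_zero_or_pos j with h0 | h0
    · subst h0
      obtain ⟨c, hc⟩ := EBL_const hh
      have e1 : ∑ i, AK (fW s A) u i (κ + m) = 0 := by
        rw [← h1]
        apply huv
        rw [nadd]
        simpa using hlt
      simp only [hc]
      rw [← Finset.mul_sum, e1, mul_zero]
    · obtain ⟨ha1, ha2, hn1, hG, hcard, hp⟩ := hB j h0 hj
      -- the relations of one prime
      have step1 : ∀ p ∈ S j, ∀ g ∈ PF k (j - a j),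
          ∑ i, g (A i) * Lw s p (A i) ^ (a j) * AK (fW s A) u i (κ + m) = 0 := by
        intro p hpS g hg
        obtain ⟨hp1, hp2⟩ := hp p hpS
        have hpp : 0 < (p : ℕ) := p.2.pos
        obtain ⟨m', hm'def⟩ : ∃ m' : Ex, m' = m.erase p := ⟨_, rfl⟩
        have hm' : m' + Finsupp.single p (m p) = m := by
          rw [hm'def]
          exact Finsupp.erase_add_single p m
        have hm'p : m' p = 0 := by rw [hm'def]; simp
        have hsup' : ∀ q, m' q ≠ 0 → q ∈ m.support := by
          intro q hq
          rw [Finsupp.mem_support_iff]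
          intro h3
          apply hq
          by_cases hqp : q = p
          · rw [hqp]; exact hm'p
          · rw [hm'def, Finsupp.erase_ne hqp]; exact h3
        have h4 : nn m = nn m' * (p : ℕ) ^ (m p) := by
          rw [← nsing, ← nadd, hm']
        have hcond : ∀ c : ℕ, ∀ B, 1 ≤ B → B ≤ j → ∀ p1 ∈ S B,
            ∀ π ∈ (m' + Finsupp.single p c).support, up u π ≠ κ π → (π : ℕ) ≤ p1 := by
          intro c B hB1 hBj p1 hp1S π hπ hne
          rw [hm'def] at hπ
          rcases EBL_sup hπ with rfl | hπ'
          · exact hS B j hB1 hBj hj p1 hp1S π hpS hne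
          · exact hm B hB1 hBj p1 hp1S π hπ' hne
        have key := h2 hD k d s A u κ m' p j (m p) (a j) hm'p hp1 ha2 ?_ ?_ ?_ g hg
        · rw [add_assoc, hm'] at key
          exact key
        · intro i y hy hyq
          by_contra hlt'
          rw [not_le] at hlt'
          have hne : y ≠ κ := by
            rintro rfl
            exact lt_irrefl _ hlt'
          obtain ⟨π, hπ1, hπ2⟩ := hKM i y hy hne
          have hπp : π ≠ p := by
            rintro rfl
            omega
          rcases Nat.lt_or_ge (π : ℕ) p with hlt2 | hge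
          · have := hπ2 p hlt2
            omega
          · have hne2 : (π : ℕ) ≠ p := fun h => hπp (Subtype.ext h)
            have hyπ := hyq π hπp
            have hmπ : m' π ≠ 0 := by
              intro h5
              omega
            have hmem := hsup' π hmπ
            by_cases hUκ : up u π = κ π
            · have := hup i y hy π
              omega
            · have := hm j h0 le_rfl p hpS π hmem hUκ
              omega
        · intro j' a' hj' ha' h' hh'
          rw [add_assoc]
          refine ihj j' hj' (by omega) _ (m' + Finsupp.single p a') rfl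
            (fun B hB1 hBj => hcond a' B hB1 (by omega)) ?_ h' hh'
          refine lt_of_le_of_lt ?_ hlt
          rw [mul_assoc, mul_assoc]
          refine Nat.mul_le_mul_left _ ?_
          rw [nadd, nsing, h4, mul_assoc, mul_assoc]
          refine Nat.mul_le_mul_left _ ?_
          have h5 := EBL_prod x p j' j hj'.le
            (fun B hB1 hBj => le_trans hp2 (hx B j hB1 hBj hj))
          calc (p : ℕ) ^ a' * ∏ B ∈ Finset.Icc 1 j', x B
              ≤ (p : ℕ) ^ (m p + (j - j')) * ∏ B ∈ Finset.Icc 1 j', x B :=
                Nat.mul_le_mul_right _ (Nat.pow_le_pow_right hpp (by omega))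
            _ = (p : ℕ) ^ (m p) * ((∏ B ∈ Finset.Icc 1 j', x B) * (p : ℕ) ^ (j - j')) := by
                rw [pow_add]; ring
            _ ≤ (p : ℕ) ^ (m p) * ∏ B ∈ Finset.Icc 1 j, x B :=
                Nat.mul_le_mul_left _ h5
        · intro a' ha' h' hh'
          rw [add_assoc]
          have h6 : nn (m' + Finsupp.single p a') < nn m := by
            rw [nadd, nsing, h4]
            exact Nat.mul_lt_mul_of_pos_left (Nat.pow_lt_pow_right p.2.one_lt ha') (npos m')
          refine ihN (nn (m' + Finsupp.single p a')) (by rw [← hmN]; exact h6)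
            (m' + Finsupp.single p a') rfl (hcond a') ?_ h' hh'
          refine lt_of_le_of_lt ?_ hlt
          exact Nat.mul_le_mul_right _ (Nat.mul_le_mul_left _ h6.le)
      -- orthogonality to the functions of smaller degree
      have hSne : (S j).Nonempty := Finset.card_pos.1 (by omega)
      obtain ⟨p0, hp0⟩ := hSne
      have hxj : 1 ≤ x j := le_trans p0.2.pos (hp p0 hp0).2
      have step0 : ∀ h ∈ PF k (j - 1), ∑ i, AK (fW s A) u i (κ + m) * h (A i) = 0 := by
        intro h' hh'
        have e1 := ihj (j - 1) (by omega) (by omega) _ m rfl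
          (fun B hB1 hBj => hm B hB1 (by omega)) ?_ h' hh'
        · rw [← e1]
          exact Finset.sum_congr rfl fun i _ => mul_comm _ _
        · refine lt_of_le_of_lt ?_ hlt
          refine Nat.mul_le_mul_left _ ?_
          have h5 := EBL_prod x 1 (j - 1) j (by omega)
            (fun B hB1 hBj => le_trans hxj (hx B j hB1 hBj hj))
          rwa [one_pow, mul_one] at h5
      have hAm : ∀ i, A i ∈ univ.image A := fun i => Finset.mem_image_of_mem _ (Finset.mem_univ i)
      have hfin : ∑ i, AK (fW s A) u i (κ + m) * h (A i) = 0 := by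
        rcases hG with ⟨ha, hnb⟩ | ⟨hn, hsep⟩
        · -- several free primes
          have hinj : Function.Injective fun p : Nat.Primes => (p : ℕ) := Subtype.val_injective
          refine h4 k (Fin (d + 1)) A (univ.image A) (fun i => AK (fW s A) u i (κ + m)) j s
            ((S j).image fun p : Nat.Primes => (p : ℕ)) hΛ hAm h0 hs ?_ ?_ step0 ?_ h hh
          · intro p hp'
            obtain ⟨p', _, rfl⟩ := Finset.mem_image.1 hp'
            exact p'.2.pos
          · intro γ hγ hγw
            rw [Finset.card_image_of_injective _ hinj, hcard]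
            exact hnb γ hγ hγw
          · intro p hp' g hg
            obtain ⟨p', hp'S, rfl⟩ := Finset.mem_image.1 hp'
            have e2 := step1 p' hp'S g (by rw [ha]; exact hg)
            rw [ha] at e2
            simp only [pow_one] at e2
            rw [← e2]
            exact Finset.sum_congr rfl fun i _ => mul_comm _ _
        · -- one prime
          refine h3 k (Fin (d + 1)) A (univ.image A) (fun i => AK (fW s A) u i (κ + m)) j (a j)
            (fun j' => ((p0 : ℕ) : ℚ)⁻¹ ^ s j') hΛ hAm ha1 ha2 ?_ hsep step0 ?_ h hh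
          · intro j'
            have : ((p0 : ℕ) : ℚ) ≠ 0 := by exact_mod_cast p0.2.pos.ne'
            exact pow_ne_zero _ (inv_ne_zero this)
          · intro g hg
            have e2 := step1 p0 hp0 g hg
            rw [← e2]
            refine Finset.sum_congr rfl fun i _ => ?_
            have e3 : ∑ j', ((p0 : ℕ) : ℚ)⁻¹ ^ s j' * (A i j' : ℚ) = Lw s p0 (A i) := by
              unfold Lw
              refine Finset.sum_congr rfl fun j' _ => ?_
              rw [inv_pow, div_eq_mul_inv, mul_comm]
            rw [e3]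
            exact mul_comm _ _
      rw [← hfin]
      exact Finset.sum_congr rfl fun i _ => mul_comm _ _
  intro m hm hlt h hh
  exact main b le_rfl _ m rfl hm hlt h hh

end Pool.Agent.Work.MP_f1a024_nt.RL
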