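import Pool.Agent.Work.MP_f1a024_nt.RL.Stmts

/-!
# Block WL, item EXL: the top degree part of `cbf δ * L^n`
-/

set_option autoImplicit false

namespace Pool.Agent.Work.MP_f1a024_nt.RL

open Finset
open Pool.Agent.Work.MP_f1a024_nt.RW

/-- the sum over `|ε| = n` of `cbf δ (δ + ε) V^ε cbf (δ + ε)` -/
def EXL_T {k : ℕ} (V : Fin (k + 1) → ℚ) (δ : VE k) (n : ℕ) (α : VE k) : ℚ :=
  ∑ ε ∈ Finset.piAntidiag univ n, cbf δ (δ + ε) * (∏ j, V j ^ ε j) * cbf (δ + ε) α

theorem EXL_mem {k : ℕ} (n : ℕ) (ε : VE k) :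
    ε ∈ (Finset.piAntidiag univ n : Finset (VE k)) ↔ wv ε = n := by
  rw [Finset.mem_piAntidiag]
  simp [wv]

theorem EXL_wv_add {k : ℕ} (a b : VE k) : wv (a + b) = wv a + wv b := by
  simp [wv, Finset.sum_add_distrib]

theorem EXL_wv_uv1 {k : ℕ} (j : Fin (k + 1)) : wv (uv1 j) = 1 := by
  simp [wv, uv1]

theorem EXL_shift {k : ℕ} (δ : VE k) (n : ℕ) (F : VE k → ℚ) (hF : ∀ γ, F γ ≠ 0 → δ ≤ γ) :
    ∑ ε ∈ Finset.piAntidiag univ n, F (δ + ε) = ∑ γ ∈ Finset.piAntidiag univ (wv δ + n), F γ := by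
  refine Finset.sum_of_injOn (fun ε => δ + ε) ?_ ?_ ?_ (fun _ _ => rfl)
  · intro a _ b _ hab
    exact add_left_cancel hab
  · intro ε hε
    rw [Finset.mem_coe, EXL_mem] at hε
    rw [Finset.mem_coe, EXL_mem, EXL_wv_add, hε]
  · intro γ hγ hn
    by_contra hne
    apply hn
    rw [EXL_mem] at hγ
    have hle := hF γ hne
    have e : δ + (γ - δ) = γ := add_tsub_cancel_of_le hle
    refine ⟨γ - δ, ?_, e⟩
    rw [Finset.mem_coe, EXL_mem]
    have := EXL_wv_add δ (γ - δ)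
    rw [e, hγ] at this
    omega

theorem EXL_reindex {k : ℕ} (n : ℕ) (g : VE k → ℚ) :
    ∑ ε ∈ Finset.piAntidiag univ n, ∑ j, ((ε j : ℚ) + 1) * g (ε + uv1 j) =
      ((n : ℚ) + 1) * ∑ γ ∈ Finset.piAntidiag univ (n + 1), g γ := by
  rw [Finset.sum_comm]
  have h1 : ∀ j : Fin (k + 1), ∑ ε ∈ (Finset.piAntidiag univ n : Finset (VE k)),
      ((ε j : ℚ) + 1) * g (ε + uv1 j) =
      ∑ γ ∈ (Finset.piAntidiag univ (n + 1) : Finset (VE k)), (γ j : ℚ) * g γ := by
    intro j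
    have h2 := EXL_shift (uv1 j) n (fun γ => (γ j : ℚ) * g γ) (by
      intro γ hγ i
      have h3 : γ j ≠ 0 := by
        intro h
        apply hγ
        rw [h]
        simp
      by_cases hi : i = j
      · subst hi
        simp only [uv1, if_true]
        omega
      · simp [uv1, hi])
    rw [EXL_wv_uv1, add_comm 1 n] at h2
    rw [← h2]
    refine Finset.sum_congr rfl fun ε _ => ?_
    have e : (uv1 j + ε) j = ε j + 1 := by simp [uv1, add_comm]
    rw [e, add_comm ε (uv1 j)]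
    push_cast
    ring
  rw [Finset.sum_congr rfl fun j _ => h1 j, Finset.sum_comm, Finset.mul_sum]
  refine Finset.sum_congr rfl fun γ hγ => ?_
  rw [EXL_mem] at hγ
  rw [← Finset.sum_mul]
  congr 1
  have : ((∑ j, γ j : ℕ) : ℚ) = ((n + 1 : ℕ) : ℚ) := by rw [← hγ]; rfl
  push_cast at this
  exact this

theorem EXL_cbf {k : ℕ} (δ ε : VE k) (j : Fin (k + 1)) :
    cbf δ (δ + ε) * ((δ j : ℚ) + ε j + 1) = ((ε j : ℚ) + 1) * cbf δ (δ + (ε + uv1 j)) := by
  unfold cbf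
  rw [← Finset.mul_prod_erase univ _ (mem_univ j), ← Finset.mul_prod_erase univ
    (fun i => ((((δ + (ε + uv1 j)) i).choose (δ i) : ℕ) : ℚ)) (mem_univ j)]
  have h1 : ∏ x ∈ univ.erase j, ((((δ + (ε + uv1 j)) x).choose (δ x) : ℕ) : ℚ) =
      ∏ x ∈ univ.erase j, ((((δ + ε) x).choose (δ x) : ℕ) : ℚ) := by
    refine Finset.prod_congr rfl fun x hx => ?_
    have hxj : x ≠ j := (Finset.mem_erase.1 hx).1
    have : (δ + (ε + uv1 j)) x = (δ + ε) x := by simp [uv1, hxj]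
    rw [this]
  rw [h1]
  have h2 : (δ + (ε + uv1 j)) j = δ j + ε j + 1 := by simp [uv1, add_assoc]
  have h3 : (δ + ε) j = δ j + ε j := rfl
  rw [h2, h3]
  have h4 := Nat.choose_mul_succ_eq (δ j + ε j) (δ j)
  have h5 : δ j + ε j + 1 - δ j = ε j + 1 := by omega
  rw [h5] at h4
  have h6 : (((δ j + ε j).choose (δ j) : ℕ) : ℚ) * ((δ j : ℚ) + ε j + 1) =
      (((δ j + ε j + 1).choose (δ j) : ℕ) : ℚ) * ((ε j : ℚ) + 1) := by
    exact_mod_cast h4
  linear_combination (∏ x ∈ univ.erase j, ((((δ + ε) x).choose (δ x) : ℕ) : ℚ)) * h6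

theorem EXL_pow {k : ℕ} (V : Fin (k + 1) → ℚ) (ε : VE k) (j : Fin (k + 1)) :
    ∏ i, V i ^ (ε + uv1 j) i = (∏ i, V i ^ ε i) * V j := by
  have h1 : ∏ i, V i ^ (uv1 j) i = V j := by
    rw [Finset.prod_eq_single j]
    · simp [uv1]
    · intro b _ hb
      simp [uv1, hb]
    · intro h
      exact absurd (mem_univ j) h
  rw [← h1, ← Finset.prod_mul_distrib]
  refine Finset.prod_congr rfl fun i _ => ?_
  rw [Pi.add_apply, pow_add]

theorem EXL_step {k : ℕ} (h6 : ∀ γ α : VE k, ∀ j, (α j : ℚ) * cbf γ α =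
      (γ j + 1) * cbf (γ + uv1 j) α + γ j * cbf γ α) (V : Fin (k + 1) → ℚ) (δ : VE k) (n : ℕ)
    (α : VE k) :
    (∑ j, V j * (α j : ℚ)) * EXL_T V δ n α = ((n : ℚ) + 1) * EXL_T V δ (n + 1) α +
      ∑ ε ∈ (Finset.piAntidiag univ n : Finset (VE k)), ∑ j,
        (cbf δ (δ + ε) * (∏ i, V i ^ ε i) * V j * ((δ j : ℚ) + ε j)) * cbf (δ + ε) α := by
  unfold EXL_T
  rw [← EXL_reindex n (fun ε => cbf δ (δ + ε) * (∏ i, V i ^ ε i) * cbf (δ + ε) α),
    ← Finset.sum_add_distrib, Finset.mul_sum]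
  refine Finset.sum_congr rfl fun ε _ => ?_
  rw [← Finset.sum_add_distrib, Finset.sum_mul]
  refine Finset.sum_congr rfl fun j _ => ?_
  have e1 := h6 (δ + ε) α j
  have e2 := EXL_cbf δ ε j
  have e3 := EXL_pow V ε j
  have e4 : δ + ε + uv1 j = δ + (ε + uv1 j) := add_assoc _ _ _
  rw [e4] at e1
  have e5 : ((δ + ε) j : ℚ) = (δ j : ℚ) + ε j := by
    rw [Pi.add_apply]
    push_cast
    rfl
  rw [e5] at e1
  rw [e3]
  linear_combination (V j * cbf δ (δ + ε) * ∏ i, V i ^ ε i) * e1 +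
    (V j * (∏ i, V i ^ ε i) * cbf (δ + (ε + uv1 j)) α) * e2

theorem prfEXL (h : PFL) : EXL := by
  intro k V δ n hn
  obtain ⟨_, h2, _, _, h5, h5b, h6, _, h8⟩ := h k
  -- the form with `ε`
  have hT : ∀ (m : ℕ) (α : VE k), ∑ γ ∈ (Finset.piAntidiag univ (wv δ + m) : Finset (VE k)),
      cbf δ γ * (∏ j, V j ^ (γ j - δ j)) * cbf γ α = EXL_T V δ m α := by
    intro m α
    rw [← EXL_shift δ m (fun γ => cbf δ γ * (∏ j, V j ^ (γ j - δ j)) * cbf γ α) (by
      intro γ hγ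
      apply h5
      intro h0
      apply hγ
      rw [h0]
      ring)]
    unfold EXL_T
    refine Finset.sum_congr rfl fun ε _ => ?_
    have e : (∏ j, V j ^ ((δ + ε) j - δ j)) = ∏ j, V j ^ ε j := by
      refine Finset.prod_congr rfl fun j _ => ?_
      rw [Pi.add_apply, Nat.add_sub_cancel_left]
    rw [e]
  -- multiplication by the linear form
  have hL : ∀ (m : ℕ) (R : VE k → ℚ), R ∈ PF k m →
      (fun α : VE k => (∑ j, V j * (α j : ℚ)) * R α) ∈ PF k (m + 1) := by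
    intro m R hR
    have e : (fun α : VE k => (∑ j, V j * (α j : ℚ)) * R α) =
        ∑ j, V j • (fun α : VE k => (α j : ℚ) * R α) := by
      funext α
      rw [Finset.sum_apply, Finset.sum_mul]
      refine Finset.sum_congr rfl fun j _ => ?_
      rw [Pi.smul_apply, smul_eq_mul]
      ring
    rw [e]
    exact Submodule.sum_mem _ fun j _ => Submodule.smul_mem _ _ (h2 m R hR j)
  have hrest : ∀ m : ℕ, (fun α : VE k => ∑ ε ∈ (Finset.piAntidiag univ m : Finset (VE k)), ∑ j,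
        (cbf δ (δ + ε) * (∏ i, V i ^ ε i) * V j * ((δ j : ℚ) + ε j)) * cbf (δ + ε) α) ∈
      PF k (wv δ + m) := by
    intro m
    have e : (fun α : VE k => ∑ ε ∈ (Finset.piAntidiag univ m : Finset (VE k)), ∑ j,
        (cbf δ (δ + ε) * (∏ i, V i ^ ε i) * V j * ((δ j : ℚ) + ε j)) * cbf (δ + ε) α) =
        ∑ ε ∈ (Finset.piAntidiag univ m : Finset (VE k)), ∑ j,
          (cbf δ (δ + ε) * (∏ i, V i ^ ε i) * V j * ((δ j : ℚ) + ε j)) • cbf (δ + ε) := by
      funext α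
      rw [Finset.sum_apply]
      refine Finset.sum_congr rfl fun ε _ => ?_
      rw [Finset.sum_apply]
      refine Finset.sum_congr rfl fun j _ => ?_
      rw [Pi.smul_apply, smul_eq_mul]
    rw [e]
    refine Submodule.sum_mem _ fun ε hε => Submodule.sum_mem _ fun j _ =>
      Submodule.smul_mem _ _ (h8 _ _ ?_)
    rw [EXL_mem] at hε
    rw [EXL_wv_add, hε]
  -- one step
  have hstep : ∀ (m : ℕ) (α : VE k), cbf δ α * (∑ j, V j * (α j : ℚ)) ^ (m + 1) -
      ((m + 1).factorial : ℚ) * EXL_T V δ (m + 1) α =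
      (∑ j, V j * (α j : ℚ)) * (cbf δ α * (∑ j, V j * (α j : ℚ)) ^ m -
        (m.factorial : ℚ) * EXL_T V δ m α) +
      (m.factorial : ℚ) * ∑ ε ∈ (Finset.piAntidiag univ m : Finset (VE k)), ∑ j,
        (cbf δ (δ + ε) * (∏ i, V i ^ ε i) * V j * ((δ j : ℚ) + ε j)) * cbf (δ + ε) α := by
    intro m α
    have e := EXL_step (fun γ α j => h6 γ α j) V δ m α
    rw [Nat.factorial_succ]
    push_cast
    linear_combination (m.factorial : ℚ) * e
  have hbase : ∀ α : VE k, EXL_T V δ 0 α = cbf δ α := by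
    intro α
    unfold EXL_T
    rw [Finset.piAntidiag_zero, Finset.sum_singleton, add_zero, h5b]
    simp
  have key : ∀ m : ℕ, (fun α : VE k => cbf δ α * (∑ j, V j * (α j : ℚ)) ^ (m + 1) -
      ((m + 1).factorial : ℚ) * EXL_T V δ (m + 1) α) ∈ PF k (wv δ + m) := by
    intro m
    induction m with
    | zero =>
      have e : (fun α : VE k => cbf δ α * (∑ j, V j * (α j : ℚ)) ^ (0 + 1) -
          ((0 + 1).factorial : ℚ) * EXL_T V δ (0 + 1) α) =
          (((Nat.factorial 0 : ℕ) : ℚ)) • (fun α : VE k =>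
            ∑ ε ∈ (Finset.piAntidiag univ 0 : Finset (VE k)), ∑ j,
            (cbf δ (δ + ε) * (∏ i, V i ^ ε i) * V j * ((δ j : ℚ) + ε j)) * cbf (δ + ε) α) := by
        funext α
        rw [hstep 0 α, hbase, Pi.smul_apply, smul_eq_mul, pow_zero, Nat.factorial_zero]
        push_cast
        ring
      rw [e]
      exact Submodule.smul_mem _ _ (hrest 0)
    | succ m ih =>
      have e : (fun α : VE k => cbf δ α * (∑ j, V j * (α j : ℚ)) ^ (m + 1 + 1) -
          ((m + 1 + 1).factorial : ℚ) * EXL_T V δ (m + 1 + 1) α) =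
          (fun α : VE k => (∑ j, V j * (α j : ℚ)) * (cbf δ α * (∑ j, V j * (α j : ℚ)) ^ (m + 1) -
            ((m + 1).factorial : ℚ) * EXL_T V δ (m + 1) α)) +
          ((m + 1).factorial : ℚ) • (fun α : VE k =>
            ∑ ε ∈ (Finset.piAntidiag univ (m + 1) : Finset (VE k)), ∑ j,
            (cbf δ (δ + ε) * (∏ i, V i ^ ε i) * V j * ((δ j : ℚ) + ε j)) * cbf (δ + ε) α) := by
        funext α
        rw [hstep (m + 1) α, Pi.add_apply, Pi.smul_apply, smul_eq_mul]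
      rw [e]
      exact Submodule.add_mem _ (hL _ _ ih) (Submodule.smul_mem _ _ (hrest (m + 1)))
  obtain ⟨m, rfl⟩ : ∃ m, n = m + 1 := ⟨n - 1, by omega⟩
  have e : wv δ + (m + 1) - 1 = wv δ + m := by omega
  rw [e]
  have := key m
  simp only [hT]
  exact this

end Pool.Agent.Work.MP_f1a024_nt.RL
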