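import Pool.Agent.Work.MP_f1a024_nt.RL.Stmts

/-! # Block WL, item KUL -/

set_option autoImplicit false

namespace Pool.Agent.Work.MP_f1a024_nt.RL

open Finset
open Pool.Agent.Work.MP_f1a024_nt.RW

theorem KUL_nn_sum (hNB : NB) (T : Finset Nat.Primes) (e : Nat.Primes → ℕ) :
    nn (∑ q ∈ T, Finsupp.single q (e q)) = ∏ q ∈ T, (q : ℕ) ^ e q := by
  classical
  obtain ⟨h0, h1, -, -, -, -, -, -, h2, -⟩ := hNB
  induction T using Finset.induction_on with
  | empty => rw [Finset.sum_empty, Finset.prod_empty, h0]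
  | insert q T hq ih =>
    rw [Finset.sum_insert hq, Finset.prod_insert hq, h1, ih, h2]

theorem KUL_sum_single (T : Finset Nat.Primes) (e : Nat.Primes → ℕ) (q : Nat.Primes) :
    (∑ q' ∈ T, Finsupp.single q' (e q') : Ex) q = if q ∈ T then e q else 0 := by
  classical
  rw [Finsupp.finsetSum_apply]
  simp only [Finsupp.single_apply]
  rw [Finset.sum_ite_eq']

theorem prfKUL (h : NB) : KUL := by
  classical
  intro κ U X hκ
  obtain ⟨n0, nadd, npos, ninj, nex, -, nle, -, -, -⟩ := id h
  set P := (range X).filter Nat.Prime with hP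
  set T : Finset Nat.Primes := P.subtype (fun p => p.Prime) with hT
  have hPT : ∏ q ∈ T, (q : ℕ) ^ (U q - κ q) = ∏ p ∈ P, p ^ eW κ U p := by
    have h1 := Finset.prod_subtype_of_mem (s := P) (fun p : ℕ => p ^ eW κ U p)
      (p := fun p => p.Prime) (fun x hx => (Finset.mem_filter.1 hx).2)
    rw [← h1]
    refine Finset.prod_congr rfl fun q _ => ?_
    have h2 : eW κ U (q : ℕ) = U q - κ q := by
      unfold eW
      rw [dif_pos q.2]
      rfl
    rw [← h2]
  have hη : κ + ∑ q ∈ T, Finsupp.single q (U q - κ q) ≤ U := by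
    intro p
    rw [Finsupp.add_apply, KUL_sum_single]
    have h4 : κ p ≤ U p := hκ p
    split_ifs with hp
    · omega
    · omega
  have h4 := Nat.le_of_dvd (npos _) ((nle _ _).1 hη)
  rw [nadd, KUL_nn_sum h, hPT] at h4
  exact h4

end Pool.Agent.Work.MP_f1a024_nt.RL
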