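import Pool.Agent.Work.MP_f1a024_nt.RL.Stmts

set_option autoImplicit false

/-!
# Item LFL: several free primes kill a level
-/

namespace Pool.Agent.Work.MP_f1a024_nt.RL

open Finset MvPolynomial Filter
open Pool.Agent.Work.MP_f1a024_nt.RW

/-- The polynomial `∑_j c_j X^(s_j)`. -/
noncomputable def LFL_P {k : ℕ} (s : Fin (k + 1) → ℕ) (c : Fin (k + 1) → ℚ) : Polynomial ℚ :=
  ∑ j, Polynomial.monomial (s j) (c j)

theorem LFL_coeff {k : ℕ} (s : Fin (k + 1) → ℕ) (c : Fin (k + 1) → ℚ)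
    (hs : Function.Injective s) (j : Fin (k + 1)) : (LFL_P s c).coeff (s j) = c j := by
  classical
  rw [LFL_P, Polynomial.finsetSum_coeff, Finset.sum_eq_single j]
  · rw [Polynomial.coeff_monomial, if_pos rfl]
  · intro i _ hij
    rw [Polynomial.coeff_monomial, if_neg fun h => hij (hs h)]
  · intro h
    exact absurd (Finset.mem_univ j) h

theorem LFL_eval {k : ℕ} (s : Fin (k + 1) → ℕ) (c : Fin (k + 1) → ℚ) (x : ℚ) :
    (LFL_P s c).eval x = ∑ j, c j * x ^ s j := by
  rw [LFL_P, Polynomial.eval_finsetSum]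
  refine Finset.sum_congr rfl fun j _ => ?_
  rw [Polynomial.eval_monomial]

theorem LFL_support {k : ℕ} (s : Fin (k + 1) → ℕ) (c : Fin (k + 1) → ℚ)
    (J : Finset (Fin (k + 1))) (hJ : ∀ j, j ∉ J → c j = 0) :
    (LFL_P s c).support.card ≤ J.card := by
  classical
  refine (Finset.card_le_card ?_).trans (Finset.card_image_le (s := J) (f := s))
  intro n hn
  rw [Polynomial.mem_support_iff, LFL_P, Polynomial.finsetSum_coeff] at hn
  obtain ⟨j, -, hj⟩ := Finset.exists_ne_zero_of_sum_ne_zero hn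
  rw [Polynomial.coeff_monomial] at hj
  by_cases h : s j = n
  · rw [if_pos h] at hj
    rw [Finset.mem_image]
    refine ⟨j, ?_, h⟩
    by_contra hjJ
    exact hj (hJ j hjJ)
  · rw [if_neg h] at hj
    exact absurd rfl hj

/-- Descartes for the points `1 / p`, `p ∈ S`. -/
theorem LFL_zero (h2 : DEJ) (P : Polynomial ℚ) (S : Finset ℕ) (hS : ∀ p ∈ S, 0 < p)
    (hc : 1 ≤ S.card) (hP : P.support.card ≤ S.card)
    (hr : ∀ p ∈ S, P.eval (1 / (p : ℚ)) = 0) : P = 0 := by
  by_contra hne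
  obtain ⟨q, hq⟩ : ∃ q, S.card = q + 1 := ⟨S.card - 1, by omega⟩
  have hmem : ∀ i, S.orderEmbOfFin hq i ∈ S := fun i => S.orderEmbOfFin_mem hq i
  obtain ⟨i, hi⟩ := h2 q P (fun i => 1 / ((S.orderEmbOfFin hq i : ℕ) : ℚ)) hne (by omega)
    (fun i i' h => by
      have h3 : ((S.orderEmbOfFin hq i : ℕ) : ℚ) = ((S.orderEmbOfFin hq i' : ℕ) : ℚ) := by
        simpa using h
      exact (S.orderEmbOfFin hq).injective (by exact_mod_cast h3))
    (fun i => by
      have h4 : (0 : ℚ) < ((S.orderEmbOfFin hq i : ℕ) : ℚ) := by exact_mod_cast hS _ (hmem i)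
      exact one_div_pos.mpr h4)
  exact hi (hr _ (hmem i))

theorem prfLFL (h1 : PFL) (h2 : DEJ) : LFL := by
  intro k ι _ A Λ z b s S hLS hA hb hs hS hnbr hlow hrel
  obtain ⟨-, -, -, -, h5, -, h6, -, h7⟩ := h1 k
  have hlow' : ∀ γ : VE k, wv γ ≤ b - 1 → ∑ i, z i * cbf γ (A i) = 0 := fun γ hγ =>
    hlow _ (h7 (b - 1) γ hγ)
  have hout : ∀ γ : VE k, γ ∉ Λ → ∑ i, z i * cbf γ (A i) = 0 := by
    intro γ hγ
    refine Finset.sum_eq_zero fun i _ => ?_
    have h8 : cbf γ (A i) = 0 := by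
      by_contra hne
      exact hγ (hLS _ (hA i) γ (h5 γ (A i) hne))
    rw [h8, mul_zero]
  have hmain : ∀ γ' : VE k, wv γ' ≤ b → ∑ i, z i * cbf γ' (A i) = 0 := by
    intro γ' hγ'
    by_cases hlt : wv γ' ≤ b - 1
    · exact hlow' γ' hlt
    by_cases hΛ : γ' ∈ Λ
    swap
    · exact hout γ' hΛ
    have hwb : wv γ' = b := by omega
    obtain ⟨j₀, hj₀⟩ : ∃ j, 1 ≤ γ' j := by
      by_contra hno
      push Not at hno
      have h9 : wv γ' = 0 := Finset.sum_eq_zero fun j _ => by
        have := hno j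
        omega
      omega
    set γ : VE k := γ' - uv1 j₀ with hγdef
    have hsum : γ + uv1 j₀ = γ' := by
      funext j
      simp only [hγdef, Pi.add_apply, Pi.sub_apply, uv1]
      split_ifs with h
      · subst h
        omega
      · omega
    have hγle : γ ≤ γ' := by
      intro j
      simp only [hγdef, Pi.sub_apply]
      omega
    have hγΛ : γ ∈ Λ := hLS γ' hΛ γ hγle
    have huv : wv (uv1 j₀ : VE k) = 1 := by
      simp [wv, uv1]
    have hwγ : wv γ + 1 = b := by
      have hadd : wv (γ + uv1 j₀) = wv γ + wv (uv1 j₀ : VE k) := by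
        simp only [wv, Pi.add_apply, Finset.sum_add_distrib]
      rw [hsum, huv, hwb] at hadd
      exact hadd.symm
    set c : Fin (k + 1) → ℚ := fun j => ((γ j : ℚ) + 1) * ∑ i, z i * cbf (γ + uv1 j) (A i)
      with hcdef
    have hcJ : ∀ j, j ∉ (univ.filter fun j => γ + uv1 j ∈ Λ) → c j = 0 := by
      intro j hj
      rw [Finset.mem_filter, not_and] at hj
      rw [hcdef]
      simp only
      rw [hout _ (hj (Finset.mem_univ j)), mul_zero]
    have hcard : (LFL_P s c).support.card ≤ S.card :=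
      (LFL_support s c _ hcJ).trans (hnbr γ hγΛ hwγ)
    have hone : 1 ≤ S.card := by
      refine le_trans ?_ (hnbr γ hγΛ hwγ)
      refine Finset.card_pos.mpr ⟨j₀, ?_⟩
      rw [Finset.mem_filter, hsum]
      exact ⟨Finset.mem_univ _, hΛ⟩
    have hγ0 : ∑ i, z i * cbf γ (A i) = 0 := hlow' γ (by omega)
    have hroot : ∀ p ∈ S, (LFL_P s c).eval (1 / (p : ℚ)) = 0 := by
      intro p hp
      rw [LFL_eval, ← hrel p hp (cbf γ) (h7 (b - 1) γ (by omega))]
      have h10 : ∀ j, c j * (1 / (p : ℚ)) ^ s j =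
          ∑ i, z i * ((A i j : ℚ) * cbf γ (A i)) * (1 / (p : ℚ)) ^ s j := by
        intro j
        rw [← Finset.sum_mul]
        congr 1
        have h11 : ∑ i, z i * ((A i j : ℚ) * cbf γ (A i)) =
            ∑ i, (((γ j : ℚ) + 1) * (z i * cbf (γ + uv1 j) (A i)) +
              (γ j : ℚ) * (z i * cbf γ (A i))) := by
          refine Finset.sum_congr rfl fun i _ => ?_
          rw [h6 γ (A i) j]
          ring
        rw [h11, Finset.sum_add_distrib, ← Finset.mul_sum, ← Finset.mul_sum, hγ0, mul_zero,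
          add_zero]
      rw [Finset.sum_congr rfl fun j _ => h10 j, Finset.sum_comm]
      refine Finset.sum_congr rfl fun i _ => ?_
      rw [Lw, Finset.mul_sum, Finset.mul_sum]
      refine Finset.sum_congr rfl fun j _ => ?_
      rw [one_div, inv_pow, div_eq_mul_inv]
      ring
    have hP0 : LFL_P s c = 0 := LFL_zero h2 _ S hS hone hcard hroot
    have hc0 : c j₀ = 0 := by
      rw [← LFL_coeff s c hs j₀, hP0, Polynomial.coeff_zero]
    rw [hcdef] at hc0
    simp only at hc0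
    rw [hsum] at hc0
    rcases mul_eq_zero.mp hc0 with h12 | h12
    · have h13 : (0 : ℚ) ≤ γ j₀ := Nat.cast_nonneg _
      linarith
    · exact h12
  intro h hh
  refine Submodule.span_induction (p := fun h _ => ∑ i, z i * h (A i) = 0) ?_ ?_ ?_ ?_ hh
  · rintro _ ⟨γ, hγ, rfl⟩
    exact hmain γ hγ
  · simp
  · intro x y _ _ hx hy
    have h14 : ∑ i, z i * (x + y) (A i) = ∑ i, z i * x (A i) + ∑ i, z i * y (A i) := by
      rw [← Finset.sum_add_distrib]
      refine Finset.sum_congr rfl fun i _ => ?_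
      rw [Pi.add_apply, mul_add]
    rw [h14, hx, hy, add_zero]
  · intro a x _ hx
    have h15 : ∑ i, z i * (a • x) (A i) = a * ∑ i, z i * x (A i) := by
      rw [Finset.mul_sum]
      refine Finset.sum_congr rfl fun i _ => ?_
      rw [Pi.smul_apply, smul_eq_mul]
      ring
    rw [h15, hx, mul_zero]

end Pool.Agent.Work.MP_f1a024_nt.RL
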