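import Pool.Agent.Work.MP_f1a024_nt.RL.Stmts

/-!
# Block WL, item LRL: the first elements of a lower set numbered by weight
-/

namespace Pool.Agent.Work.MP_f1a024_nt.RL

open Finset MvPolynomial Filter
open Pool.Agent.Work.MP_f1a024_nt.RW

theorem LRL_wv_add {k : ℕ} (x y : VE k) : wv (x + y) = wv x + wv y := by
  unfold wv
  rw [← Finset.sum_add_distrib]
  rfl

theorem LRL_wv_uv1 {k : ℕ} (j : Fin (k + 1)) : wv (uv1 j) = 1 := by
  unfold wv uv1
  simp

theorem LRL_wv_mono {k : ℕ} {x y : VE k} (h : x ≤ y) : wv x ≤ wv y :=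
  Finset.sum_le_sum fun j _ => h j

theorem LRL_wv_eq {k : ℕ} {x y : VE k} (h : x ≤ y) (hw : wv y ≤ wv x) : x = y := by
  by_contra hne
  have h1 : ∃ j, x j < y j := by
    by_contra hcon
    push Not at hcon
    exact hne (le_antisymm h fun j => hcon j)
  obtain ⟨j, hj⟩ := h1
  have h2 : wv x < wv y := Finset.sum_lt_sum (fun i _ => h i) ⟨j, Finset.mem_univ _, hj⟩
  omega

theorem LRL_down {k : ℕ} (α : VE k) : ∀ t B, B + t = wv α → ∃ β ≤ α, wv β = B := by
  intro t
  induction t with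
  | zero =>
    intro B hB
    exact ⟨α, le_rfl, by omega⟩
  | succ t ih =>
    intro B hB
    obtain ⟨β, hβ, hw⟩ := ih (B + 1) (by omega)
    have h1 : ∃ j, 1 ≤ β j := by
      by_contra hcon
      push Not at hcon
      have h2 : wv β = 0 := Finset.sum_eq_zero fun j _ => by
        have := hcon j
        omega
      omega
    obtain ⟨j, hj⟩ := h1
    have h3 : (β - uv1 j) + uv1 j = β := by
      funext i
      show β i - uv1 j i + uv1 j i = β i
      unfold uv1
      split_ifs with h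
      · subst h
        omega
      · omega
    refine ⟨β - uv1 j, le_trans (fun i => Nat.sub_le _ _) hβ, ?_⟩
    have h4 := LRL_wv_add (β - uv1 j) (uv1 j)
    rw [h3, LRL_wv_uv1] at h4
    omega

theorem LRL_mem {k d : ℕ} (A : Fin (d + 1) → VE k) (r : ℕ) (γ : VE k) :
    γ ∈ Lr A r ↔ ∃ i : Fin (d + 1), (i : ℕ) ≤ r ∧ A i = γ := by
  unfold Lr
  simp only [Finset.mem_image, Finset.mem_filter, Finset.mem_univ, true_and]

theorem LRL_card {d : ℕ} (r : ℕ) (hr : r < d + 1) :
    (univ.filter fun i : Fin (d + 1) => (i : ℕ) ≤ r).card = r + 1 := by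
  have h1 : (univ.filter fun i : Fin (d + 1) => (i : ℕ) ≤ r) =
      (Finset.range (r + 1)).attach.image
        (fun x => (⟨x.1, by have := Finset.mem_range.1 x.2; omega⟩ : Fin (d + 1))) := by
    ext i
    simp only [Finset.mem_filter, Finset.mem_univ, true_and, Finset.mem_image,
      Finset.mem_attach, Subtype.exists, Finset.mem_range]
    constructor
    · intro h
      exact ⟨i.1, by omega, rfl⟩
    · rintro ⟨x, hx, rfl⟩
      show x ≤ r
      omega
  rw [h1, Finset.card_image_of_injective, Finset.card_attach, Finset.card_range]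
  intro x y hxy
  have := congrArg Fin.val hxy
  exact Subtype.ext this

theorem prfLRL : LRL := by
  intro k d A hinj hLS hmono r hr
  have hlow : LS (Lr A r) := by
    intro α hα β hβ
    rw [LRL_mem] at hα ⊢
    obtain ⟨i, hi, rfl⟩ := hα
    obtain ⟨i', -, hi'⟩ := Finset.mem_image.1
      (hLS (A i) (Finset.mem_image_of_mem A (Finset.mem_univ i)) β hβ)
    by_cases h : (i' : ℕ) ≤ r
    · exact ⟨i', h, hi'⟩
    · exfalso
      have h1 : i ≤ i' := by
        rw [Fin.le_def]
        omega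
      have h2 : wv (A i) ≤ wv (A i') := hmono h1
      rw [hi'] at h2
      have h3 := LRL_wv_eq hβ h2
      rw [← hi'] at h3
      have h4 := hinj h3
      rw [h4] at h
      exact h hi
  have hin : ∀ γ ∈ univ.image A, wv γ < wv (A ⟨r, hr⟩) → γ ∈ Lr A r := by
    intro γ hγ hw
    obtain ⟨i, -, rfl⟩ := Finset.mem_image.1 hγ
    rw [LRL_mem]
    refine ⟨i, ?_, rfl⟩
    by_contra h
    have h1 : (⟨r, hr⟩ : Fin (d + 1)) ≤ i := by
      rw [Fin.le_def]
      show r ≤ i
      omega
    have h2 : wv (A ⟨r, hr⟩) ≤ wv (A i) := hmono h1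
    omega
  have hsub : Lr A r ⊆ univ.image A := by
    intro γ hγ
    obtain ⟨i, -, rfl⟩ := (LRL_mem A r γ).1 hγ
    exact Finset.mem_image_of_mem A (Finset.mem_univ i)
  have hle : ∀ γ ∈ Lr A r, wv γ ≤ wv (A ⟨r, hr⟩) := by
    intro γ hγ
    obtain ⟨i, hi, rfl⟩ := (LRL_mem A r γ).1 hγ
    apply hmono
    rw [Fin.le_def]
    exact hi
  have hAr : A ⟨r, hr⟩ ∈ Lr A r := (LRL_mem A r _).2 ⟨⟨r, hr⟩, le_rfl, rfl⟩
  have hne : ∀ B ≤ wv (A ⟨r, hr⟩), (lv (Lr A r) B).Nonempty := by
    intro B hB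
    obtain ⟨β, hβ, hw⟩ := LRL_down (A ⟨r, hr⟩) (wv (A ⟨r, hr⟩) - B) B (by omega)
    exact ⟨β, Finset.mem_filter.2 ⟨hlow _ hAr β hβ, hw⟩⟩
  refine ⟨hlow, ?_, ?_, hne⟩
  · intro B n a hB1 hB h
    rcases h with ⟨ha, h⟩ | ⟨hn, h⟩
    · left
      refine ⟨ha, fun γ hγ hw => ?_⟩
      have h1 := h γ (hin γ hγ (by omega)) hw
      have h2 : nbr (univ.image A) γ = nbr (Lr A r) γ := by
        unfold nbr
        congr 1
        refine Finset.filter_congr fun j _ => ?_
        constructor
        · intro h3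
          refine hin _ h3 ?_
          rw [LRL_wv_add, LRL_wv_uv1]
          omega
        · intro h3
          exact hsub h3
      rw [h2]
      exact h1
    · right
      refine ⟨hn, ?_⟩
      have h2 : lv (univ.image A) B = lv (Lr A r) B := by
        ext γ
        unfold lv
        rw [Finset.mem_filter, Finset.mem_filter]
        constructor
        · rintro ⟨h3, h4⟩
          exact ⟨hin γ h3 (by omega), h4⟩
        · rintro ⟨h3, h4⟩
          exact ⟨hsub h3, h4⟩
      rw [h2]
      exact h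
  · have h1 : (Lr A r).card = r + 1 := by
      unfold Lr
      rw [Finset.card_image_of_injective _ hinj, LRL_card r hr]
    have h2 : (Lr A r).card = ∑ B ∈ Finset.range (wv (A ⟨r, hr⟩) + 1), (lv (Lr A r) B).card :=
      Finset.card_eq_sum_card_fiberwise fun γ hγ => by
        have := hle γ hγ
        exact Finset.mem_coe.2 (Finset.mem_range.2 (by omega))
    have h3 : (lv (Lr A r) 0).card = 1 := by
      rw [Finset.card_eq_one]
      obtain ⟨β, hβ⟩ := hne 0 (Nat.zero_le _)
      refine ⟨β, Finset.eq_singleton_iff_unique_mem.2 ⟨hβ, fun γ hγ => ?_⟩⟩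
      have h4 : ∀ δ ∈ lv (Lr A r) 0, δ = 0 := by
        intro δ hδ
        have h5 : wv δ = 0 := (Finset.mem_filter.1 hδ).2
        funext j
        exact (Finset.sum_eq_zero_iff.1 h5) j (Finset.mem_univ j)
      rw [h4 γ hγ, h4 β hβ]
    rw [Finset.sum_range_succ'] at h2
    have h6 : ∑ B ∈ Icc 1 (wv (A ⟨r, hr⟩)), (lv (Lr A r) B).card =
        ∑ B ∈ Finset.range (wv (A ⟨r, hr⟩)), (lv (Lr A r) (B + 1)).card := by
      rw [Finset.range_eq_Ico, Finset.sum_Ico_add' (fun B => (lv (Lr A r) B).card) 0 _ 1]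
      congr 1
    rw [h6]
    omega

end Pool.Agent.Work.MP_f1a024_nt.RL
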