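import Pool.Agent.Work.MP_f1a024_nt.RL.Stmts

/-!
# Block WL, item LSL (helper55): the last level
-/

namespace Pool.Agent.Work.MP_f1a024_nt.RL

open Finset MvPolynomial Filter
open Pool.Agent.Work.MP_f1a024_nt.AH (tau PG val D1 D2 D4 D10a D10b)
open Pool.Agent.Work.MP_f1a024_nt.RW

theorem LSL_prod (x : ℕ → ℕ) (b j p : ℕ) (hx : ∀ B, 1 ≤ B → B ≤ b → p ≤ x B) :
    ∀ c, j + c ≤ b → p ^ c * ∏ B ∈ Icc 1 j, x B ≤ ∏ B ∈ Icc 1 (j + c), x B := by
  intro c
  induction c with
  | zero => intro _; simp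
  | succ c ih =>
    intro hc
    have h1 := ih (by omega)
    have h2 := hx (j + c + 1) (by omega) (by omega)
    rw [← add_assoc, Finset.prod_Icc_succ_top (by omega), pow_succ]
    calc p ^ c * p * ∏ B ∈ Icc 1 j, x B = (p ^ c * ∏ B ∈ Icc 1 j, x B) * p := by ring
      _ ≤ (∏ B ∈ Icc 1 (j + c), x B) * x (j + c + 1) := Nat.mul_le_mul h1 h2

theorem LSL_size (x : ℕ → ℕ) (b j c p : ℕ) (hp : 1 ≤ p) (hjb : j ≤ b) (hc : j + c ≤ b)
    (hx : ∀ B, 1 ≤ B → B ≤ b → p ≤ x B) :
    p ^ c * ∏ B ∈ Icc 1 j, x B ≤ ∏ B ∈ Icc 1 b, x B := by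
  have h1 := LSL_prod x b j p hx (b - j) (by omega)
  rw [Nat.add_sub_cancel' hjb] at h1
  exact (Nat.mul_le_mul_right _ (Nat.pow_le_pow_right hp (by omega))).trans h1

theorem LSL_km {d : ℕ} (u : Fin (d + 1) → Rg) (κ : Ex) (hKM : KM u κ) (p : Nat.Primes)
    (i : Fin (d + 1)) (y : Ex) (hy : y ∈ (u i).support)
    (h : ∀ q, q ≠ p → y q ≤ κ q + (0 : Ex) q) : κ p ≤ y p := by
  by_contra hlt
  push Not at hlt
  have hne : y ≠ κ := by
    intro h'
    rw [h'] at hlt
    exact lt_irrefl _ hlt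
  obtain ⟨π, h1, -⟩ := hKM i y hy hne
  have h2 : π ≠ p := by
    intro h'
    rw [h'] at h1
    exact lt_irrefl _ (h1.trans hlt)
  have h3 := h π h2
  rw [Finsupp.zero_apply, Nat.add_zero] at h3
  omega

theorem prfLSL (hNB : NB) (_hUB : UB) (h1 : AKL) (h2 : STL) (h3 : EBL) (h4 : MUL) : LSL := by
  intro hD k d s A u κ n a x S k₃ b hs hA hLS hKM hb1 hB hx hpp huv hsize
  obtain ⟨hn0, -, hnpos, -, -, -, -, -, hns, -, -⟩ := hNB
  -- the coefficients
  have hz : ∀ i, AK (fW s A) u i (κ + 0) = (u i).coeff κ := by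
    intro i
    rw [h1 d (fW s A) u κ 0 hKM (fun π hπ => by simp at hπ) i, hn0, (h4 hD k d s A i).map_one,
      mul_one]
  -- all `x B` are at least the primes of the last level
  have hxp : ∀ p ∈ S b, ∀ B, 1 ≤ B → B ≤ b → (p : ℕ) ≤ x B := by
    intro p hp B hB1 hBb
    exact ((hB b hb1 le_rfl).2.2.2.2.2 p hp).2.trans (hx B b hB1 hBb le_rfl)
  have hne : (S b).Nonempty := by
    rw [← card_pos, (hB b hb1 le_rfl).2.2.2.2.1]
    exact (hB b hb1 le_rfl).2.2.1
  -- the induction below the last level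
  have key : ∀ p ∈ S b, ∀ j c, j < b → j + c ≤ b → ∀ h ∈ PF k j,
      ∑ i, h (A i) * AK (fW s A) u i (κ + Finsupp.single p c) = 0 := by
    intro p hp j c hj hjc h hh
    refine h3 hD k d s A u κ n a x S k₃ j hs hA hLS hKM
      (fun B hB1 hBj => ?_) (fun B B' h1 h2 h3 => hx B B' h1 h2 (by omega))
      (fun B B' h1 h2 h3 => hpp B B' h1 h2 (by omega)) huv (Finsupp.single p c) ?_ ?_ h hh
    · obtain ⟨e1, e2, e3, e4, e5, e6⟩ := hB B hB1 (by omega)
      exact ⟨e1, e2, e3, e4 (by omega), e5, e6⟩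
    · intro B hB1 hBj p' hp' π hπ hπ'
      have e : π = p := by
        have := Finsupp.support_single_subset hπ
        simpa using this
      rw [e] at hπ' ⊢
      exact hpp B b hB1 (by omega) le_rfl p' hp' p hp hπ'
    · rw [hns]
      have e := LSL_size x b j c (p : ℕ) p.2.one_lt.le hj.le hjc (hxp p hp)
      calc nn κ * (p : ℕ) ^ c * ∏ B ∈ Icc 1 j, x B
          = nn κ * ((p : ℕ) ^ c * ∏ B ∈ Icc 1 j, x B) := by ring
        _ ≤ nn κ * ∏ B ∈ Icc 1 b, x B := Nat.mul_le_mul_left _ e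
        _ < k₃ := hsize
  obtain ⟨hb2, hb3, -, -, -, hb4⟩ := hB b hb1 le_rfl
  intro t ht
  unfold TL at ht
  induction ht using Submodule.span_induction with
  | mem t ht =>
    rcases ht with ⟨h, hh, rfl⟩ | ⟨p', hp', g, hg, rfl⟩
    · obtain ⟨p, hp⟩ := hne
      have e := key p hp (b - 1) 0 (by omega) (by omega) h hh
      rw [Finsupp.single_zero] at e
      rw [← e]
      refine sum_congr rfl fun i _ => ?_
      rw [hz]
      ring
    · rw [mem_image] at hp'
      obtain ⟨p, hp, rfl⟩ := hp'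
      have e := h2 hD k d s A u κ 0 p b 0 (a b) rfl (hb4 p hp).1 hb3
        (fun i y hy hq => LSL_km u κ hKM p i y hy hq)
        (fun j c hj hjc h hh => by
          rw [add_zero]
          exact key p hp j c hj (by omega) h hh)
        (fun c hc => absurd hc (Nat.not_lt_zero c)) g hg
      rw [Finsupp.single_zero, add_zero] at e
      rw [← e]
      refine sum_congr rfl fun i _ => ?_
      rw [hz]
      ring
  | zero => simp
  | add t t' _ _ h h' =>
    simp only [Pi.add_apply, mul_add, sum_add_distrib]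
    rw [h, h', add_zero]
  | smul c t _ h =>
    simp only [Pi.smul_apply, smul_eq_mul]
    have e : ∑ i, (u i).coeff κ * (c * t i) = c * ∑ i, (u i).coeff κ * t i := by
      rw [mul_sum]
      exact sum_congr rfl fun i _ => by ring
    rw [e, h, mul_zero]

end Pool.Agent.Work.MP_f1a024_nt.RL
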