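import Pool.Agent.Work.MP_f1a024_nt.RL.Stmts

/-!
# Block WL: item LTL (one prime kills a level)
-/

namespace Pool.Agent.Work.MP_f1a024_nt.RL

open Finset MvPolynomial Filter
open Pool.Agent.Work.MP_f1a024_nt.RW

/-- orthogonality to the functions `cbf γ` gives orthogonality to `PF`. -/
theorem LTL_span {k n : ℕ} {ι : Type} (s : Finset ι) (A : ι → VE k) (z : ι → ℚ)
    (h0 : ∀ γ : VE k, wv γ ≤ n → ∑ i ∈ s, z i * cbf γ (A i) = 0) :
    ∀ h ∈ PF k n, ∑ i ∈ s, z i * h (A i) = 0 := by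
  intro h hh
  unfold PF at hh
  induction hh using Submodule.span_induction with
  | mem x hx =>
    obtain ⟨γ, hγ, rfl⟩ := hx
    exact h0 γ hγ
  | zero => simp
  | add x y _ _ hx hy =>
    simp only [Pi.add_apply, mul_add, Finset.sum_add_distrib, hx, hy, add_zero]
  | smul c x _ hx =>
    have h1 : ∀ i, z i * (c • x) (A i) = c * (z i * x (A i)) := by
      intro i
      rw [Pi.smul_apply, smul_eq_mul]
      ring
    simp only [h1, ← Finset.mul_sum, hx, mul_zero]

/-- multiplication by a linear form. -/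
theorem LTL_lin (h1 : PFL) {k : ℕ} (V : Fin (k + 1) → ℚ) {n : ℕ} {h : VE k → ℚ}
    (hh : h ∈ PF k n) : (fun α : VE k => h α * ∑ j, V j * (α j : ℚ)) ∈ PF k (n + 1) := by
  have h2 : (fun α : VE k => h α * ∑ j, V j * (α j : ℚ)) =
      ∑ j, V j • (fun α : VE k => (α j : ℚ) * h α) := by
    funext α
    rw [Finset.sum_apply, Finset.mul_sum]
    refine Finset.sum_congr rfl fun j _ => ?_
    rw [Pi.smul_apply, smul_eq_mul]
    ring
  rw [h2]
  exact Submodule.sum_mem _ fun j _ => Submodule.smul_mem _ _ ((h1 k).2.1 n h hh j)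

theorem LTL_pow (h1 : PFL) {k : ℕ} (V : Fin (k + 1) → ℚ) (δ : VE k) (m : ℕ) :
    (fun α : VE k => cbf δ α * (∑ j, V j * (α j : ℚ)) ^ m) ∈ PF k (wv δ + m) := by
  induction m with
  | zero =>
    simp only [pow_zero, mul_one, add_zero]
    exact (h1 k).2.2.2.2.2.2.2.2 (wv δ) δ le_rfl
  | succ m ih =>
    have h2 := LTL_lin h1 V ih
    have h3 : (fun α : VE k => cbf δ α * (∑ j, V j * (α j : ℚ)) ^ (m + 1)) =
        fun α : VE k => (cbf δ α * (∑ j, V j * (α j : ℚ)) ^ m) * ∑ j, V j * (α j : ℚ) := by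
      funext α
      rw [pow_succ, mul_assoc]
    rw [h3, ← add_assoc]
    exact h2

/-- Item LTL. -/
theorem prfLTL (h1 : PFL) (h2 : EXL) : LTL := by
  intro k ι _ A Λ z b a V hΛ hA ha hab hV hSep hlow hL
  have hle := (h1 k).2.2.2.2.1
  have hmem := (h1 k).2.2.2.2.2.2.2.2
  have hb : 1 ≤ b := ha.trans hab
  set ξ : VE k → ℚ := fun γ => ∑ i, z i * cbf γ (A i) with hξ
  -- lower degrees
  have hA1 : ∀ γ : VE k, wv γ < b → ξ γ = 0 := by
    intro γ hγ
    exact hlow (cbf γ) (hmem (b - 1) γ (by omega))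
  -- outside
  have hB1 : ∀ γ : VE k, γ ∉ Λ → ξ γ = 0 := by
    intro γ hγ
    refine Finset.sum_eq_zero fun i _ => ?_
    have h3 : cbf γ (A i) = 0 := by
      by_contra hc
      exact hγ (hΛ (A i) (hA i) γ (hle γ (A i) hc))
    rw [h3, mul_zero]
  set η : VE k → ℚ := fun γ => (∏ j, V j ^ γ j) * ξ γ with hη
  have hC1 : ∀ δ : VE k, wv δ ≤ b - a → ∑ γ ∈ lv Λ b, η γ * cbf δ γ = 0 := by
    intro δ hδ
    obtain ⟨n, hn⟩ : ∃ n, wv δ + n = b := ⟨b - wv δ, by omega⟩
    have hna : a ≤ n := by omega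
    have e1 : ∑ i, z i * (cbf δ (A i) * (∑ j, V j * (A i j : ℚ)) ^ n) = 0 := by
      have h3 := LTL_pow h1 V δ (n - a)
      have h4 : wv δ + (n - a) = b - a := by omega
      rw [h4] at h3
      have h5 := hL _ h3
      rw [← h5]
      refine Finset.sum_congr rfl fun i _ => ?_
      have h6 : (∑ j, V j * (A i j : ℚ)) ^ n =
          (∑ j, V j * (A i j : ℚ)) ^ (n - a) * (∑ j, V j * (A i j : ℚ)) ^ a := by
        rw [← pow_add]
        congr 1
        omega
      rw [h6]
      ring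
    have h3 := h2 k V δ n (ha.trans hna)
    rw [hn] at h3
    have h4 := hlow _ h3
    simp only [mul_sub, Finset.sum_sub_distrib] at h4
    rw [e1, zero_sub, neg_eq_zero] at h4
    have h5 : ∑ i, z i * ((n.factorial : ℚ) * ∑ γ ∈ Finset.piAntidiag univ b,
        cbf δ γ * (∏ j, V j ^ (γ j - δ j)) * cbf γ (A i)) =
        (n.factorial : ℚ) * ∑ γ ∈ Finset.piAntidiag univ b,
          cbf δ γ * (∏ j, V j ^ (γ j - δ j)) * ξ γ := by
      have h6 : ∀ i, z i * ((n.factorial : ℚ) * ∑ γ ∈ Finset.piAntidiag univ b,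
          cbf δ γ * (∏ j, V j ^ (γ j - δ j)) * cbf γ (A i)) =
          (n.factorial : ℚ) * ∑ γ ∈ Finset.piAntidiag univ b,
            cbf δ γ * (∏ j, V j ^ (γ j - δ j)) * (z i * cbf γ (A i)) := by
        intro i
        rw [mul_left_comm, Finset.mul_sum]
        congr 1
        refine Finset.sum_congr rfl fun γ _ => ?_
        ring
      simp only [h6]
      rw [← Finset.mul_sum, Finset.sum_comm]
      congr 1
      refine Finset.sum_congr rfl fun γ _ => ?_
      rw [← Finset.mul_sum]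
    rw [h5] at h4
    have h7 := (mul_eq_zero.1 h4).resolve_left (Nat.cast_ne_zero.2 (Nat.factorial_ne_zero n))
    have h8 : ∑ γ ∈ Finset.piAntidiag univ b, η γ * cbf δ γ = 0 := by
      have h9 : ∀ γ ∈ Finset.piAntidiag univ b, η γ * cbf δ γ =
          (∏ j, V j ^ δ j) * (cbf δ γ * (∏ j, V j ^ (γ j - δ j)) * ξ γ) := by
        intro γ _
        by_cases hc : cbf δ γ = 0
        · rw [hc]
          ring
        · have h10 := hle δ γ hc
          have h11 : ∏ j, V j ^ γ j = (∏ j, V j ^ δ j) * ∏ j, V j ^ (γ j - δ j) := by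
            rw [← Finset.prod_mul_distrib]
            refine Finset.prod_congr rfl fun j _ => ?_
            rw [← pow_add, Nat.add_sub_cancel' (h10 j)]
          simp only [hη]
          rw [h11]
          ring
      rw [Finset.sum_congr rfl h9, ← Finset.mul_sum, h7, mul_zero]
    rw [← h8]
    refine Finset.sum_subset ?_ ?_
    · intro γ hγ
      rw [Finset.mem_piAntidiag]
      exact ⟨(Finset.mem_filter.1 hγ).2, fun i _ => Finset.mem_univ i⟩
    · intro γ hγ hγ'
      have h12 : γ ∉ Λ := fun h13 => hγ' (Finset.mem_filter.2 ⟨h13, (Finset.mem_piAntidiag.1 hγ).1⟩)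
      simp only [hη]
      rw [hB1 γ h12]
      ring
  have hD1 : ∀ h ∈ PF k (b - a), ∑ γ ∈ lv Λ b, η γ * h γ = 0 :=
    LTL_span (lv Λ b) id η hC1
  have hE1 : ∀ γ ∈ lv Λ b, ξ γ = 0 := by
    intro γ hγ
    obtain ⟨h, hh, hne, h0⟩ := hSep γ hγ
    have h3 := hD1 h hh
    rw [Finset.sum_eq_single_of_mem γ hγ (fun γ' hγ' hne' => by rw [h0 γ' hγ' hne', mul_zero])] at h3
    have h4 := (mul_eq_zero.1 h3).resolve_right hne
    exact (mul_eq_zero.1 h4).resolve_left
      (Finset.prod_ne_zero_iff.2 fun j _ => pow_ne_zero _ (hV j))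
  refine LTL_span univ A z fun γ hγ => ?_
  rcases hγ.lt_or_eq with h3 | h3
  · exact hA1 γ h3
  · by_cases h4 : γ ∈ Λ
    · exact hE1 γ (Finset.mem_filter.2 ⟨h4, h3⟩)
    · exact hB1 γ h4

end Pool.Agent.Work.MP_f1a024_nt.RL
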