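import Pool.Agent.Work.MP_f1a024_nt.RL.Stmts

/-!
# Block WL, item MTL: THEOREM WL (adapted from MTS)
-/

set_option autoImplicit false

namespace Pool.Agent.Work.MP_f1a024_nt.RL

open Finset MvPolynomial Filter
open Pool.Agent.Work.MP_f1a024_nt.RW
open Pool.Agent.Work.MP_f1a024_nt.AH (tau PG val D1 D2 D4 D10a D10b)

/-- item MTL -/
theorem prfMTL (hD1 : D1) (hD2 : D2) (hD10a : D10a) (hD10b : D10b) (h1 : ORL) (h2 : ZFL)
    (h3 : SUL) (h4 : VLL) (h5 : POL) (h6 : MRF) : MTL := by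
  intro k s Λ B ε hs hΛ hε
  rcases Λ.eq_empty_or_nonempty with hemp | hne
  · subst hemp
    refine ⟨0, fun n _ P H hP hsup => ?_⟩
    exact absurd (MvPolynomial.support_eq_empty.1 (Finset.subset_empty.1 hsup)) hP
  obtain ⟨A, hA, hLS, hmono, hmem⟩ := h1 k Λ hne hΛ
  obtain ⟨Q, T, hT, hZ⟩ := h2 hD10b k (Λ.card - 1) s A hs hA hLS hmono
  obtain ⟨T', hT', hZ'⟩ := h3 (Λ.card - 1) (fW s A) (Finset (Fin Q)) T _ hT hZ
  obtain ⟨hPG, M₂, hM₂⟩ := h4 hD1 hD2 hD10a k (Λ.card - 1) s A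
  obtain ⟨M₁, hM₁⟩ := h6 (Λ.card - 1) (fW s A) (Finset (Fin Q)) T' (fun r => 2 ^ r) hPG hT' hZ'
    B ε hε
  refine ⟨max M₁ M₂, fun n hn P H hP hsup hco hH1 hH2 => ?_⟩
  have hn1 : M₁ ≤ n := le_trans (le_max_left _ _) hn
  have hn2 : M₂ ≤ n := le_trans (le_max_right _ _) hn
  obtain ⟨hx, hsum⟩ := h5 k (Λ.card - 1) Λ A hA hmem P hsup
  have h8 := hM₁ n hn1
    (fun i => P.coeff (Finsupp.equivFunOnFinite.symm (A i))) H (hx hP)
    (fun i => hco _) (fun r _ => by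
      calc ((2 : ℝ) ^ r) ^ n = ((2 : ℝ) ^ n) ^ r := by rw [← pow_mul, ← pow_mul, mul_comm]
        _ ≤ H ^ r := pow_le_pow_left₀ (by positivity) hH1 r) hH2
  refine le_trans h8 (le_of_eq ?_)
  rw [hsum]
  have h9 : ∑ i, ((P.coeff (Finsupp.equivFunOnFinite.symm (A i)) : ℤ) : ℂ) *
      ∏ j, (riemannZeta (2 * ((n + s j : ℕ) : ℂ)) / riemannZeta ((n + s j : ℕ) : ℂ) ^ 2) ^
        (A i j) =
      ((∑ i, ((P.coeff (Finsupp.equivFunOnFinite.symm (A i)) : ℤ) : ℝ) *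
        val (fW s A i) n : ℝ) : ℂ) := by
    push_cast
    refine Finset.sum_congr rfl fun i _ => ?_
    rw [hM₂ n hn2 i]
    push_cast
    rfl
  rw [h9, Complex.norm_real, Real.norm_eq_abs]

end Pool.Agent.Work.MP_f1a024_nt.RL
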