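import Pool.Agent.Work.MP_f1a024_nt.RL.Stmts

/-!
# Block WL, item MUL: the products `fW` are multiplicative
-/

namespace Pool.Agent.Work.MP_f1a024_nt.RL

open Finset MvPolynomial Filter
open Pool.Agent.Work.MP_f1a024_nt.AH (tau PG val D1 D2 D4 D10a D10b)
open Pool.Agent.Work.MP_f1a024_nt.RW

theorem MUL_prod {α : Type} (S : Finset α) (g : α → ArithmeticFunction ℚ)
    (hg : ∀ j ∈ S, (g j).IsMultiplicative) : (∏ j ∈ S, g j).IsMultiplicative := by
  classical
  induction S using Finset.induction_on with
  | empty =>
    rw [Finset.prod_empty]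
    exact ArithmeticFunction.isMultiplicative_one
  | insert j S hj ih =>
    rw [Finset.prod_insert hj]
    exact (hg j (Finset.mem_insert_self j S)).mul
      (ih fun l hl => hg l (Finset.mem_insert_of_mem hl))

theorem prfMUL (h : MUK) : MUL := by
  intro hD k d s A i
  exact MUL_prod _ _ fun j _ => h hD (s j) (A i j)

end Pool.Agent.Work.MP_f1a024_nt.RL
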