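import Pool.Agent.Work.MP_f1a024_nt.RL.Stmts

/-!
# Block WL, item ODL: the differential equation of a product of local factors
-/

set_option autoImplicit false

namespace Pool.Agent.Work.MP_f1a024_nt.RL

open Finset MvPolynomial Filter
open Pool.Agent.Work.MP_f1a024_nt.AH (tau PG val D1 D2 D4 D10a D10b)
open Pool.Agent.Work.MP_f1a024_nt.RW

/-- The ring homomorphism for one prime. -/
theorem ODL_hom (h : PSJ) (p : ℕ) (hp : p.Prime) :
    ∃ Ψ : ArithmeticFunction ℚ →+* PowerSeries ℚ, ∀ f n,
      PowerSeries.coeff n (Ψ f) = f (p ^ n) := by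
  obtain ⟨Ψ, hΨ⟩ := h 0 (fun _ => p) (fun _ => 1)
    (fun a b _ => Fin.ext (by have := a.isLt; have := b.isLt; omega)) (fun _ => hp)
  refine ⟨Ψ, fun f n => ?_⟩
  rw [hΨ, Finset.sum_eq_single (fun _ => n)]
  · simp
  · intro e he hne
    exfalso
    rw [Finset.mem_piAntidiag] at he
    apply hne
    funext j
    have h1 := he.1
    rw [Fin.sum_univ_one] at h1
    have h2 : j = 0 := Fin.ext (by have := j.isLt; simp)
    rw [← h1, h2]
  · intro hn
    exfalso
    apply hn
    rw [Finset.mem_piAntidiag]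
    simp

/-- The product rule. -/
theorem ODL_prod {ι : Type} [DecidableEq ι] (S : Finset ι) (D φ M : ι → PowerSeries ℚ)
    (h : ∀ j, D j * PowerSeries.derivative ℚ (φ j) = -(M j * φ j)) :
    (∏ j ∈ S, D j) * PowerSeries.derivative ℚ (∏ j ∈ S, φ j) =
      -((∑ j ∈ S, M j * ∏ i ∈ S.erase j, D i) * ∏ j ∈ S, φ j) := by
  induction S using Finset.induction_on with
  | empty => simp
  | insert a S ha ih =>
    rw [Finset.prod_insert ha, Finset.prod_insert ha, Finset.sum_insert ha,
      Finset.erase_insert ha, Derivation.leibniz]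
    have e1 : ∑ j ∈ S, M j * ∏ i ∈ (insert a S).erase j, D i =
        D a * ∑ j ∈ S, M j * ∏ i ∈ S.erase j, D i := by
      rw [Finset.mul_sum]
      apply Finset.sum_congr rfl
      intro j hj
      have hja : a ≠ j := by
        rintro rfl
        exact ha hj
      rw [Finset.erase_insert_of_ne hja, Finset.prod_insert (fun h' => ha (Finset.mem_of_mem_erase h'))]
      ring
    rw [e1]
    simp only [smul_eq_mul]
    linear_combination (D a * φ a) * ih + ((∏ j ∈ S, D j) * ∏ j ∈ S, φ j) * h a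

/-- ODL: the differential equation of the products. -/
theorem prfODL (h1 : PSJ) (h2 : ODK) : ODL := by
  intro k s p hp
  obtain ⟨Ψ, hΨ⟩ := ODL_hom h1 p hp
  have hmk : ∀ f : ArithmeticFunction ℚ, (PowerSeries.mk fun c => f (p ^ c)) = Ψ f := by
    intro f
    ext n
    rw [PowerSeries.coeff_mk, hΨ]
  let D : Fin (k + 1) → PowerSeries ℚ := fun j =>
    1 - PowerSeries.C (((((p : ℚ) ^ s j)⁻¹) : ℚ) ^ 2) * PowerSeries.X ^ 2
  have hD : ∀ j, PowerSeries.constantCoeff (D j) = 1 := by
    intro j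
    simp [D]
  refine ⟨∏ j, D j, fun j => PowerSeries.C (2 * ((p : ℚ) ^ s j)⁻¹) * ∏ i ∈ univ.erase j, D i,
    ?_, ?_, ?_⟩
  · rw [map_prod]
    exact Finset.prod_eq_one fun j _ => hD j
  · intro j
    rw [map_mul, map_prod, Finset.prod_eq_one fun i _ => hD i, mul_one,
      PowerSeries.constantCoeff_C]
  · intro α
    rw [hmk, map_prod]
    have h3 := ODL_prod univ D (fun j => Ψ (ft (s j) ^ α j))
      (fun j => PowerSeries.C (2 * (α j : ℚ) * ((p : ℚ) ^ s j)⁻¹)) (fun j => by
        have h4 := h2 (s j) (α j) p hp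
        rw [hmk] at h4
        exact h4)
    rw [h3]
    congr 2
    apply Finset.sum_congr rfl
    intro j _
    rw [← mul_assoc, ← map_mul]
    congr 2
    ring

end Pool.Agent.Work.MP_f1a024_nt.RL
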