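import Pool.Agent.Work.MP_f1a024_nt.RL.Stmts

/-!
# Block WL, item OPL (helper91): both parameters are optimal, every finite set of exponents
(after RW/OPS.lean of helper87)
-/

set_option autoImplicit false

namespace Pool.Agent.Work.MP_f1a024_nt.RL

open Finset MvPolynomial Filter
open Pool.Agent.Work.MP_f1a024_nt.AH (tau PG val D1 D2 D4 D10a D10b)
open Pool.Agent.Work.MP_f1a024_nt.RW

lemma OPL_poly {k : ℕ} (Λ : Finset (Fin (k + 1) →₀ ℕ)) (x : {I // I ∈ Λ} → ℤ) (hx : x ≠ 0)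
    (H : ℝ) (hH : 0 ≤ H) (hb : ∀ I, |(x I : ℝ)| ≤ H) :
    ∃ P : MvPolynomial (Fin (k + 1)) ℤ, P ≠ 0 ∧
      P.support ⊆ Λ ∧ (∀ I, |((P.coeff I : ℤ) : ℝ)| ≤ H) ∧
      ∀ T : Fin (k + 1) → ℂ, MvPolynomial.aeval T P = ∑ I, (x I : ℂ) * ∏ j, T j ^ (I.1 j) := by
  classical
  set P : MvPolynomial (Fin (k + 1)) ℤ := ∑ I : {I // I ∈ Λ}, monomial I.1 (x I) with hP
  have hc : ∀ m, P.coeff m = ∑ I : {I // I ∈ Λ}, if I.1 = m then x I else 0 := by
    intro m
    rw [hP, MvPolynomial.coeff_sum]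
    simp only [MvPolynomial.coeff_monomial]
  have hcE : ∀ I : {I // I ∈ Λ}, P.coeff I.1 = x I := by
    intro I
    rw [hc, Finset.sum_eq_single I]
    · simp
    · intro J _ hJ
      rw [if_neg (fun h => hJ (Subtype.ext h))]
    · intro h
      exact absurd (Finset.mem_univ I) h
  have hc0 : ∀ m, m ∉ Λ → P.coeff m = 0 := by
    intro m hm
    rw [hc, Finset.sum_eq_zero]
    intro I _
    rw [if_neg (fun h : I.1 = m => hm (by rw [← h]; exact I.2))]
  refine ⟨P, ?_, ?_, ?_, ?_⟩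
  · intro h0
    apply hx
    funext I
    rw [← hcE I, h0, MvPolynomial.coeff_zero]
    rfl
  · intro m hm
    by_contra hc'
    rw [MvPolynomial.mem_support_iff] at hm
    exact hm (hc0 m hc')
  · intro m
    by_cases hm : m ∈ Λ
    · have := hcE ⟨m, hm⟩
      rw [this]
      exact hb _
    · rw [hc0 m hm]
      simpa using hH
  · intro T
    rw [hP, map_sum]
    apply Finset.sum_congr rfl
    intro I _
    rw [MvPolynomial.aeval_monomial, Finsupp.prod_fintype _ _ (fun _ => pow_zero _)]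
    rfl

lemma OPL_real {k : ℕ} (Λ : Finset (Fin (k + 1) →₀ ℕ)) (x : {I // I ∈ Λ} → ℤ)
    (t : Fin (k + 1) → ℝ) :
    ‖∑ I, (x I : ℂ) * ∏ j, ((t j : ℝ) : ℂ) ^ (I.1 j)‖ =
      |∑ I, (x I : ℝ) * ∏ j, t j ^ (I.1 j)| := by
  have : ∑ I, (x I : ℂ) * ∏ j, ((t j : ℝ) : ℂ) ^ (I.1 j) =
      ((∑ I, (x I : ℝ) * ∏ j, t j ^ (I.1 j) : ℝ) : ℂ) := by
    push_cast
    rfl
  rw [this, Complex.norm_real, Real.norm_eq_abs]

theorem prfOPL (h1 : SIG) (h2 : NRS) : OPL := by
  classical
  intro hD4 hD10a hD10b k s Λ hΛ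
  -- a bound for the weights
  set D := Λ.sup (fun I => ∑ j, I j) with hD
  have hwt : ∀ I ∈ Λ, ∑ j, I j ≤ D := fun I hI => Finset.le_sup (f := fun I => ∑ j, I j) hI
  obtain ⟨C, M, hC, hM⟩ := h2 hD4 hD10a hD10b k D s
  set N := Λ.card with hN
  have hcard : Fintype.card {I // I ∈ Λ} = N := Fintype.card_coe Λ
  have hNr : (2 : ℝ) ≤ N := by exact_mod_cast hΛ
  obtain ⟨I₀', hI₀, I₁', hI₁, hne'⟩ := Finset.one_lt_card.1 hΛ
  let I₀ : {I // I ∈ Λ} := ⟨I₀', hI₀⟩
  let I₁ : {I // I ∈ Λ} := ⟨I₁', hI₁⟩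
  have hne : I₁ ≠ I₀ := fun h => hne' (congrArg Subtype.val h).symm
  refine ⟨4 * N * (1 + C) * (N : ℝ) ^ N, M, fun n hn H hH => ?_⟩
  obtain ⟨t, ht, hm0⟩ := hM n hn
  have hm : ∀ I : {I // I ∈ Λ}, |∏ j, t j ^ (I.1 j) - 1| ≤ C * (1 / 2 : ℝ) ^ n := by
    intro I
    have hle : ∀ j, I.1 j < D + 1 := fun j => Nat.lt_succ_of_le
      ((Finset.single_le_sum (f := fun j => I.1 j) (fun _ _ => Nat.zero_le _)
        (Finset.mem_univ j)).trans (hwt I.1 I.2))
    exact hm0 ⟨fun j => ⟨I.1 j, hle j⟩, hwt I.1 I.2⟩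
  have hd : ∀ I : {I // I ∈ Λ}, |∏ j, t j ^ (I.1 j) - ∏ j, t j ^ (I₀.1 j)| ≤
      2 * C * (1 / 2 : ℝ) ^ n := by
    intro I
    have h3 := abs_sub (∏ j, t j ^ (I.1 j) - 1) (∏ j, t j ^ (I₀.1 j) - 1)
    have h4 : (∏ j, t j ^ (I.1 j) - 1) - (∏ j, t j ^ (I₀.1 j) - 1) =
        ∏ j, t j ^ (I.1 j) - ∏ j, t j ^ (I₀.1 j) := by ring
    rw [h4] at h3
    have h5 := hm I
    have h6 := hm I₀
    linarith
  have hT : (fun j => riemannZeta (2 * ((n + s j : ℕ) : ℂ)) /
      riemannZeta ((n + s j : ℕ) : ℂ) ^ 2) = fun j => ((t j : ℝ) : ℂ) := by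
    funext j
    exact (ht j).symm
  rw [hT]
  have hH0 : 0 < H := by linarith
  have hhalf : (0 : ℝ) < (1 / 2 : ℝ) ^ n := by positivity
  have hhalf1 : (1 / 2 : ℝ) ^ n ≤ 1 := pow_le_one₀ (by norm_num) (by norm_num)
  have hNN : (1 : ℝ) ≤ (N : ℝ) ^ N := one_le_pow₀ (by linarith)
  -- it is enough to find the coefficients
  suffices hx : ∃ x : {I // I ∈ Λ} → ℤ, x ≠ 0 ∧ (∀ I, |(x I : ℝ)| ≤ H) ∧
      |∑ I, (x I : ℝ) * ∏ j, t j ^ (I.1 j)| ≤
        4 * N * (1 + C) * (N : ℝ) ^ N * (H ^ (N - 1))⁻¹ * min 1 (H / 2 ^ n) by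
    obtain ⟨x, hx0, hxb, hxs⟩ := hx
    obtain ⟨P, hP0, hPd, hPc, hPe⟩ := OPL_poly Λ x hx0 H hH0.le hxb
    refine ⟨P, hP0, hPd, hPc, ?_⟩
    rw [hPe, OPL_real]
    exact hxs
  by_cases hcase : (2 : ℝ) ^ n ≤ H
  · -- large H
    have hmin : min 1 (H / 2 ^ n) = 1 := by
      apply min_eq_left
      rw [le_div_iff₀ (by positivity)]
      linarith
    rw [hmin, mul_one]
    obtain ⟨M', hM'⟩ : ∃ M', N = M' + 1 := ⟨N - 1, by omega⟩
    let e : Fin (M' + 1) ≃ {I // I ∈ Λ} := (Fintype.equivFinOfCardEq (by rw [hcard, hM'])).symm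
    obtain ⟨x, hx0, hxb, hxs⟩ := h1 M' (fun i => ∏ j, t j ^ ((e i).1 j)) (1 + C) H (by
      intro i
      have h4 := hm (e i)
      have h5 : |∏ j, t j ^ ((e i).1 j)| ≤ |∏ j, t j ^ ((e i).1 j) - 1| + 1 := by
        have := abs_add_le (∏ j, t j ^ ((e i).1 j) - 1) 1
        rw [sub_add_cancel, abs_one] at this
        exact this
      have h6 : C * (1 / 2 : ℝ) ^ n ≤ C := by
        calc C * (1 / 2 : ℝ) ^ n ≤ C * 1 := mul_le_mul_of_nonneg_left hhalf1 hC.le
          _ = C := mul_one C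
      linarith) hH
    refine ⟨fun I => x (e.symm I), ?_, fun I => hxb _, ?_⟩
    · intro h0
      apply hx0
      funext i
      have := congrFun h0 (e i)
      simpa using this
    · have hs : ∑ I, ((x (e.symm I) : ℤ) : ℝ) * ∏ j, t j ^ (I.1 j) =
          ∑ i, (x i : ℝ) * ∏ j, t j ^ ((e i).1 j) := by
        rw [← e.sum_comp]
        simp
      rw [hs]
      refine hxs.trans ?_
      have h7 : ((M' : ℝ) + 1) = N := by rw [hM']; push_cast; ring
      have h8 : N - 1 = M' := by omega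
      rw [h7, h8]
      have h9 : 0 ≤ (H ^ M')⁻¹ := by positivity
      have h10 : 2 * (N : ℝ) * (1 + C) ≤ 4 * N * (1 + C) * (N : ℝ) ^ N := by
        have h11 : 4 * (N : ℝ) * (1 + C) ≤ 4 * N * (1 + C) * (N : ℝ) ^ N :=
          le_mul_of_one_le_right (by positivity) hNN
        have h12 : 0 ≤ (N : ℝ) * (1 + C) := by positivity
        linarith
      exact mul_le_mul_of_nonneg_right h10 h9
  · -- small H
    rw [not_le] at hcase
    have hmin : min 1 (H / 2 ^ n) = H / 2 ^ n := by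
      apply min_eq_right
      rw [div_le_one (by positivity)]
      exact hcase.le
    rw [hmin]
    obtain ⟨K, hK⟩ : ∃ K, N = K + 2 := ⟨N - 2, by omega⟩
    have hN1 : N - 1 = K + 1 := by omega
    have htarget : (H ^ (N - 1))⁻¹ * (H / 2 ^ n) = (H ^ K)⁻¹ * (1 / 2 : ℝ) ^ n := by
      rw [hN1, pow_succ, one_div, inv_pow]
      field_simp
    rw [mul_assoc, htarget]
    by_cases hHN : (N : ℝ) ≤ H
    · -- pigeonhole
      have hcard2 : Fintype.card {I : {I // I ∈ Λ} // I ≠ I₀} = K + 1 := by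
        rw [Fintype.card_subtype_compl, hcard]
        simp [hK]
      let e : Fin (K + 1) ≃ {I : {I // I ∈ Λ} // I ≠ I₀} :=
        (Fintype.equivFinOfCardEq hcard2).symm
      obtain ⟨x, hx0, hxb, hxs⟩ := h1 K
        (fun i => ∏ j, t j ^ ((e i).1.1 j) - ∏ j, t j ^ (I₀.1 j))
        (2 * C * (1 / 2 : ℝ) ^ n) (H / N) (fun i => hd (e i).1) (by
          rw [le_div_iff₀ (by linarith)]
          linarith)
      let x' : {I // I ∈ Λ} → ℤ := fun I => if h : I ≠ I₀ then x (e.symm ⟨I, h⟩) else - ∑ i, x i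
      have hx'e : ∀ i, x' (e i).1 = x i := by
        intro i
        have h4 : (e i).1 ≠ I₀ := (e i).2
        simp only [x', dif_pos h4]
        congr 1
        rw [Equiv.symm_apply_eq]
      have hx'z : x' I₀ = - ∑ i, x i := by
        simp [x']
      have hsum : ∀ g : {I // I ∈ Λ} → ℝ, ∑ I, (x' I : ℝ) * g I =
          (x' I₀ : ℝ) * g I₀ + ∑ i, (x i : ℝ) * g (e i).1 := by
        intro g
        rw [← Finset.add_sum_erase Finset.univ _ (Finset.mem_univ I₀)]
        congr 1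
        have h5 : ∑ i, (x i : ℝ) * g (e i).1 =
            ∑ J : {I : {I // I ∈ Λ} // I ≠ I₀}, (x' J.1 : ℝ) * g J.1 := by
          rw [← e.sum_comp]
          apply Finset.sum_congr rfl
          intro i _
          rw [hx'e]
        rw [h5]
        rw [← Finset.sum_subtype (Finset.univ.erase I₀) (by simp)
          (fun I => (x' I : ℝ) * g I)]
      have hxH : ∀ i, |(x i : ℝ)| ≤ H := fun i => (hxb i).trans (by
        rw [div_le_iff₀ (by linarith)]
        nlinarith)
      refine ⟨x', ?_, ?_, ?_⟩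
      · intro h0
        apply hx0
        funext i
        rw [← hx'e i, h0]
        rfl
      · intro I
        by_cases hI : I = I₀
        · rw [hI, hx'z]
          push_cast
          rw [abs_neg]
          calc |∑ i, (x i : ℝ)| ≤ ∑ i, |(x i : ℝ)| := Finset.abs_sum_le_sum_abs _ _
            _ ≤ ∑ _i : Fin (K + 1), H / N := Finset.sum_le_sum fun i _ => hxb i
            _ = (K + 1 : ℝ) * (H / N) := by simp
            _ ≤ N * (H / N) := by
                apply mul_le_mul_of_nonneg_right _ (by positivity)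
                rw [hK]
                push_cast
                linarith
            _ = H := by field_simp
        · have h4 : x' I = x (e.symm ⟨I, hI⟩) := by simp [x', hI]
          rw [h4]
          exact hxH _
      · rw [hsum, hx'z]
        have h6 : ((- ∑ i, x i : ℤ) : ℝ) * (∏ j, t j ^ (I₀.1 j)) +
            ∑ i, (x i : ℝ) * ∏ j, t j ^ ((e i).1.1 j) =
            ∑ i, (x i : ℝ) * (∏ j, t j ^ ((e i).1.1 j) - ∏ j, t j ^ (I₀.1 j)) := by
          push_cast
          simp only [mul_sub, Finset.sum_sub_distrib, ← Finset.sum_mul]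
          ring
        rw [h6]
        refine hxs.trans ?_
        have h7 : ((H / N) ^ K)⁻¹ = (N : ℝ) ^ K * (H ^ K)⁻¹ := by
          rw [div_pow, inv_div, div_eq_mul_inv]
        rw [h7]
        have h8 : 2 * ((K : ℝ) + 1) * (2 * C * (1 / 2 : ℝ) ^ n) * ((N : ℝ) ^ K * (H ^ K)⁻¹) =
            (4 * ((K : ℝ) + 1) * C * (N : ℝ) ^ K) * ((H ^ K)⁻¹ * (1 / 2 : ℝ) ^ n) := by ring
        rw [h8]
        apply mul_le_mul_of_nonneg_right _ (by positivity)
        have h9 : (K : ℝ) + 1 ≤ N := by rw [hK]; push_cast; linarith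
        have h10 : (N : ℝ) ^ K ≤ (N : ℝ) ^ N := pow_le_pow_right₀ (by linarith) (by omega)
        have h11 : 4 * ((K : ℝ) + 1) * C ≤ 4 * N * (1 + C) := by nlinarith
        exact mul_le_mul h11 h10 (by positivity) (by positivity)
    · rw [not_le] at hHN
      let x' : {I // I ∈ Λ} → ℤ := fun I => if I = I₁ then 1 else if I = I₀ then -1 else 0
      have hs : ∑ I, (x' I : ℝ) * ∏ j, t j ^ (I.1 j) =
          ∏ j, t j ^ (I₁.1 j) - ∏ j, t j ^ (I₀.1 j) := by
        have h4 : ∀ I : {I // I ∈ Λ}, (x' I : ℝ) * ∏ j, t j ^ (I.1 j) =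
            (if I = I₁ then ∏ j, t j ^ (I₁.1 j) else 0) -
              (if I = I₀ then ∏ j, t j ^ (I₀.1 j) else 0) := by
          intro I
          simp only [x']
          by_cases hI : I = I₁
          · rw [if_pos hI, if_pos hI, hI, if_neg hne]
            simp
          · rw [if_neg hI, if_neg hI]
            by_cases hI2 : I = I₀
            · rw [if_pos hI2, if_pos hI2, hI2]
              simp
            · rw [if_neg hI2, if_neg hI2]
              simp
        rw [Finset.sum_congr rfl (fun I _ => h4 I), Finset.sum_sub_distrib,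
          Finset.sum_ite_eq' Finset.univ I₁, Finset.sum_ite_eq' Finset.univ I₀]
        simp
      refine ⟨x', ?_, ?_, ?_⟩
      · intro h0
        have := congrFun h0 I₁
        simp [x'] at this
      · intro I
        simp only [x']
        split_ifs
        · simpa using hH
        · simpa using hH
        · simpa using hH0.le
      · rw [hs]
        refine (hd I₁).trans ?_
        rw [← mul_assoc]
        apply mul_le_mul_of_nonneg_right _ hhalf.le
        have h5 : H ^ K ≤ (N : ℝ) ^ N := by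
          calc H ^ K ≤ (N : ℝ) ^ K := pow_le_pow_left₀ hH0.le hHN.le K
            _ ≤ (N : ℝ) ^ N := pow_le_pow_right₀ (by linarith) (by omega)
        have h6 : 1 ≤ (N : ℝ) ^ N * (H ^ K)⁻¹ := by
          rw [← div_eq_mul_inv, le_div_iff₀ (by positivity)]
          linarith
        have h7 : 2 * C ≤ 4 * N * (1 + C) := by nlinarith
        calc 2 * C ≤ 4 * N * (1 + C) := h7
          _ ≤ 4 * N * (1 + C) * ((N : ℝ) ^ N * (H ^ K)⁻¹) :=
              le_mul_of_one_le_right (by positivity) h6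
          _ = _ := by ring

end Pool.Agent.Work.MP_f1a024_nt.RL
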