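import Pool.Agent.Work.MP_f1a024_nt.RL.Stmts

/-!
# Block WL, item ORL: the elements of a finite lower set numbered by weight
-/

namespace Pool.Agent.Work.MP_f1a024_nt.RL

open Finset MvPolynomial Filter
open Pool.Agent.Work.MP_f1a024_nt.AH (tau PG val D1 D2 D4 D10a D10b)
open Pool.Agent.Work.MP_f1a024_nt.RW

theorem prfORL : ORL := by
  intro k Λ hne hlow
  have hcard : Λ.card = Λ.card - 1 + 1 := (Nat.sub_add_cancel (Finset.card_pos.2 hne)).symm
  obtain ⟨e⟩ : Nonempty (Fin (Λ.card - 1 + 1) ≃ Λ) := ⟨(Finset.equivFinOfCardEq hcard).symm⟩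
  have hmem : ∀ I : Fin (k + 1) →₀ ℕ, I ∈ Λ ↔
      ∃ i, (((e (Tuple.sort (fun i => wv (⇑(e i).1 : VE k)) i)).1 : Fin (k + 1) →₀ ℕ) :
        VE k) = ⇑I := by
    intro I
    constructor
    · intro hI
      refine ⟨(Tuple.sort (fun i => wv (⇑(e i).1 : VE k))).symm (e.symm ⟨I, hI⟩), ?_⟩
      rw [Equiv.apply_symm_apply, Equiv.apply_symm_apply]
    · rintro ⟨i, hi⟩
      rw [← DFunLike.coe_injective hi]
      exact (e _).2
  refine ⟨fun i => ⇑(e (Tuple.sort (fun i => wv (⇑(e i).1 : VE k)) i)).1, ?_, ?_, ?_, hmem⟩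
  · intro i j hij
    have h1 := DFunLike.coe_injective hij
    exact (Tuple.sort _).injective (e.injective (Subtype.ext h1))
  · intro α hα β hβ
    obtain ⟨i, -, rfl⟩ := Finset.mem_image.1 hα
    have h1 : Finsupp.equivFunOnFinite.symm β ∈ Λ := by
      refine hlow (a := (e (Tuple.sort (fun i => wv (⇑(e i).1 : VE k)) i)).1) ?_ (e _).2
      intro j
      exact hβ j
    obtain ⟨j, hj⟩ := (hmem _).1 h1
    exact Finset.mem_image.2 ⟨j, Finset.mem_univ j, hj⟩
  · exact Tuple.monotone_sort fun i => wv (⇑(e i).1 : VE k)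

end Pool.Agent.Work.MP_f1a024_nt.RL
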