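import Pool.Agent.Work.MP_f1a024_nt.RL.Stmts

/-!
# Block WL: PFL (basic facts on polynomial functions)
-/

set_option autoImplicit false

namespace Pool.Agent.Work.MP_f1a024_nt.RL

open Finset MvPolynomial Filter
open Pool.Agent.Work.MP_f1a024_nt.AH (tau PG val D1 D2 D4 D10a D10b)
open Pool.Agent.Work.MP_f1a024_nt.RW

theorem PFL_split {k : ℕ} (γ α : VE k) (j : Fin (k + 1)) :
    cbf γ α = (((α j).choose (γ j) : ℕ) : ℚ) *
      ∏ i ∈ univ.erase j, (((α i).choose (γ i) : ℕ) : ℚ) := by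
  unfold cbf
  rw [Finset.mul_prod_erase univ (fun i => (((α i).choose (γ i) : ℕ) : ℚ)) (Finset.mem_univ j)]

theorem PFL_uv_self {k : ℕ} (j : Fin (k + 1)) : uv1 j j = 1 := by
  simp [uv1]

theorem PFL_uv_ne {k : ℕ} {i j : Fin (k + 1)} (h : i ≠ j) : uv1 j i = 0 := by
  simp [uv1, h]

theorem PFL_wv {k : ℕ} (γ : VE k) (j : Fin (k + 1)) : wv (γ + uv1 j) = wv γ + 1 := by
  unfold wv
  have : ∀ i, (γ + uv1 j) i = γ i + (if i = j then 1 else 0) := fun i => rfl
  simp_rw [this, Finset.sum_add_distrib]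
  simp

theorem PFL_rest {k : ℕ} (γ α : VE k) (j : Fin (k + 1)) :
    ∏ i ∈ univ.erase j, (((α i).choose ((γ + uv1 j) i) : ℕ) : ℚ) =
      ∏ i ∈ univ.erase j, (((α i).choose (γ i) : ℕ) : ℚ) := by
  refine Finset.prod_congr rfl fun i hi => ?_
  have h : (γ + uv1 j) i = γ i := by
    rw [Pi.add_apply, PFL_uv_ne (Finset.ne_of_mem_erase hi), add_zero]
  rw [h]

theorem PFL_rest' {k : ℕ} (γ α : VE k) (j : Fin (k + 1)) :
    ∏ i ∈ univ.erase j, ((((α - uv1 j) i).choose (γ i) : ℕ) : ℚ) =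
      ∏ i ∈ univ.erase j, (((α i).choose (γ i) : ℕ) : ℚ) := by
  refine Finset.prod_congr rfl fun i hi => ?_
  have h : (α - uv1 j) i = α i := by
    rw [Pi.sub_apply, PFL_uv_ne (Finset.ne_of_mem_erase hi), Nat.sub_zero]
  rw [h]

theorem PFL_num (a c : ℕ) :
    (a : ℚ) * ((a.choose c : ℕ) : ℚ) =
      (c + 1) * ((a.choose (c + 1) : ℕ) : ℚ) + c * ((a.choose c : ℕ) : ℚ) := by
  have h := Nat.choose_succ_right_eq a c
  rcases le_or_gt c a with hc | hc
  · have h2 : ((a.choose (c + 1) : ℕ) : ℚ) * (c + 1) = ((a.choose c : ℕ) : ℚ) * (a - c) := by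
      have h3 := congrArg (Nat.cast : ℕ → ℚ) h
      push_cast [Nat.cast_sub hc] at h3
      exact h3
    linarith
  · rw [Nat.choose_eq_zero_of_lt hc, Nat.choose_eq_zero_of_lt (by omega)]
    simp

theorem PFL_num' (a c : ℕ) :
    (a : ℚ) * (((a - 1).choose c : ℕ) : ℚ) = (c + 1) * ((a.choose (c + 1) : ℕ) : ℚ) := by
  rcases a with _ | a
  · simp
  · have h := Nat.add_one_mul_choose_eq a c
    have h3 := congrArg (Nat.cast : ℕ → ℚ) h
    push_cast at h3
    rw [Nat.add_sub_cancel]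
    push_cast
    linarith

theorem PFL_six {k : ℕ} (γ α : VE k) (j : Fin (k + 1)) :
    (α j : ℚ) * cbf γ α = (γ j + 1) * cbf (γ + uv1 j) α + γ j * cbf γ α := by
  rw [PFL_split γ α j, PFL_split (γ + uv1 j) α j, PFL_rest]
  have h : (γ + uv1 j) j = γ j + 1 := by rw [Pi.add_apply, PFL_uv_self]
  rw [h]
  have h2 := PFL_num (α j) (γ j)
  linear_combination (∏ i ∈ univ.erase j, (((α i).choose (γ i) : ℕ) : ℚ)) * h2

theorem PFL_seven {k : ℕ} (γ α : VE k) (j : Fin (k + 1)) :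
    (α j : ℚ) * cbf γ (α - uv1 j) = (γ j + 1) * cbf (γ + uv1 j) α := by
  rw [PFL_split γ (α - uv1 j) j, PFL_split (γ + uv1 j) α j, PFL_rest, PFL_rest']
  have h : (γ + uv1 j) j = γ j + 1 := by rw [Pi.add_apply, PFL_uv_self]
  have h' : (α - uv1 j) j = α j - 1 := by rw [Pi.sub_apply, PFL_uv_self]
  rw [h, h']
  have h2 := PFL_num' (α j) (γ j)
  linear_combination (∏ i ∈ univ.erase j, (((α i).choose (γ i) : ℕ) : ℚ)) * h2

theorem PFL_gen {k n : ℕ} {γ : VE k} (h : wv γ ≤ n) : cbf γ ∈ PF k n :=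
  Submodule.subset_span ⟨γ, h, rfl⟩

theorem PFL_one (k : ℕ) : (cbf (0 : VE k)) = fun _ => 1 := by
  funext α
  simp [cbf]

/-- a linear map which maps the generators into the submodule -/
theorem PFL_lin {k n n' : ℕ} (L : (VE k → ℚ) →ₗ[ℚ] (VE k → ℚ))
    (h : ∀ γ : VE k, wv γ ≤ n → L (cbf γ) ∈ PF k n') {f : VE k → ℚ} (hf : f ∈ PF k n) :
    L f ∈ PF k n' := by
  have h1 : PF k n ≤ (PF k n').comap L := by
    refine Submodule.span_le.mpr ?_
    rintro f ⟨γ, hγ, rfl⟩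
    exact h γ hγ
  exact h1 hf

/-- multiplication by a coordinate -/
def PFL_M {k : ℕ} (j : Fin (k + 1)) : (VE k → ℚ) →ₗ[ℚ] (VE k → ℚ) where
  toFun h := fun α => (α j : ℚ) * h α
  map_add' f g := by funext α; simp only [Pi.add_apply]; ring
  map_smul' c f := by funext α; simp only [Pi.smul_apply, smul_eq_mul, RingHom.id_apply]; ring

/-- multiplication by a coordinate after a shift -/
def PFL_N {k : ℕ} (j : Fin (k + 1)) : (VE k → ℚ) →ₗ[ℚ] (VE k → ℚ) where
  toFun h := fun α => (α j : ℚ) * h (α - uv1 j)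
  map_add' f g := by funext α; simp only [Pi.add_apply]; ring
  map_smul' c f := by funext α; simp only [Pi.smul_apply, smul_eq_mul, RingHom.id_apply]; ring

theorem PFL_two {k n : ℕ} {h : VE k → ℚ} (hh : h ∈ PF k n) (j : Fin (k + 1)) :
    (fun α : VE k => (α j : ℚ) * h α) ∈ PF k (n + 1) := by
  refine PFL_lin (PFL_M j) (n' := n + 1) ?_ hh
  intro γ hγ
  have e : PFL_M j (cbf γ) = ((γ j : ℚ) + 1) • cbf (γ + uv1 j) + (γ j : ℚ) • cbf γ := by
    funext α
    exact PFL_six γ α j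
  rw [e]
  refine Submodule.add_mem _ (Submodule.smul_mem _ _ (PFL_gen ?_)) (Submodule.smul_mem _ _ (PFL_gen ?_))
  · rw [PFL_wv]; omega
  · omega

theorem PFL_three {k n : ℕ} {h : VE k → ℚ} (hh : h ∈ PF k n) (j : Fin (k + 1)) :
    (fun α : VE k => (α j : ℚ) * h (α - uv1 j)) ∈ PF k (n + 1) := by
  refine PFL_lin (PFL_N j) (n' := n + 1) ?_ hh
  intro γ hγ
  have e : PFL_N j (cbf γ) = ((γ j : ℚ) + 1) • cbf (γ + uv1 j) := by
    funext α
    exact PFL_seven γ α j
  rw [e]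
  refine Submodule.smul_mem _ _ (PFL_gen ?_)
  rw [PFL_wv]; omega

theorem PFL_mono {k n n' : ℕ} (h : n ≤ n') : PF k n ≤ PF k n' := by
  refine Submodule.span_mono ?_
  rintro f ⟨γ, hγ, rfl⟩
  exact ⟨γ, hγ.trans h, rfl⟩

theorem prfPFL : PFL := by
  intro k
  refine ⟨fun n n' h => PFL_mono h, fun n h hh j => PFL_two hh j, fun n h hh j => PFL_three hh j,
    ?_, ?_, ?_, fun γ α j => PFL_six γ α j, ?_, fun n γ h => PFL_gen h⟩
  · intro c
    have e : (fun _ : VE k => c) = c • cbf (0 : VE k) := by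
      rw [PFL_one]
      funext α
      simp
    rw [e]
    refine Submodule.smul_mem _ _ (PFL_gen ?_)
    simp [wv]
  · intro γ α h j
    by_contra hc
    push Not at hc
    refine h ?_
    rw [PFL_split γ α j, Nat.choose_eq_zero_of_lt hc]
    simp
  · intro γ
    simp [cbf]
  · intro n h hh j c
    have e : (fun α : VE k => ((α j : ℚ) - c) * h α) =
        (fun α : VE k => (α j : ℚ) * h α) - c • h := by
      funext α
      simp only [Pi.sub_apply, Pi.smul_apply, smul_eq_mul]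
      ring
    rw [e]
    exact Submodule.sub_mem _ (PFL_two hh j) (Submodule.smul_mem _ _ (PFL_mono (Nat.le_succ n) hh))

end Pool.Agent.Work.MP_f1a024_nt.RL
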