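import Pool.Agent.Work.MP_f1a024_nt.RL.Stmts

/-!
# Item PLL of block WL: the plan (combinatorics of lower sets)
-/

namespace Pool.Agent.Work.MP_f1a024_nt.RL

open Finset MvPolynomial Filter
open Pool.Agent.Work.MP_f1a024_nt.RW

theorem PLL_wv_uv {k : ℕ} (j : Fin (k + 1)) : wv (uv1 j : VE k) = 1 := by
  simp [wv, uv1]

theorem PLL_wv_add {k : ℕ} (α β : VE k) : wv (α + β) = wv α + wv β := by
  simp [wv, Finset.sum_add_distrib]

theorem PLL_sub_add {k : ℕ} (α : VE k) (j : Fin (k + 1)) (h : 1 ≤ α j) :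
    α - uv1 j + uv1 j = α := by
  funext i
  by_cases hi : i = j
  · subst hi
    simp only [Pi.add_apply, Pi.sub_apply, uv1, if_true]
    omega
  · simp [uv1, hi]

theorem PLL_sub_le {k : ℕ} (α : VE k) (j : Fin (k + 1)) : α - uv1 j ≤ α := by
  intro i
  simp only [Pi.sub_apply]
  omega

theorem PLL_pos {k : ℕ} (α : VE k) (h : 1 ≤ wv α) : ∃ j, 1 ≤ α j := by
  by_contra hc
  push Not at hc
  have h0 : wv α = 0 := by
    unfold wv
    apply Finset.sum_eq_zero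
    intro j _
    have := hc j
    omega
  omega

theorem PLL_eq {k : ℕ} (α β : VE k) (h : α ≤ β) (hw : wv α = wv β) : α = β := by
  unfold wv at hw
  rw [Finset.sum_eq_sum_iff_of_le (fun i _ => h i)] at hw
  funext i
  exact hw i (Finset.mem_univ i)

theorem PLL_self (h1 : PFL) {k : ℕ} (Λ : Finset (VE k)) (B : ℕ) : SepE (lv Λ B) B := by
  intro γ hγ
  obtain ⟨_, _, _, _, h5, h6, _, _, h9⟩ := h1 k
  rw [lv, Finset.mem_filter] at hγ
  refine ⟨cbf γ, h9 B γ hγ.2.le, by rw [h6]; exact one_ne_zero, ?_⟩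
  intro γ' hγ' hne
  by_contra hc
  rw [lv, Finset.mem_filter] at hγ'
  exact hne (PLL_eq γ γ' (h5 γ γ' hc) (hγ.2.trans hγ'.2.symm)).symm

/-- adding points one by one -/
theorem PLL_add (h2 : SPL) {k : ℕ} (E : Finset (VE k)) (c : ℕ) (hE : SepE E c) :
    ∀ F : Finset (VE k), Disjoint F E → SepE (F ∪ E) (c + F.card) := by
  intro F
  induction F using Finset.induction_on with
  | empty => intro _; simpa using hE
  | insert x F hx ih =>
    intro hd
    rw [Finset.disjoint_insert_left] at hd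
    have h3 := ih hd.2
    have hx' : x ∉ F ∪ E := by
      rw [Finset.mem_union]
      rintro (h | h)
      · exact hx h
      · exact hd.1 h
    have h4 := h2 k _ _ x hx' h3
    rw [Finset.insert_union, Finset.card_insert_of_notMem hx, ← Nat.add_assoc]
    exact h4

theorem PLL_add' (h2 : SPL) {k : ℕ} (E E' : Finset (VE k)) (c : ℕ) (hE : SepE E c)
    (hs : E ⊆ E') : SepE E' (c + (E'.card - E.card)) := by
  have h := PLL_add h2 E c hE (E' \ E) Finset.sdiff_disjoint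
  rwa [Finset.sdiff_union_of_subset hs, Finset.card_sdiff_of_subset hs] at h

theorem PLL_one (h1 : PFL) {k : ℕ} (x : VE k) : SepE {x} 0 := by
  intro γ hγ
  obtain ⟨_, _, _, h4, _⟩ := h1 k
  refine ⟨_, h4 1, one_ne_zero, ?_⟩
  intro γ' hγ' hne
  rw [Finset.mem_singleton] at hγ hγ'
  exact absurd (hγ'.trans hγ.symm) hne

theorem PLL_card (h1 : PFL) (h2 : SPL) {k : ℕ} (E : Finset (VE k)) (hE : E.Nonempty) :
    SepE E (E.card - 1) := by
  obtain ⟨x, hx⟩ := hE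
  have h := PLL_add' h2 {x} E 0 (PLL_one h1 x) (Finset.singleton_subset_iff.2 hx)
  rwa [Finset.card_singleton, Nat.zero_add] at h

theorem PLL_uv_inj {k : ℕ} (γ : VE k) : Function.Injective fun j => γ + uv1 j := by
  intro i j hij
  have h := congrFun hij i
  simp only [Pi.add_apply, uv1, if_true] at h
  by_contra hne
  rw [if_neg hne] at h
  omega

/-- the upper neighbours of a point -/
theorem PLL_nb (h1 : PFL) (h2 : SPL) {k : ℕ} (Λ : Finset (VE k)) (B : ℕ) (γ : VE k)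
    (hγ : wv γ + 1 = B) :
    nbr Λ γ ≤ (lv Λ B).card ∧ SepE (lv Λ B) (1 + ((lv Λ B).card - nbr Λ γ)) := by
  classical
  obtain ⟨_, _, _, h4, _, _, _, h8, _⟩ := h1 k
  set F : Finset (VE k) := (univ.filter fun j => γ + uv1 j ∈ Λ).image fun j => γ + uv1 j with hF
  have hc : F.card = nbr Λ γ := by
    rw [hF, Finset.card_image_of_injective _ (PLL_uv_inj γ), nbr]
  have hs : F ⊆ lv Λ B := by
    intro x hx
    rw [hF, Finset.mem_image] at hx
    obtain ⟨j, hj, rfl⟩ := hx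
    rw [Finset.mem_filter] at hj
    rw [lv, Finset.mem_filter]
    exact ⟨hj.2, by rw [PLL_wv_add, PLL_wv_uv, hγ]⟩
  have hsep : SepE F 1 := by
    intro x hx
    rw [hF, Finset.mem_image] at hx
    obtain ⟨j, hj, rfl⟩ := hx
    refine ⟨_, h8 0 _ (h4 1) j (γ j : ℚ), ?_, ?_⟩
    · simp [uv1]
    · intro x' hx' hne
      rw [hF, Finset.mem_image] at hx'
      obtain ⟨i, hi, rfl⟩ := hx'
      have hij : j ≠ i := by
        rintro rfl
        exact hne rfl
      simp [uv1, hij]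
  constructor
  · rw [← hc]
    exact Finset.card_le_card hs
  · have h := PLL_add' h2 F _ 1 hsep hs
    rwa [hc] at h

theorem PLL_down {k : ℕ} (Λ : Finset (VE k)) (hΛ : LS Λ) (B : ℕ) (γ : VE k)
    (hγ : γ ∈ lv Λ B) (j : Fin (k + 1)) (hj : 1 ≤ γ j) : γ - uv1 j ∈ lv Λ (B - 1) := by
  rw [lv, Finset.mem_filter] at hγ ⊢
  refine ⟨hΛ _ hγ.1 _ (PLL_sub_le γ j), ?_⟩
  have h := PLL_wv_add (γ - uv1 j) (uv1 j)
  rw [PLL_sub_add γ j hj, PLL_wv_uv] at h
  omega

theorem PLL_ne {k : ℕ} (Λ : Finset (VE k)) (hΛ : LS Λ) (B : ℕ) (hB : 1 ≤ B)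
    (h : (lv Λ B).Nonempty) : (lv Λ (B - 1)).Nonempty := by
  obtain ⟨γ, hγ⟩ := h
  have hw : wv γ = B := by
    rw [lv, Finset.mem_filter] at hγ
    exact hγ.2
  obtain ⟨j, hj⟩ := PLL_pos γ (by omega)
  exact ⟨_, PLL_down Λ hΛ B γ hγ j hj⟩

/-- the maximal number of upper neighbours -/
noncomputable def PLL_v {k : ℕ} (Λ : Finset (VE k)) (B : ℕ) : ℕ := (lv Λ (B - 1)).sup (nbr Λ)

theorem PLL_v_pos {k : ℕ} (Λ : Finset (VE k)) (hΛ : LS Λ) (B : ℕ) (hB : 1 ≤ B)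
    (h : (lv Λ B).Nonempty) : 1 ≤ PLL_v Λ B := by
  obtain ⟨γ, hγ⟩ := h
  have hw : γ ∈ Λ ∧ wv γ = B := by
    rw [lv, Finset.mem_filter] at hγ
    exact hγ
  obtain ⟨j, hj⟩ := PLL_pos γ (by omega)
  have h1 := PLL_down Λ hΛ B γ hγ j hj
  have h2 : nbr Λ (γ - uv1 j) ≤ PLL_v Λ B := Finset.le_sup (f := nbr Λ) h1
  have h3 : 1 ≤ nbr Λ (γ - uv1 j) := by
    rw [nbr, Nat.one_le_iff_ne_zero, ← Nat.pos_iff_ne_zero, Finset.card_pos]
    exact ⟨j, by rw [Finset.mem_filter, PLL_sub_add γ j hj]; exact ⟨Finset.mem_univ j, hw.1⟩⟩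
  exact h3.trans h2

theorem PLL_v_le {k : ℕ} (Λ : Finset (VE k)) (B : ℕ) : PLL_v Λ B ≤ k + 1 := by
  unfold PLL_v
  apply Finset.sup_le
  intro γ _
  rw [nbr]
  refine (Finset.card_le_univ _).trans ?_
  rw [Fintype.card_fin]

theorem PLL_v_anti {k : ℕ} (Λ : Finset (VE k)) (hΛ : LS Λ) (B : ℕ) (hB : 2 ≤ B) :
    PLL_v Λ B ≤ PLL_v Λ (B - 1) := by
  unfold PLL_v
  apply Finset.sup_le
  intro γ hγ
  have hw : γ ∈ Λ ∧ wv γ = B - 1 := by
    rw [lv, Finset.mem_filter] at hγ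
    exact hγ
  obtain ⟨i, hi⟩ := PLL_pos γ (by omega)
  refine le_trans ?_ (Finset.le_sup (f := nbr Λ) (PLL_down Λ hΛ (B - 1) γ hγ i hi))
  rw [nbr, nbr]
  apply Finset.card_le_card
  intro j hj
  rw [Finset.mem_filter] at hj ⊢
  refine ⟨hj.1, hΛ _ hj.2 _ ?_⟩
  intro l
  exact Nat.add_le_add_right (PLL_sub_le γ i l) _

theorem prfPLL (h1 : PFL) (h2 : SPL) (h3 : SSL) : PLL := by
  classical
  intro k Λ hΛ
  have hex : ∀ B, ∃ c, SepE (lv Λ B) c := fun B => ⟨B, PLL_self h1 Λ B⟩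
  set ι : ℕ → ℕ := fun B => Nat.find (hex B) with hι
  have hsep : ∀ B, SepE (lv Λ B) (ι B) := fun B => Nat.find_spec (hex B)
  have hmin : ∀ B c, SepE (lv Λ B) c → ι B ≤ c := fun B c h => Nat.find_min' (hex B) h
  have hself : ∀ B, ι B ≤ B := fun B => hmin B B (PLL_self h1 Λ B)
  have hsucc : ∀ B, 1 ≤ B → ι B ≤ ι (B - 1) + 1 := by
    intro B hB
    obtain ⟨C, rfl⟩ : ∃ C, B = C + 1 := ⟨B - 1, by omega⟩
    rw [Nat.add_sub_cancel]
    exact hmin _ _ (h3 k C _ Λ hΛ (hsep C))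
  refine ⟨fun B => if ι B < B then 1 else PLL_v Λ B, fun B => if ι B < B then B - ι B else 1, ?_⟩
  intro B hB hne
  have hcard : 1 ≤ (lv Λ B).card := Finset.card_pos.2 hne
  have hle1 : ι B + 1 ≤ (lv Λ B).card := by
    have := hmin _ _ (PLL_card h1 h2 _ hne)
    omega
  have hsB := hself B
  have hss := hsucc B hB
  by_cases hc : ι B < B
  · simp only [if_pos hc]
    refine ⟨by omega, by omega, le_refl 1, by omega, by omega, ?_, Or.inr trivial, ?_⟩
    · right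
      refine ⟨rfl, ?_⟩
      have : B - (B - ι B) = ι B := by omega
      rw [this]
      exact hsep B
    · intro hB2
      have hvp := PLL_v_pos Λ hΛ (B - 1) (by omega) (PLL_ne Λ hΛ B hB hne)
      by_cases hc' : ι (B - 1) < B - 1
      · simp only [if_pos hc']
        exact ⟨by omega, fun _ => le_refl 1⟩
      · simp only [if_neg hc']
        exact ⟨by omega, fun _ => hvp⟩
  · simp only [if_neg hc]
    have hB' : ι B = B := by omega
    refine ⟨le_refl 1, hB, PLL_v_pos Λ hΛ B hB hne, PLL_v_le Λ B, ?_, ?_, Or.inl trivial, ?_⟩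
    · obtain ⟨γ, hγ, hγv⟩ := Finset.exists_mem_eq_sup _ (PLL_ne Λ hΛ B hB hne) (nbr Λ)
      have hw : wv γ = B - 1 := by
        rw [lv, Finset.mem_filter] at hγ
        exact hγ.2
      obtain ⟨h5, h6⟩ := PLL_nb h1 h2 Λ B γ (by omega)
      have h7 := hmin _ _ h6
      have h8 : PLL_v Λ B = nbr Λ γ := hγv
      rw [h8]
      omega
    · left
      refine ⟨rfl, ?_⟩
      intro γ hγ hγw
      refine Finset.le_sup (f := nbr Λ) ?_
      rw [lv, Finset.mem_filter]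
      exact ⟨hγ, by omega⟩
    · intro hB2
      have hc' : ¬ ι (B - 1) < B - 1 := by omega
      simp only [if_neg hc']
      exact ⟨le_refl 1, fun _ => PLL_v_anti Λ hΛ B hB2⟩

end Pool.Agent.Work.MP_f1a024_nt.RL
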