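import Pool.Agent.Work.MP_f1a024_nt.RL.Stmts

/-!
# Block WL, item POL: polynomials as sums over a set of exponents
-/

namespace Pool.Agent.Work.MP_f1a024_nt.RL

open Finset MvPolynomial Filter
open Pool.Agent.Work.MP_f1a024_nt.RW

/-- the exponent vector with number `i` -/
noncomputable def POL_e {k d : ℕ} (A : Fin (d + 1) → VE k) (i : Fin (d + 1)) :
    Fin (k + 1) →₀ ℕ :=
  Finsupp.equivFunOnFinite.symm (A i)

theorem POL_e_apply {k d : ℕ} (A : Fin (d + 1) → VE k) (i : Fin (d + 1)) (j : Fin (k + 1)) :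
    POL_e A i j = A i j := rfl

theorem POL_inj {k d : ℕ} (A : Fin (d + 1) → VE k) (hA : Function.Injective A) :
    Function.Injective (POL_e A) := by
  intro i i' h
  apply hA
  funext j
  have := DFunLike.congr_fun h j
  rwa [POL_e_apply, POL_e_apply] at this

theorem POL_surj {k d : ℕ} (Λ : Finset (Fin (k + 1) →₀ ℕ)) (A : Fin (d + 1) → VE k)
    (hΛ : ∀ I : Fin (k + 1) →₀ ℕ, I ∈ Λ ↔ ∃ i, A i = ⇑I) (b : Fin (k + 1) →₀ ℕ) (hb : b ∈ Λ) :
    ∃ i, POL_e A i = b := by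
  obtain ⟨i, hi⟩ := (hΛ b).1 hb
  refine ⟨i, ?_⟩
  ext j
  rw [POL_e_apply, hi]

/-- item POL -/
theorem prfPOL : POL := by
  intro k d Λ A hA hΛ P hP
  refine ⟨fun hne h0 => ?_, fun t => ?_⟩
  · obtain ⟨b, hb⟩ := MvPolynomial.ne_zero_iff.1 hne
    obtain ⟨i, hi⟩ := POL_surj Λ A hΛ b (hP (MvPolynomial.mem_support_iff.2 hb))
    have h1 : P.coeff (POL_e A i) = 0 := congrFun h0 i
    rw [hi] at h1
    exact hb h1
  · have h1 : MvPolynomial.aeval t P =
        ∑ b ∈ P.support, ((P.coeff b : ℤ) : ℂ) * ∏ j, t j ^ b j := by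
      rw [MvPolynomial.aeval_def, MvPolynomial.eval₂_eq']
      rfl
    have h2 : ∑ i, ((P.coeff (POL_e A i) : ℤ) : ℂ) * ∏ j, t j ^ (POL_e A i j) =
        ∑ b ∈ Finset.univ.image (POL_e A), ((P.coeff b : ℤ) : ℂ) * ∏ j, t j ^ b j := by
      rw [Finset.sum_image fun i _ i' _ h => POL_inj A hA h]
    have h3 : ∑ b ∈ P.support, ((P.coeff b : ℤ) : ℂ) * ∏ j, t j ^ b j =
        ∑ b ∈ Finset.univ.image (POL_e A), ((P.coeff b : ℤ) : ℂ) * ∏ j, t j ^ b j := by
      refine Finset.sum_subset ?_ ?_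
      · intro b hb
        obtain ⟨i, hi⟩ := POL_surj Λ A hΛ b (hP hb)
        exact Finset.mem_image.2 ⟨i, Finset.mem_univ _, hi⟩
      · intro b _ hb
        rw [MvPolynomial.notMem_support_iff.1 hb, Int.cast_zero, zero_mul]
    rw [h1, h3, ← h2]
    rfl

end Pool.Agent.Work.MP_f1a024_nt.RL
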