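import Pool.Agent.Work.MP_f1a024_nt.RL.Stmts

/-! # Block WL, item SEL: the choice of the primes -/

set_option autoImplicit false

namespace Pool.Agent.Work.MP_f1a024_nt.RL

open Finset MvPolynomial Filter
open Pool.Agent.Work.MP_f1a024_nt.AH (tau PG val D1 D2 D4 D10a D10b)
open Pool.Agent.Work.MP_f1a024_nt.RW

/-- the primes with small difference -/
def SEL_G (κ U : Ex) (a : ℕ) (p : ℕ) : Prop := p.Prime ∧ eW κ U p < a

theorem SEL_eW (κ U : Ex) (p : Nat.Primes) : eW κ U (p : ℕ) = U p - κ p := by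
  unfold eW
  rw [dif_pos p.2]
  rfl

theorem SEL_inf (κ U : Ex) (a : ℕ) (ha : 1 ≤ a) : {n : ℕ | SEL_G κ U a n}.Infinite := by
  classical
  have h1 : {n : ℕ | n.Prime}.Infinite := Nat.infinite_setOfPred_prime
  have h2 : ((U.support.image (fun p : Nat.Primes => (p : ℕ)) : Finset ℕ) : Set ℕ).Finite :=
    Finset.finite_toSet _
  refine (h1.sdiff h2).mono ?_
  rintro n ⟨hn, hns⟩
  have hn' : n.Prime := hn
  refine ⟨hn', ?_⟩
  have h3 : U ⟨n, hn'⟩ = 0 := by
    by_contra hc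
    apply hns
    rw [Finset.mem_coe, Finset.mem_image]
    exact ⟨⟨n, hn'⟩, Finsupp.mem_support_iff.mpr hc, rfl⟩
  have h4 := SEL_eW κ U ⟨n, hn'⟩
  have h5 : eW κ U n = U ⟨n, hn'⟩ - κ ⟨n, hn'⟩ := h4
  rw [h5, h3]
  omega

/-- an element above the element number `j` is at least the element number `j + 1` -/
theorem SEL_succ_le {G : ℕ → Prop} (hG : {n : ℕ | G n}.Infinite) (j c : ℕ) (hc : G c)
    (h : Nat.nth G j < c) : Nat.nth G (j + 1) ≤ c := by
  classical
  have h1 : Nat.nth G (Nat.count G c) = c := Nat.nth_count hc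
  rw [← h1] at h ⊢
  have h2 : j < Nat.count G c := (Nat.nth_strictMono hG).lt_iff_lt.mp h
  exact (Nat.nth_strictMono hG).monotone h2

theorem SEL_zero_le {G : ℕ → Prop} (hG : {n : ℕ | G n}.Infinite) (c : ℕ) (hc : G c) :
    Nat.nth G 0 ≤ c := by
  classical
  have h1 : Nat.nth G (Nat.count G c) = c := Nat.nth_count hc
  calc Nat.nth G 0 ≤ Nat.nth G (Nat.count G c) :=
        (Nat.nth_strictMono hG).monotone (Nat.zero_le _)
    _ = c := h1

theorem SEL_le_seq {G : ℕ → Prop} (hG : {n : ℕ | G n}.Infinite) (k : ℕ) (q : Fin (k + 1) → ℕ)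
    (hq : StrictMono q) (hqG : ∀ j, G (q j)) : ∀ (i : ℕ) (hi : i < k + 1),
    Nat.nth G i ≤ q ⟨i, hi⟩ := by
  intro i
  induction i with
  | zero => intro hi; exact SEL_zero_le hG _ (hqG _)
  | succ i ih =>
    intro hi
    have h1 := ih (by omega)
    have h2 : q ⟨i, by omega⟩ < q ⟨i + 1, hi⟩ := hq (by simp [Fin.lt_def])
    exact SEL_succ_le hG i _ (hqG _) (lt_of_le_of_lt h1 h2)

theorem SEL_chain (b : ℕ) (n a : ℕ → ℕ)
    (h : ∀ B, 1 ≤ B → B ≤ b → (2 ≤ B → a (B - 1) ≤ a B ∧ (a (B - 1) = a B → n B ≤ n (B - 1))))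
    (B : ℕ) (hB : 1 ≤ B) (d : ℕ) : B + d ≤ b →
    a B ≤ a (B + d) ∧ (a B = a (B + d) → n (B + d) ≤ n B) := by
  induction d with
  | zero => intro _; exact ⟨le_rfl, fun _ => le_rfl⟩
  | succ d ih =>
    intro hb
    obtain ⟨h1, h2⟩ := ih (by omega)
    obtain ⟨h3, h4⟩ := h (B + (d + 1)) (by omega) hb (by omega)
    have h5 : B + (d + 1) - 1 = B + d := by omega
    rw [h5] at h3 h4
    refine ⟨h1.trans h3, fun h6 => ?_⟩
    have h7 : a (B + d) = a (B + (d + 1)) := by omega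
    have h8 : a B = a (B + d) := by omega
    exact (h4 h7).trans (h2 h8)

open Classical in
/-- the first `n` primes with small difference -/
noncomputable def SEL_S (κ U : Ex) (a n : ℕ) : Finset Nat.Primes :=
  ((range n).image fun i => Nat.nth (SEL_G κ U a) i).subtype Nat.Prime

theorem SEL_card (κ U : Ex) (a n : ℕ) (hI : {m : ℕ | SEL_G κ U a m}.Infinite) :
    (SEL_S κ U a n).card = n := by
  classical
  have h1 : (((range n).image fun i => Nat.nth (SEL_G κ U a) i).subtype Nat.Prime).card = n := by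
    rw [Finset.card_subtype, Finset.filter_true_of_mem, Finset.card_image_of_injective,
      Finset.card_range]
    · exact Nat.nth_injective hI
    · intro m hm
      rw [Finset.mem_image] at hm
      obtain ⟨i, -, rfl⟩ := hm
      exact (Nat.nth_mem_of_infinite hI i).1
  rw [← h1]
  unfold SEL_S
  congr

theorem SEL_mem (κ U : Ex) (a n : ℕ) (hI : {m : ℕ | SEL_G κ U a m}.Infinite) (p : Nat.Primes)
    (hp : p ∈ SEL_S κ U a n) :
    ∃ i, i < n ∧ Nat.nth (SEL_G κ U a) i = (p : ℕ) ∧ SEL_G κ U a (p : ℕ) := by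
  classical
  unfold SEL_S at hp
  have h3 := Finset.mem_subtype.mp hp
  rw [Finset.mem_image] at h3
  obtain ⟨i, hi, h4⟩ := h3
  refine ⟨i, Finset.mem_range.mp hi, h4, ?_⟩
  have h5 := Nat.nth_mem_of_infinite hI i
  rw [h4] at h5
  exact h5

theorem prfSEL : SEL := by
  classical
  intro k b κ U q n a hκ hq hqU hna
  have hinf : ∀ B, 1 ≤ B → B ≤ b → {m : ℕ | SEL_G κ U (a B) m}.Infinite := fun B h1 h2 =>
    SEL_inf κ U (a B) (hna B h1 h2).1
  have hchain : ∀ B B', 1 ≤ B → B ≤ B' → B' ≤ b → a B ≤ a B' ∧ (a B = a B' → n B' ≤ n B) := by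
    intro B B' h1 h2 h3
    obtain ⟨d, rfl⟩ := Nat.exists_eq_add_of_le h2
    exact SEL_chain b n a (fun C hC hC' => (hna C hC hC').2.2.2.2) B h1 d h3
  have hmonoG : ∀ a1 a2 m, a1 ≤ a2 → SEL_G κ U a1 m → SEL_G κ U a2 m := fun a1 a2 m h1 h2 =>
    ⟨h2.1, lt_of_lt_of_le h2.2 h1⟩
  -- membership in `S`
  have hmem : ∀ B, 1 ≤ B → B ≤ b → ∀ p : Nat.Primes,
      p ∈ SEL_S κ U (a B) (n B) →
      ∃ i, i < n B ∧ Nat.nth (SEL_G κ U (a B)) i = (p : ℕ) ∧ SEL_G κ U (a B) (p : ℕ) := by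
    intro B h1 h2 p hp
    exact SEL_mem κ U (a B) (n B) (hinf B h1 h2) p hp
  refine ⟨fun B => SEL_S κ U (a B) (n B),
    fun B => Nat.nth (SEL_G κ U (a B)) (n B - 1), ?_, ?_, ?_⟩
  · intro B hB1 hB2
    obtain ⟨ha1, hn1, hnk, -, -⟩ := hna B hB1 hB2
    have hI := hinf B hB1 hB2
    refine ⟨?_, ?_, ?_, ?_⟩
    · exact SEL_card κ U (a B) (n B) hI
    · have h1 := SEL_le_seq hI k (fun j => (q j : ℕ)) hq (fun j => ⟨(q j).2, by
        rw [SEL_eW, hqU j, Nat.sub_self]; exact ha1⟩) (n B - 1) (by omega)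
      refine h1.trans (hq.monotone ?_)
      exact Fin.le_last _
    · intro p hp
      obtain ⟨i, hi, h1, h2⟩ := hmem B hB1 hB2 p hp
      refine ⟨?_, ?_⟩
      · have h3 := h2.2
        rwa [SEL_eW] at h3
      · rw [← h1]
        exact (Nat.nth_strictMono hI).monotone (by omega)
    · have h1 : Nat.count (SEL_G κ U (a B)) (Nat.nth (SEL_G κ U (a B)) (n B - 1)) = n B - 1 :=
        Nat.count_nth_of_infinite hI _
      rw [Nat.count_eq_card_filter_range] at h1
      have h2 : ((range (Nat.nth (SEL_G κ U (a B)) (n B - 1))).filter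
          (fun p => p.Prime ∧ eW κ U p < a B)).card =
          ((range (Nat.nth (SEL_G κ U (a B)) (n B - 1))).filter (SEL_G κ U (a B))).card := by
        refine congrArg Finset.card (Finset.filter_congr fun p _ => ?_)
        exact Iff.rfl
      have h3 := h2.trans h1
      show ((range (Nat.nth (SEL_G κ U (a B)) (n B - 1))).filter
          (fun p => p.Prime ∧ eW κ U p < a B)).card + 1 ≤ n B
      rw [h3]
      omega
  · intro B B' hB1 hBB hB2
    obtain ⟨h1, h2⟩ := hchain B B' hB1 hBB hB2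
    have hI := hinf B hB1 (hBB.trans hB2)
    have hI' := hinf B' (hB1.trans hBB) hB2
    rcases h1.lt_or_eq with h3 | h3
    · obtain ⟨ha1, hn1, hnk, hor, -⟩ := hna B' (hB1.trans hBB) hB2
      have ha2 := (hna B hB1 (hBB.trans hB2)).1
      have h4 : n B' = 1 := by
        rcases hor with h | h
        · omega
        · exact h
      show Nat.nth (SEL_G κ U (a B')) (n B' - 1) ≤ Nat.nth (SEL_G κ U (a B)) (n B - 1)
      rw [h4]
      exact SEL_zero_le hI' _ (hmonoG _ _ _ h1 (Nat.nth_mem_of_infinite hI _))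
    · have h4 := h2 h3
      show Nat.nth (SEL_G κ U (a B')) (n B' - 1) ≤ Nat.nth (SEL_G κ U (a B)) (n B - 1)
      rw [← h3]
      exact (Nat.nth_strictMono hI).monotone (by omega)
  · intro B B' hB1 hBB hB2 p hp p' hp' hne
    obtain ⟨h1, -⟩ := hchain B B' hB1 hBB hB2
    have hI' := hinf B' (hB1.trans hBB) hB2
    obtain ⟨i, hi, h2, h3⟩ := hmem B hB1 (hBB.trans hB2) p hp
    obtain ⟨i', hi', h4, h5⟩ := hmem B' (hB1.trans hBB) hB2 p' hp'
    obtain ⟨ha1, hn1, hnk, hor, -⟩ := hna B' (hB1.trans hBB) hB2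
    have h6 : n B' = 1 := by
      rcases hor with h | h
      · exfalso
        have h7 := h5.2
        rw [SEL_eW, h] at h7
        have h8 : κ p' ≤ U p' := hκ p'
        omega
      · exact h
    have h7 : i' = 0 := by omega
    rw [← h4, h7]
    exact SEL_zero_le hI' _ (hmonoG _ _ _ h1 h3)

end Pool.Agent.Work.MP_f1a024_nt.RL
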