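import Pool.Agent.Work.MP_f1a024_nt.RL.Stmts

/-! Block WL, item SPL (helper96): one more point. -/

namespace Pool.Agent.Work.MP_f1a024_nt.RL

open Finset MvPolynomial Filter
open Pool.Agent.Work.MP_f1a024_nt.AH (tau PG val D1 D2 D4 D10a D10b)
open Pool.Agent.Work.MP_f1a024_nt.RW

theorem SPL_ne {k : ℕ} {x y : VE k} (h : x ≠ y) : ∃ j, (x j : ℚ) - (y j : ℚ) ≠ 0 := by
  obtain ⟨j, hj⟩ := Function.ne_iff.1 h
  exact ⟨j, fun h0 => hj (by exact_mod_cast sub_eq_zero.1 h0)⟩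

theorem prfSPL (h : PFL) : SPL := by
  classical
  intro k c E x hx hE
  obtain ⟨p1, _, _, p4, _, _, _, p8, _⟩ := h k
  intro γ hγ
  rcases Finset.mem_insert.1 hγ with rfl | hγE
  · -- the new point
    choose! g hg1 hg2 hg3 using hE
    have hF : (fun α : VE k => (1 : ℚ) - ∑ y ∈ E, (g y y)⁻¹ * g y α) ∈ PF k c := by
      have e : (fun α : VE k => (1 : ℚ) - ∑ y ∈ E, (g y y)⁻¹ * g y α) =
          (fun _ : VE k => (1 : ℚ)) - ∑ y ∈ E, (g y y)⁻¹ • g y := by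
        funext α
        rw [Pi.sub_apply, Finset.sum_apply]
        rfl
      rw [e]
      exact Submodule.sub_mem _ (p1 0 c (Nat.zero_le c) (p4 1))
        (Submodule.sum_mem _ fun y hy => Submodule.smul_mem _ _ (hg1 y hy))
    by_cases hx0 : (1 : ℚ) - ∑ y ∈ E, (g y y)⁻¹ * g y γ = 0
    · have h1 : ∃ y ∈ E, g y γ ≠ 0 := by
        by_contra hcon
        push Not at hcon
        rw [Finset.sum_eq_zero fun y hy => by rw [hcon y hy, mul_zero], sub_zero] at hx0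
        exact one_ne_zero hx0
      obtain ⟨y, hy, hyx⟩ := h1
      have hne : γ ≠ y := fun h0 => hx (h0 ▸ hy)
      obtain ⟨j, hj⟩ := SPL_ne hne
      refine ⟨_, p8 c (g y) (hg1 y hy) j (y j : ℚ), mul_ne_zero hj hyx, ?_⟩
      intro γ' hγ' hne'
      have hγE : γ' ∈ E := (Finset.mem_insert.1 hγ').resolve_left hne'
      by_cases h2 : γ' = y
      · subst h2
        show ((γ' j : ℚ) - (γ' j : ℚ)) * g γ' γ' = 0
        rw [sub_self, zero_mul]
      · show ((γ' j : ℚ) - (y j : ℚ)) * g y γ' = 0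
        rw [hg3 y hy γ' hγE h2, mul_zero]
    · refine ⟨_, p1 c (c + 1) (Nat.le_succ c) hF, hx0, ?_⟩
      intro γ' hγ' hne'
      have hγE : γ' ∈ E := (Finset.mem_insert.1 hγ').resolve_left hne'
      show (1 : ℚ) - ∑ y ∈ E, (g y y)⁻¹ * g y γ' = 0
      rw [Finset.sum_eq_single_of_mem γ' hγE fun y hy hyne => by
        rw [hg3 y hy γ' hγE (Ne.symm hyne), mul_zero], inv_mul_cancel₀ (hg2 γ' hγE), sub_self]
  · -- an old point
    obtain ⟨g, hg1, hg2, hg3⟩ := hE γ hγE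
    have hne : γ ≠ x := fun h0 => hx (h0 ▸ hγE)
    obtain ⟨j, hj⟩ := SPL_ne hne
    refine ⟨_, p8 c g hg1 j (x j : ℚ), mul_ne_zero hj hg2, ?_⟩
    intro γ' hγ' hne'
    rcases Finset.mem_insert.1 hγ' with rfl | hγ'E
    · show ((γ' j : ℚ) - (γ' j : ℚ)) * g γ' = 0
      rw [sub_self, zero_mul]
    · show ((γ' j : ℚ) - (x j : ℚ)) * g γ' = 0
      rw [hg3 γ' hγ'E hne', mul_zero]

end Pool.Agent.Work.MP_f1a024_nt.RL
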