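import Pool.Agent.Work.MP_f1a024_nt.RL.Stmts

/-!
# Block WL, item SSL: the next level of a lower set
-/

set_option autoImplicit false

namespace Pool.Agent.Work.MP_f1a024_nt.RL

open Finset

/-- subtracting and adding a unit vector -/
theorem SSL_sub_add {k : ℕ} (α : VE k) (j : Fin (k + 1)) (hj : α j ≠ 0) :
    α - uv1 j + uv1 j = α := by
  funext i
  simp only [Pi.add_apply, Pi.sub_apply, uv1]
  by_cases h : i = j
  · subst h
    simp
    omega
  · simp [h]

theorem SSL_add_sub {k : ℕ} (α : VE k) (j : Fin (k + 1)) : α + uv1 j - uv1 j = α := by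
  funext i
  simp

theorem SSL_wv {k : ℕ} (α : VE k) (j : Fin (k + 1)) : wv (α + uv1 j) = wv α + 1 := by
  unfold wv
  simp only [Pi.add_apply, uv1, Finset.sum_add_distrib, Finset.sum_ite_eq', Finset.mem_univ,
    if_true]

theorem SSL_mem {k b : ℕ} {Λ : Finset (VE k)} (hΛ : LS Λ) {α : VE k} (hα : α ∈ lv Λ (b + 1))
    {j : Fin (k + 1)} (hj : α j ≠ 0) : α - uv1 j ∈ lv Λ b := by
  unfold lv at hα ⊢
  rw [Finset.mem_filter] at hα ⊢
  refine ⟨hΛ α hα.1 _ (fun i => by simp), ?_⟩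
  have h := SSL_wv (α - uv1 j) j
  rw [SSL_sub_add α j hj, hα.2] at h
  omega

/-- the polynomial functions with prescribed values -/
theorem SSL_H {k b c : ℕ} {Λ : Finset (VE k)} (hs : SepE (lv Λ b) c) (γ : VE k)
    (j : Fin (k + 1)) : ∃ H ∈ PF k c, ∀ β ∈ lv Λ b, H β = if β + uv1 j = γ then 1 else 0 := by
  by_cases h : ∃ β ∈ lv Λ b, β + uv1 j = γ
  · obtain ⟨β, hβ, hβγ⟩ := h
    obtain ⟨g, hg, hg1, hg2⟩ := hs β hβ
    refine ⟨(g β)⁻¹ • g, Submodule.smul_mem _ _ hg, fun β' hβ' => ?_⟩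
    by_cases h' : β' = β
    · subst h'
      rw [if_pos hβγ, Pi.smul_apply, smul_eq_mul, inv_mul_cancel₀ hg1]
    · rw [if_neg, Pi.smul_apply, hg2 β' hβ' h', smul_zero]
      intro h''
      apply h'
      rw [← SSL_add_sub β' j, h'', ← hβγ, SSL_add_sub]
  · push Not at h
    refine ⟨0, Submodule.zero_mem _, fun β hβ => ?_⟩
    rw [if_neg (h β hβ), Pi.zero_apply]

theorem prfSSL (h : PFL) : SSL := by
  intro k b c Λ hΛ hs γ hγ
  choose H hH1 hH2 using fun j => SSL_H hs γ j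
  have h3 := (h k).2.2.1
  have key : ∀ α ∈ lv Λ (b + 1), (∑ j, fun α : VE k => (α j : ℚ) * H j (α - uv1 j)) α =
      (b + 1) * (if α = γ then 1 else 0) := by
    intro α hα
    rw [Finset.sum_apply]
    have h1 : ∀ j, (α j : ℚ) * H j (α - uv1 j) = (α j : ℚ) * (if α = γ then 1 else 0) := by
      intro j
      by_cases hj : α j = 0
      · rw [hj]
        simp
      · rw [hH2 j _ (SSL_mem hΛ hα hj), SSL_sub_add α j hj]
    rw [Finset.sum_congr rfl (fun j _ => h1 j), ← Finset.sum_mul]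
    congr 1
    have h2 := (Finset.mem_filter.1 hα).2
    unfold wv at h2
    exact_mod_cast h2
  refine ⟨∑ j, fun α : VE k => (α j : ℚ) * H j (α - uv1 j),
    Submodule.sum_mem _ (fun j _ => h3 c (H j) (hH1 j) j), ?_, fun γ' hγ' hne => ?_⟩
  · rw [key γ hγ, if_pos rfl, mul_one]
    positivity
  · rw [key γ' hγ', if_neg hne, mul_zero]

end Pool.Agent.Work.MP_f1a024_nt.RL
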