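import Pool.Agent.Work.MP_f1a024_nt.RL.Stmts

/-!
# Block WL, item STL (helper88): the relations of one prime
-/

set_option autoImplicit false

namespace Pool.Agent.Work.MP_f1a024_nt.RL

open Finset MvPolynomial Filter
open Pool.Agent.Work.MP_f1a024_nt.AH (tau PG val D1 D2 D4 D10a D10b)
open Pool.Agent.Work.MP_f1a024_nt.RW

theorem prfSTL (h1 : FAK) (h2 : MUL) (h3 : ODL) (h4 : SWL) : STL := by
  intro hD k d s A u κ m p b a n hm hn hnb hy hz1 hz2 g hg
  obtain ⟨w, hw, hA⟩ := h1 d (fW s A) u κ m p (fun i => h2 hD k d s A i) hm hy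
  obtain ⟨Δ, μ, hΔ, hμ, hode⟩ := h3 k s p p.2
  have key := h4 k (Fin (d + 1)) A Δ μ (up u p - κ p) b a n w
    (fun i => PowerSeries.mk fun c => fW s A i ((p : ℕ) ^ c)) hΔ hn hnb
    (fun i => hode (A i)) hw ?_ ?_ g hg
  · have h2n : ((2 : ℚ) ^ n) ≠ 0 := pow_ne_zero _ two_ne_zero
    refine (mul_eq_zero.1 ?_).resolve_left h2n
    rw [← key, Finset.mul_sum]
    refine Finset.sum_congr rfl fun i _ => ?_
    rw [hA i a]
    have hL : ∑ j, (A i j : ℚ) * PowerSeries.constantCoeff (μ j) = 2 * Lw s p (A i) := by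
      unfold Lw
      rw [Finset.mul_sum]
      refine Finset.sum_congr rfl fun j _ => ?_
      rw [hμ j, div_eq_mul_inv]
      ring
    rw [hL, mul_pow]
    ring
  · intro j a' hj ha h hh
    rw [← hz1 j a' hj ha h hh]
    exact Finset.sum_congr rfl fun i _ => by rw [hA i a']
  · intro a' ha h hh
    rw [← hz2 a' ha h hh]
    exact Finset.sum_congr rfl fun i _ => by rw [hA i a']

end Pool.Agent.Work.MP_f1a024_nt.RL
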