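import Pool.Agent.Work.MP_f1a024_nt.RL.Stmts

/-!
# Block WL: SUL, subspaces of the exact dimension
-/

namespace Pool.Agent.Work.MP_f1a024_nt.RL

open Finset MvPolynomial Filter
open Pool.Agent.Work.MP_f1a024_nt.AH (tau PG val D1 D2 D4 D10a D10b)
open Pool.Agent.Work.MP_f1a024_nt.RW

theorem SUL_exists {d : ℕ} (W : Submodule ℚ (Fin (d + 1) → ℚ)) {r : ℕ}
    (h : r ≤ Module.finrank ℚ W) :
    ∃ W' : Submodule ℚ (Fin (d + 1) → ℚ), W' ≤ W ∧ Module.finrank ℚ W' = r := by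
  obtain ⟨f, hf⟩ := exists_linearIndependent_of_le_finrank (R := ℚ) (M := W) h
  refine ⟨Submodule.span ℚ (Set.range fun i => (f i : Fin (d + 1) → ℚ)), ?_, ?_⟩
  · rw [Submodule.span_le]
    rintro _ ⟨i, rfl⟩
    exact (f i).2
  · have h1 : LinearIndependent ℚ (fun i => (f i : Fin (d + 1) → ℚ)) :=
      hf.map' W.subtype (Submodule.ker_subtype W)
    rw [finrank_span_eq_card h1, Fintype.card_fin]

theorem prfSUL : SUL := by
  intro d f ι T ζ hT hZ
  have hex : ∀ (j : ι) (r : ℕ), ∃ W' : Submodule ℚ (Fin (d + 1) → ℚ),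
      W' ≤ T j r ∧ (r ≤ d → Module.finrank ℚ W' = r + 1) := by
    intro j r
    by_cases hr : r ≤ d
    · obtain ⟨W', h1, h2⟩ := SUL_exists (T j r) (hT j r hr)
      exact ⟨W', h1, fun _ => h2⟩
    · exact ⟨⊥, bot_le, fun h => absurd h hr⟩
  choose T' hle hfr using hex
  refine ⟨T', fun j r hr => hfr j r hr, ?_⟩
  intro r m u a hr hu hspan hdt
  refine hZ r m u a hr hu ?_ hdt
  intro j z hz hz'
  exact hspan j z (fun t ht => hz t (hle j r ht)) hz'

end Pool.Agent.Work.MP_f1a024_nt.RL
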