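import Pool.Agent.Work.MP_f1a024_nt.RL.Stmts

/-!
# Block WL, item SWL: one prime, power series (helper90)
-/

set_option autoImplicit false

namespace Pool.Agent.Work.MP_f1a024_nt.RL

open Finset PowerSeries
open Pool.Agent.Work.MP_f1a024_nt.RW

/-- the operator `Δ D - n Δ' + M` -/
noncomputable def SWL_op (Δ M : ℚ⟦X⟧) (n : ℕ) (h : ℚ⟦X⟧) : ℚ⟦X⟧ :=
  Δ * derivative ℚ h - (n : ℚ⟦X⟧) * derivative ℚ Δ * h + M * h

theorem SWL_step (Δ M : ℚ⟦X⟧) (n : ℕ) (w φ : ℚ⟦X⟧) (hφ : Δ * derivative ℚ φ = -(M * φ)) :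
    SWL_op Δ M n (Δ ^ n * w * φ) = Δ ^ (n + 1) * derivative ℚ w * φ := by
  unfold SWL_op
  have h1 : derivative ℚ (Δ ^ n * w * φ) =
      (n : ℚ⟦X⟧) * Δ ^ (n - 1) * derivative ℚ Δ * w * φ + Δ ^ n * derivative ℚ w * φ +
        Δ ^ n * w * derivative ℚ φ := by
    rw [Derivation.leibniz, Derivation.leibniz, derivative_pow]
    simp only [smul_eq_mul]
    ring
  rw [h1]
  have h2 : Δ * ((n : ℚ⟦X⟧) * Δ ^ (n - 1)) = (n : ℚ⟦X⟧) * Δ ^ n := by
    rcases Nat.eq_zero_or_pos n with h | h
    · subst h; simp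
    · obtain ⟨k, rfl⟩ : ∃ k, n = k + 1 := ⟨n - 1, by omega⟩
      simp only [Nat.add_sub_cancel]
      ring
  linear_combination (derivative ℚ Δ * w * φ) * h2 + (Δ ^ n * w) * hφ

/-- the iterates -/
noncomputable def SWL_Y (Δ M : ℚ⟦X⟧) : ℕ → ℚ⟦X⟧ → ℚ⟦X⟧
  | 0, h => h
  | n + 1, h => SWL_op Δ M n (SWL_Y Δ M n h)

theorem SWL_Y_eq (Δ M : ℚ⟦X⟧) (n : ℕ) (w φ : ℚ⟦X⟧) (hφ : Δ * derivative ℚ φ = -(M * φ)) :
    SWL_Y Δ M n (w * φ) = Δ ^ n * (derivative ℚ)^[n] w * φ := by
  induction n with
  | zero => simp [SWL_Y]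
  | succ n ih =>
    rw [SWL_Y, ih, SWL_step Δ M n _ φ hφ, Function.iterate_succ_apply']

theorem SWL_Y_zero (Δ M : ℚ⟦X⟧) (e : ℕ) (w φ : ℚ⟦X⟧) (hφ : Δ * derivative ℚ φ = -(M * φ))
    (hw : ∀ a, e < a → coeff a w = 0) : SWL_Y Δ M (e + 1) (w * φ) = 0 := by
  rw [SWL_Y_eq Δ M (e + 1) w φ hφ]
  have : (derivative ℚ)^[e + 1] w = 0 := by
    ext a
    rw [coeff_iterate_derivative, hw _ (by omega), mul_zero, map_zero]
  rw [this, mul_zero, zero_mul]

/-- products with linear forms -/
theorem SWL_lin (hP : PFL) {k : ℕ} (ν : Fin (k + 1) → ℚ) {j : ℕ} {h : VE k → ℚ}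
    (hh : h ∈ PF k j) : (fun α : VE k => h α * ∑ i, (α i : ℚ) * ν i) ∈ PF k (j + 1) := by
  have h1 : (fun α : VE k => h α * ∑ i, (α i : ℚ) * ν i) =
      ∑ i, ν i • (fun α : VE k => (α i : ℚ) * h α) := by
    funext α
    rw [Finset.sum_apply, Finset.mul_sum]
    refine Finset.sum_congr rfl fun i _ => ?_
    rw [Pi.smul_apply, smul_eq_mul]
    ring
  rw [h1]
  exact Submodule.sum_mem _ fun i _ => Submodule.smul_mem _ _ ((hP k).2.1 j h hh i)

theorem SWL_pow (hP : PFL) {k : ℕ} (ν : Fin (k + 1) → ℚ) {j : ℕ} {h : VE k → ℚ}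
    (hh : h ∈ PF k j) (n : ℕ) :
    (fun α : VE k => h α * (∑ i, (α i : ℚ) * ν i) ^ n) ∈ PF k (j + n) := by
  induction n with
  | zero => simpa using hh
  | succ n ih =>
    have h1 := SWL_lin hP ν ih
    have h2 : (fun α : VE k => h α * (∑ i, (α i : ℚ) * ν i) ^ (n + 1)) =
        fun α : VE k => (h α * (∑ i, (α i : ℚ) * ν i) ^ n) * ∑ i, (α i : ℚ) * ν i := by
      funext α
      rw [pow_succ]
      ring
    rw [h2]
    exact h1

/-- item SWL -/
theorem prfSWL (hP : PFL) : SWL := by
  classical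
  intro k ι _ A Δ μ e b a n w φ hΔ hen hnb hφ hw h1 h2 g hg
  set M : ι → ℚ⟦X⟧ := fun i => ∑ j, C (A i j : ℚ) * μ j with hM
  set y : ι → ℚ⟦X⟧ := fun i => w i * φ i with hy
  set ν : Fin (k + 1) → ℚ := fun j => constantCoeff (μ j) with hν
  -- the claim
  have claim : ∀ n' j c : ℕ, j + n' ≤ b → j + n' + c ≤ b + a → ∀ h ∈ PF k j,
      ∑ i, h (A i) * coeff c (SWL_Y Δ (M i) n' (y i)) =
        ∑ i, (h (A i) * (∑ j, (A i j : ℚ) * ν j) ^ n') * coeff c (y i) := by
    intro n'
    induction n' with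
    | zero =>
      intro j c _ _ h _
      refine Finset.sum_congr rfl fun i _ => ?_
      simp [SWL_Y]
    | succ n' ih =>
      intro j c hb1 hb2 h hh
      set Y : ι → ℚ⟦X⟧ := fun i => SWL_Y Δ (M i) n' (y i) with hY
      have z1 : ∀ c' ≤ c + 1, ∑ i, h (A i) * coeff c' (Y i) = 0 := by
        intro c' hc'
        rw [ih j c' (by omega) (by omega) h hh]
        exact h1 (j + n') c' (by omega) (by omega) _ (SWL_pow hP ν hh n')
      have z2 : ∀ (j' : Fin (k + 1)) (c' : ℕ), c' < c →
          ∑ i, ((A i j' : ℚ) * h (A i)) * coeff c' (Y i) = 0 := by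
        intro j' c' hc'
        have hh' := (hP k).2.1 j h hh j'
        rw [ih (j + 1) c' (by omega) (by omega) _ hh']
        have hm := SWL_pow hP ν hh' n'
        rcases Nat.lt_or_ge (j + 1 + n') b with hlt | hge
        · exact h1 (j + 1 + n') c' hlt (by omega) _ hm
        · have : j + 1 + n' = b := by omega
          rw [this] at hm
          exact h2 c' (by omega) _ hm
      have e1 : ∑ i, h (A i) * coeff c (Δ * derivative ℚ (Y i)) = 0 := by
        have : ∀ i, h (A i) * coeff c (Δ * derivative ℚ (Y i)) =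
            ∑ x ∈ antidiagonal c, coeff x.1 Δ * (x.2 + 1) *
              (h (A i) * coeff (x.2 + 1) (Y i)) := by
          intro i
          rw [coeff_mul, Finset.mul_sum]
          refine Finset.sum_congr rfl fun x _ => ?_
          rw [coeff_derivative]
          ring
        rw [Finset.sum_congr rfl fun i _ => this i, Finset.sum_comm]
        refine Finset.sum_eq_zero fun x hx => ?_
        rw [← Finset.mul_sum, z1 (x.2 + 1) (by
          have := mem_antidiagonal.1 hx
          omega), mul_zero]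
      have e2 : ∑ i, h (A i) * coeff c ((n' : ℚ⟦X⟧) * derivative ℚ Δ * Y i) = 0 := by
        have : ∀ i, h (A i) * coeff c ((n' : ℚ⟦X⟧) * derivative ℚ Δ * Y i) =
            ∑ x ∈ antidiagonal c, coeff x.1 ((n' : ℚ⟦X⟧) * derivative ℚ Δ) *
              (h (A i) * coeff x.2 (Y i)) := by
          intro i
          rw [coeff_mul, Finset.mul_sum]
          refine Finset.sum_congr rfl fun x _ => ?_
          ring
        rw [Finset.sum_congr rfl fun i _ => this i, Finset.sum_comm]
        refine Finset.sum_eq_zero fun x hx => ?_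
        rw [← Finset.mul_sum, z1 x.2 (by
          have := mem_antidiagonal.1 hx
          omega), mul_zero]
      have e3 : ∑ i, h (A i) * coeff c (M i * Y i) =
          ∑ i, (h (A i) * ∑ j, (A i j : ℚ) * ν j) * coeff c (Y i) := by
        have h3 : ∀ i, h (A i) * coeff c (M i * Y i) =
            ∑ j', ∑ x ∈ antidiagonal c, coeff x.1 (μ j') *
              (((A i j' : ℚ) * h (A i)) * coeff x.2 (Y i)) := by
          intro i
          rw [hM]
          simp only []
          rw [Finset.sum_mul, map_sum, Finset.mul_sum]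
          refine Finset.sum_congr rfl fun j' _ => ?_
          rw [mul_assoc, coeff_C_mul, coeff_mul, Finset.mul_sum, Finset.mul_sum]
          refine Finset.sum_congr rfl fun x _ => ?_
          ring
        rw [Finset.sum_congr rfl fun i _ => h3 i, Finset.sum_comm]
        have h4 : ∀ j', ∑ i, ∑ x ∈ antidiagonal c, coeff x.1 (μ j') *
              (((A i j' : ℚ) * h (A i)) * coeff x.2 (Y i)) =
            ν j' * ∑ i, ((A i j' : ℚ) * h (A i)) * coeff c (Y i) := by
          intro j'
          rw [Finset.sum_comm, Finset.sum_eq_single (0, c)]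
          · rw [← Finset.mul_sum, hν]
            simp only [coeff_zero_eq_constantCoeff]
          · rintro ⟨x1, x2⟩ hx hne
            have hx' := mem_antidiagonal.1 hx
            simp only at hx'
            rw [← Finset.mul_sum]
            simp only
            rw [z2 j' x2 (by
              rcases Nat.eq_zero_or_pos x1 with h0 | h0
              · exact absurd (by rw [h0]; congr 1; omega) hne
              · omega), mul_zero]
          · intro hn
            exact absurd (HasAntidiagonal.mem_antidiagonal.2 (by simp)) hn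
        rw [Finset.sum_congr rfl fun j' _ => h4 j']
        simp only [Finset.mul_sum]
        rw [Finset.sum_comm]
        refine Finset.sum_congr rfl fun i _ => ?_
        rw [Finset.sum_mul]
        refine Finset.sum_congr rfl fun j' _ => ?_
        ring
      have e4 := ih (j + 1) c (by omega) (by omega) _ (SWL_lin hP ν hh)
      have e5 : ∀ i, h (A i) * coeff c (SWL_Y Δ (M i) (n' + 1) (y i)) =
          h (A i) * coeff c (Δ * derivative ℚ (Y i)) -
            h (A i) * coeff c ((n' : ℚ⟦X⟧) * derivative ℚ Δ * Y i) +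
              h (A i) * coeff c (M i * Y i) := by
        intro i
        rw [SWL_Y, SWL_op, map_add, map_sub]
        ring
      rw [Finset.sum_congr rfl fun i _ => e5 i, Finset.sum_add_distrib, Finset.sum_sub_distrib,
        e1, e2, e3, sub_zero, zero_add, e4]
      refine Finset.sum_congr rfl fun i _ => ?_
      rw [pow_succ]
      ring
  -- the end
  have hmem := SWL_pow hP ν hg (n - (e + 1))
  have hdeg : b - n + (n - (e + 1)) = b - (e + 1) := by omega
  rw [hdeg] at hmem
  have h3 := claim (e + 1) (b - (e + 1)) a (by omega) (by omega) _ hmem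
  have h4 : ∀ i, SWL_Y Δ (M i) (e + 1) (y i) = 0 := fun i =>
    SWL_Y_zero Δ (M i) e (w i) (φ i) (hφ i) (hw i)
  simp only [h4, map_zero, mul_zero, Finset.sum_const_zero] at h3
  rw [h3]
  refine Finset.sum_congr rfl fun i _ => ?_
  have h5 : (∑ j, (A i j : ℚ) * ν j) ^ n =
      (∑ j, (A i j : ℚ) * ν j) ^ (n - (e + 1)) * (∑ j, (A i j : ℚ) * ν j) ^ (e + 1) := by
    rw [← pow_add]
    congr 1
    omega
  change g (A i) * (∑ j, (A i j : ℚ) * ν j) ^ n * coeff a (y i) = _
  rw [h5]
  ring

end Pool.Agent.Work.MP_f1a024_nt.RL
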