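import Pool.Agent.Work.MP_f1a024_nt.RL.Stmts

/-!
# Block WL, item TRL (triangularity)
-/

namespace Pool.Agent.Work.MP_f1a024_nt.RL

open Finset MvPolynomial Filter
open Pool.Agent.Work.MP_f1a024_nt.RW

/-- monotone vectors of the same weight are equal -/
theorem TRL_eq {k : ℕ} (α β : VE k) (h : α ≤ β) (hw : wv β ≤ wv α) : α = β := by
  have h1 : ∀ j ∈ (univ : Finset (Fin (k + 1))), α j ≤ β j := fun j _ => h j
  have h2 : ∑ j, α j = ∑ j, β j := le_antisymm (Finset.sum_le_sum h1) hw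
  have h3 := (Finset.sum_eq_sum_iff_of_le h1).1 h2
  funext j
  exact h3 j (mem_univ j)

theorem prfTRL (h : PFL) : TRL := by
  intro k ι _ A z hA hz
  classical
  by_contra hne
  obtain ⟨i₁, hi₁⟩ := Function.ne_iff.1 hne
  have hS : (univ.filter fun i => z i ≠ 0).Nonempty :=
    ⟨i₁, by rw [mem_filter]; exact ⟨mem_univ _, hi₁⟩⟩
  obtain ⟨i, hi, hmax⟩ := Finset.exists_max_image _ (fun i => wv (A i)) hS
  have hi0 : z i ≠ 0 := (mem_filter.1 hi).2
  obtain ⟨-, -, -, -, h5, h6, -⟩ := h k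
  have hs := hz i
  rw [Finset.sum_eq_single i] at hs
  · rw [h6, mul_one] at hs
    exact hi0 hs
  · intro i' _ hii
    by_contra hm
    have hz' : z i' ≠ 0 := left_ne_zero_of_mul hm
    have hc : cbf (A i) (A i') ≠ 0 := right_ne_zero_of_mul hm
    have hle := h5 _ _ hc
    have hw := hmax i' (by rw [mem_filter]; exact ⟨mem_univ _, hz'⟩)
    exact hii (hA (TRL_eq _ _ hle hw)).symm
  · intro hn
    exact absurd (mem_univ i) hn

end Pool.Agent.Work.MP_f1a024_nt.RL

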