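import Pool.Agent.Work.MP_f1a024_nt.RL.Stmts
import Pool.Agent.Work.MP_f1a024_nt.RW.Z2

/-!
# Block WL, item ZFL: the zero estimate (helper90)
-/

set_option autoImplicit false

namespace Pool.Agent.Work.MP_f1a024_nt.RL

open Finset MvPolynomial Filter
open Pool.Agent.Work.MP_f1a024_nt.AH (tau PG val D1 D2 D4 D10a D10b)
open Pool.Agent.Work.MP_f1a024_nt.RW

/-- item ZFL -/
theorem prfZFL (hNB : NB) (hUB : UB) (hKAK : KAK) (hAKU : AKU) (hKQS : KQS) (hPQS : PQS)
    (h1 : PLL) (h2 : LRL) (h3 : RKL) (h4 : ACL) (h5 : KUL) (h6 : SEL) (h7 : LSL) (h8 : AKL)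
    (h9 : LLL) (h10 : EBL) (h11 : MUL) : ZFL := by
  classical
  intro hD k d s A hs hA hLS hmono
  obtain ⟨n0, nadd, npos, ninj, nex, -, nle, nfac, -, -⟩ := id hNB
  obtain ⟨-, -, u3, -, u5, -, -⟩ := id hUB
  -- the plans
  have plan : ∀ r : ℕ, ∃ n a : ℕ → ℕ, r < d + 1 → ∀ B, 1 ≤ B → (lv (Lr A r) B).Nonempty →
      1 ≤ a B ∧ a B ≤ B ∧ 1 ≤ n B ∧ n B ≤ k + 1 ∧ n B + B ≤ (lv (Lr A r) B).card + a B ∧
        GLv (Lr A r) B (n B) (a B) ∧ (a B = 1 ∨ n B = 1) ∧
        (2 ≤ B → a (B - 1) ≤ a B ∧ (a (B - 1) = a B → n B ≤ n (B - 1))) := by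
    intro r
    by_cases hr : r < d + 1
    · obtain ⟨n, a, h⟩ := h1 k (Lr A r) (h2 k d A hA hLS hmono r hr).1
      exact ⟨n, a, fun _ => h⟩
    · exact ⟨fun _ => 0, fun _ => 0, fun h => absurd h hr⟩
  choose n a hplan using plan
  obtain ⟨bw, hbw⟩ : ∃ bw : ℕ → ℕ, ∀ (r : ℕ) (hr : r < d + 1), bw r = wv (A ⟨r, hr⟩) :=
    ⟨fun r => if h : r < d + 1 then wv (A ⟨r, h⟩) else 0, fun r hr => dif_pos hr⟩
  set D : ℕ := wv (A (Fin.last d)) with hDdef
  have hwD : ∀ i, wv (A i) ≤ D := fun i => hmono (Fin.le_last i)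
  set Q : ℕ := 2 ^ ((D + k + 1) * (D + k + 2) / 2) with hQ
  set T : Finset (Fin Q) → ℕ → Submodule ℚ (Fin (d + 1) → ℚ) := fun J r =>
    if (∀ p ∈ J, ((p : ℕ)).Prime) ∧ (bw r = 0 ∨ J.card = n r (bw r)) then
      TL s A (J.image fun p : Fin Q => (p : ℕ)) (a r (bw r)) (bw r) else ⊤ with hT
  refine ⟨Q, T, fun J r hr => ?_, ?_⟩
  · -- dimensions
    have hr' : r < d + 1 := by omega
    by_cases hc : (∀ p ∈ J, ((p : ℕ)).Prime) ∧ (bw r = 0 ∨ J.card = n r (bw r))
    · have e1 : T J r = TL s A (J.image fun p : Fin Q => (p : ℕ)) (a r (bw r)) (bw r) := if_pos hc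
      rw [e1, hbw r hr']
      refine h3 k d s A hs hA hmono r hr' (h2 k d A hA hLS hmono r hr').1 (n r (bw r))
        (a r (wv (A ⟨r, hr'⟩))) _ ?_ ?_
      · intro p hp
        obtain ⟨p', hp', rfl⟩ := Finset.mem_image.1 hp
        exact hc.1 p' hp'
      · rcases Nat.eq_zero_or_pos (wv (A ⟨r, hr'⟩)) with h0 | h0
        · exact Or.inl h0
        · right
          have hp := hplan r hr' (wv (A ⟨r, hr'⟩)) h0
            ((h2 k d A hA hLS hmono r hr').2.2.2 _ le_rfl)
          have hcard : (J.image fun p : Fin Q => (p : ℕ)).card = n r (bw r) := by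
            rw [Finset.card_image_of_injective _ Fin.val_injective]
            rcases hc.2 with h | h
            · rw [hbw r hr'] at h
              omega
            · exact h
          refine ⟨hp.1, hp.2.1, hcard, ?_⟩
          rw [hbw r hr']
          exact hp.2.2.2.2.2.1
    · have e1 : T J r = ⊤ := if_neg hc
      rw [e1, finrank_top, Module.finrank_fin_fun]
      omega
  · -- the zero estimate
    intro r m u aa hrd hu hspan hdt
    have hr' : r < d + 1 := by omega
    obtain ⟨κ, ⟨i1, hi1⟩, hKM⟩ := hKAK d u hu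
    have hκup : κ ≤ up u := (u3 (u i1) κ hi1).trans (u5 _ u i1)
    obtain ⟨q, hqm, hqU, hqN⟩ := hKQS k κ (up u) hκup
    set z : Fin (d + 1) → ℚ := fun i => (u i).coeff κ with hz
    have hz0 : z ≠ 0 := fun h => MvPolynomial.mem_support_iff.1 hi1 (congrFun h i1)
    have hza : ∀ l, ∑ i, z i * (aa l i : ℚ) = 0 := fun l => by
      have h := Z2_coeff_dt u (aa l) κ
      rw [hdt l, MvPolynomial.coeff_zero] at h
      exact h.symm
    have hNup : nn κ ≤ nn (up u) := Nat.le_of_dvd (npos _) ((nle _ _).1 hκup)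
    have h2r : 1 ≤ 2 ^ r := Nat.one_le_two_pow
    have key : ∃ X : ℕ, uvJ (fW s A) u X ≠ 0 ∧ X ≤ 2 ^ r * nn (up u) := by
      by_contra hcon
      push Not at hcon
      have hall : ∀ X ≤ 2 ^ r * nn (up u), uvJ (fW s A) u X = 0 := by
        intro X hX
        by_contra h
        exact absurd (hcon X h) (not_lt.2 hX)
      rcases Nat.lt_or_ge (q (Fin.last k) : ℕ) Q with hlt | hge
      · rcases Nat.eq_zero_or_pos (bw r) with hb0 | hb0
        · -- `b = 0`
          refine hz0 (hspan ∅ z ?_ hza)
          have e1 : T ∅ r = TL s A ((∅ : Finset (Fin Q)).image fun p : Fin Q => (p : ℕ))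
              (a r (bw r)) (bw r) :=
            if_pos ⟨fun p hp => absurd hp (Finset.notMem_empty p), Or.inl hb0⟩
          rw [e1, hb0, Finset.image_empty]
          intro t ht
          unfold TL at ht
          induction ht using Submodule.span_induction with
          | mem t ht =>
            rcases ht with ⟨h, hh, rfl⟩ | ⟨p, hp, -⟩
            · have h12 := h10 hD k d s A u κ (fun _ => 0) (fun _ => 0) (fun _ => 0) (fun _ => ∅)
                (nn κ + 1) 0 hs hA hLS hKM (fun B hB1 hB2 => by omega)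
                (fun B B' hB1 hB2 hB3 => by omega) (fun B B' hB1 hB2 hB3 => by omega)
                (fun k' hk' => hall k' (by
                  calc k' ≤ nn κ := by omega
                    _ ≤ nn (up u) := hNup
                    _ ≤ 2 ^ r * nn (up u) := Nat.le_mul_of_pos_left _ h2r))
                0 (fun B hB1 hB2 => by omega) (by rw [n0]; simp) h hh
              have h13 := h8 d (fW s A) u κ 0 hKM (fun π hπ => by simp at hπ)
              rw [← h12]
              refine Finset.sum_congr rfl fun i _ => ?_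
              rw [h13 i, n0, (h11 hD k d s A i).map_one, mul_one, mul_comm]
            · exact absurd hp (Finset.notMem_empty p)
          | zero => simp
          | add x y _ _ hx hy =>
            have : ∑ i, z i * (x + y) i = ∑ i, z i * x i + ∑ i, z i * y i := by
              rw [← Finset.sum_add_distrib]
              exact Finset.sum_congr rfl fun i _ => by rw [Pi.add_apply]; ring
            rw [this, hx, hy, add_zero]
          | smul c x _ hx =>
            have : ∑ i, z i * (c • x) i = c * ∑ i, z i * x i := by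
              rw [Finset.mul_sum]
              exact Finset.sum_congr rfl fun i _ => by rw [Pi.smul_apply, smul_eq_mul]; ring
            rw [this, hx, mul_zero]
        · -- `b ≥ 1`
          obtain ⟨hL1, hL2, hL3, hL4⟩ := h2 k d A hA hLS hmono r hr'
          rw [← hbw r hr'] at hL2 hL3 hL4
          have hp : ∀ B, 1 ≤ B → B ≤ bw r → _ := fun B hB1 hB2 => hplan r hr' B hB1 (hL4 B hB2)
          obtain ⟨S, x, hS1, hS2, hS3⟩ := h6 k (bw r) κ (up u) q (n r) (a r) hκup hqm hqU
            (fun B hB1 hB2 => by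
              obtain ⟨g1, g2, g3, g4, g5, g6, g7, g8⟩ := hp B hB1 hB2
              exact ⟨g1, g3, g4, g7, g8⟩)
          have hacc := h4 (bw r) (q (Fin.last k) : ℕ) (eW κ (up u)) (n r) (a r) x
            (fun B hB1 hB2 => by
              obtain ⟨g1, g2, g3, g4, g5, g6, g7, g8⟩ := hp B hB1 hB2
              obtain ⟨s1, s2, s3, s4⟩ := hS1 B hB1 hB2
              exact ⟨g1, g2, s2, s4⟩)
          have hsum : ∑ B ∈ Icc 1 (bw r), (n r B + B - a r B) ≤ r := by
            calc ∑ B ∈ Icc 1 (bw r), (n r B + B - a r B) ≤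
                  ∑ B ∈ Icc 1 (bw r), (lv (Lr A r) B).card := by
                  refine Finset.sum_le_sum fun B hB => ?_
                  have hB' := Finset.mem_Icc.1 hB
                  obtain ⟨g1, g2, g3, g4, g5, g6, g7, g8⟩ := hp B hB'.1 hB'.2
                  omega
              _ = r := hL3
          have hcost : nn κ * ∏ B ∈ Icc 1 (bw r), x B ≤ 2 ^ r * nn (up u) := by
            calc nn κ * ∏ B ∈ Icc 1 (bw r), x B ≤
                  nn κ * (2 ^ r * ∏ p ∈ (range (q (Fin.last k) : ℕ)).filter Nat.Prime,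
                    p ^ eW κ (up u) p) := by
                  refine Nat.mul_le_mul_left _ (hacc.trans ?_)
                  exact Nat.mul_le_mul_right _ (Nat.pow_le_pow_right two_pos hsum)
              _ = 2 ^ r * (nn κ * ∏ p ∈ (range (q (Fin.last k) : ℕ)).filter Nat.Prime,
                    p ^ eW κ (up u) p) := by ring
              _ ≤ 2 ^ r * nn (up u) := Nat.mul_le_mul_left _ (h5 κ (up u) _ hκup)
          have hlast := h7 hD k d s A u κ (n r) (a r) x S
            (nn κ * ∏ B ∈ Icc 1 (bw r), x B + 1) (bw r) hs hA hLS hKM hb0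
            (fun B hB1 hB2 => by
              obtain ⟨g1, g2, g3, g4, g5, g6, g7, g8⟩ := hp B hB1 hB2
              obtain ⟨s1, s2, s3, s4⟩ := hS1 B hB1 hB2
              exact ⟨g1, g2, g3, fun hlt' => hL2 B (n r B) (a r B) hB1 hlt' g6, s1, s3⟩)
            hS2 hS3 (fun k' hk' => hall k' (by omega)) (by omega)
          have hSQ : ∀ p ∈ S (bw r), (p : ℕ) < Q := fun p hp' => by
            obtain ⟨s1, s2, s3, s4⟩ := hS1 (bw r) hb0 le_rfl
            have := (s3 p hp').2
            omega
          set J : Finset (Fin Q) := univ.filter fun i => ∃ p ∈ S (bw r), (p : ℕ) = (i : ℕ) with hJ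
          have hJim : (J.image fun p : Fin Q => (p : ℕ)) =
              (S (bw r)).image fun p : Nat.Primes => (p : ℕ) := by
            ext y
            simp only [Finset.mem_image, hJ, Finset.mem_filter, Finset.mem_univ, true_and]
            constructor
            · rintro ⟨i, ⟨p, hp', hpi⟩, rfl⟩
              exact ⟨p, hp', hpi⟩
            · rintro ⟨p, hp', rfl⟩
              exact ⟨⟨(p : ℕ), hSQ p hp'⟩, ⟨p, hp', rfl⟩, rfl⟩
          have hJcard : J.card = n r (bw r) := by
            have e1 : (J.image fun p : Fin Q => (p : ℕ)).card = J.card :=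
              Finset.card_image_of_injective _ Fin.val_injective
            have e2 : ((S (bw r)).image fun p : Nat.Primes => (p : ℕ)).card = (S (bw r)).card :=
              Finset.card_image_of_injective _ Nat.Primes.coe_nat_injective
            rw [← e1, hJim, e2]
            exact (hS1 (bw r) hb0 le_rfl).1
          have hJp : ∀ p ∈ J, ((p : ℕ)).Prime := by
            intro i hi
            obtain ⟨p, -, hpi⟩ := (Finset.mem_filter.1 hi).2
            rw [← hpi]
            exact p.2
          refine hz0 (hspan J z ?_ hza)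
          have e1 : T J r = TL s A (J.image fun p : Fin Q => (p : ℕ)) (a r (bw r)) (bw r) :=
            if_pos ⟨hJp, Or.inr hJcard⟩
          rw [e1, hJim]
          exact hlast
      · -- many free primes are large
        have hex : ∃ e : Fin (k + 1) → ℕ, ∑ j, e j ≤ D ∧
            ∑ i, z i * fW s A i (∏ j, ((q j : ℕ)) ^ e j) ≠ 0 := by
          by_contra hc
          push Not at hc
          exact hz0 (h9 hD k D d s A hs hA hwD (fun j => (q j : ℕ)) hqm.injective
            (fun j => (q j).2) z hc)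
        obtain ⟨e, he, hne⟩ := hex
        have hMpos : 0 < ∏ j, ((q j : ℕ)) ^ e j :=
          Finset.prod_pos fun j _ => pow_pos (q j).2.pos _
        set m' : Ex := ex (∏ j, ((q j : ℕ)) ^ e j) with hm'
        have hnm : nn m' = ∏ j, ((q j : ℕ)) ^ e j := nex _ hMpos
        have hsupp : ∀ π ∈ m'.support, up u π = κ π := by
          intro π hπ
          have g1 : m' π ≠ 0 := Finsupp.mem_support_iff.1 hπ
          rw [← nfac m' π, hnm] at g1
          have g2 : (π : ℕ) ∣ ∏ j, ((q j : ℕ)) ^ e j := by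
            by_contra hnd
            exact g1 (Nat.factorization_eq_zero_of_not_dvd hnd)
          obtain ⟨j, -, hj⟩ := (Nat.Prime.prime π.2).exists_mem_finset_dvd g2
          have g3 : (π : ℕ) = (q j : ℕ) :=
            (Nat.prime_dvd_prime_iff_eq π.2 (q j).2).1 (π.2.dvd_of_dvd_pow hj)
          have g4 : π = q j := Nat.Primes.coe_nat_injective g3
          rw [g4]
          exact hqU j
        have hval : uvJ (fW s A) u (nn (κ + m')) =
            ∑ i, z i * fW s A i (∏ j, ((q j : ℕ)) ^ e j) := by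
          rw [hAKU]
          refine Finset.sum_congr rfl fun i _ => ?_
          rw [h8 d (fW s A) u κ m' hKM hsupp i, hnm]
        refine hne (hval ▸ hall _ ?_)
        have g5 := hPQS k D (fun j => (q j : ℕ)) hqm (fun j => (q j).2) hge
        have g6 : ∏ j, ((q j : ℕ)) ^ e j ≤ (q (Fin.last k) : ℕ) ^ D := by
          calc ∏ j, ((q j : ℕ)) ^ e j ≤ ∏ j, ((q (Fin.last k) : ℕ)) ^ e j :=
                Finset.prod_le_prod' fun j _ =>
                  Nat.pow_le_pow_left (hqm.monotone (Fin.le_last j)) _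
            _ = (q (Fin.last k) : ℕ) ^ ∑ j, e j := Finset.prod_pow_eq_pow_sum _ _ _
            _ ≤ (q (Fin.last k) : ℕ) ^ D := Nat.pow_le_pow_right (q _).2.pos he
        rw [nadd, hnm]
        calc nn κ * ∏ j, ((q j : ℕ)) ^ e j ≤ nn κ * ga k (fun j => (q j : ℕ)) :=
              Nat.mul_le_mul_left _ (g6.trans g5)
          _ ≤ nn (up u) := hqN
          _ ≤ 2 ^ r * nn (up u) := Nat.le_mul_of_pos_left _ h2r
    obtain ⟨X, hX1, hX2⟩ := key
    have hex : ∃ k', uvJ (fW s A) u k' ≠ 0 := ⟨X, hX1⟩
    refine ⟨Nat.find hex, Nat.find_spec hex, fun k' hk => ?_, ?_⟩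
    · by_contra h
      exact Nat.find_min hex hk h
    · have h12 : Nat.find hex ≤ 2 ^ r * nn (up u) := (Nat.find_min' hex hX1).trans hX2
      change ((Nat.find hex : ℕ) : ℝ) ≤ (2 : ℝ) ^ r * ((nn (up u) : ℕ) : ℝ)
      exact_mod_cast h12

end Pool.Agent.Work.MP_f1a024_nt.RL
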