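import Pool.Agent.Work.MP_f1a024_nt.RW.FinalS
import Pool.Agent.Work.MP_f1a024_nt.RL.PFL
import Pool.Agent.Work.MP_f1a024_nt.RL.EXL
import Pool.Agent.Work.MP_f1a024_nt.RL.LTL
import Pool.Agent.Work.MP_f1a024_nt.RL.LFL
import Pool.Agent.Work.MP_f1a024_nt.RL.TRL
import Pool.Agent.Work.MP_f1a024_nt.RL.SPL
import Pool.Agent.Work.MP_f1a024_nt.RL.SSL
import Pool.Agent.Work.MP_f1a024_nt.RL.PLL
import Pool.Agent.Work.MP_f1a024_nt.RL.LRL
import Pool.Agent.Work.MP_f1a024_nt.RL.RKL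
import Pool.Agent.Work.MP_f1a024_nt.RL.ACL
import Pool.Agent.Work.MP_f1a024_nt.RL.KUL
import Pool.Agent.Work.MP_f1a024_nt.RL.SEL
import Pool.Agent.Work.MP_f1a024_nt.RL.SWL
import Pool.Agent.Work.MP_f1a024_nt.RL.MUL
import Pool.Agent.Work.MP_f1a024_nt.RL.ODL
import Pool.Agent.Work.MP_f1a024_nt.RL.STL
import Pool.Agent.Work.MP_f1a024_nt.RL.EBL
import Pool.Agent.Work.MP_f1a024_nt.RL.AKL
import Pool.Agent.Work.MP_f1a024_nt.RL.LSL
import Pool.Agent.Work.MP_f1a024_nt.RL.LLL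
import Pool.Agent.Work.MP_f1a024_nt.RL.ZFL
import Pool.Agent.Work.MP_f1a024_nt.RL.SUL
import Pool.Agent.Work.MP_f1a024_nt.RL.VLL
import Pool.Agent.Work.MP_f1a024_nt.RL.ORL
import Pool.Agent.Work.MP_f1a024_nt.RL.POL
import Pool.Agent.Work.MP_f1a024_nt.RL.MTL
import Pool.Agent.Work.MP_f1a024_nt.RL.OPL

/-!
# Block WL: assembly of THEOREM WL (every lower set of exponents)
-/

namespace Pool.Agent.Work.MP_f1a024_nt.RL

open Pool.Agent.Work.MP_f1a024_nt.AH Pool.Agent.Work.MP_f1a024_nt.RW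

theorem dejl : DEJ := prfDEJ
theorem ltl : LTL := prfLTL prfPFL (prfEXL prfPFL)
theorem lfl : LFL := prfLFL prfPFL prfDEJ
theorem trl : TRL := prfTRL prfPFL
theorem pll : PLL := prfPLL prfPFL (prfSPL prfPFL) (prfSSL prfPFL)
theorem rkl : RKL := prfRKL prfPFL ltl lfl trl
theorem mul : MUL := prfMUL prfMUK
theorem stl : STL := prfSTL (prfFAK nb ub) mul (prfODL psj' (prfODK psj')) (prfSWL prfPFL)
theorem ebl : EBL := prfEBL nb ub (prfAKU nb) stl ltl lfl prfPFL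
theorem akl : AKL := prfAKL nb ub
theorem lsl : LSL := prfLSL nb ub akl stl ebl mul
theorem lll : LLL := prfLLL lbj' prfORJ prfPFL trl
theorem zfl : ZFL := prfZFL nb ub prfKAK (prfAKU nb) (prfKQS nb) (prfPQS prfPBJ) pll prfLRL rkl
  (prfACL prfGML) (prfKUL nb) prfSEL lsl akl lll ebl mul
theorem mtl : MTL := prfMTL prfD1 prfD2 d10a prfD10b prfORL zfl prfSUL prfVLL prfPOL mrf
theorem opl : OPL := prfOPL prfSIG prfNRS

/-- both parameters are optimal -/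
theorem opl' : ∀ (k : ℕ) (s : Fin (k + 1) → ℕ) (Λ : Finset (Fin (k + 1) →₀ ℕ)),
    2 ≤ Λ.card → ∃ (C : ℝ) (M : ℕ), ∀ n ≥ M,
    ∀ H : ℝ, 1 ≤ H → ∃ P : MvPolynomial (Fin (k + 1)) ℤ, P ≠ 0 ∧ P.support ⊆ Λ ∧
      (∀ I, |((P.coeff I : ℤ) : ℝ)| ≤ H) ∧
      ‖MvPolynomial.aeval (fun j => riemannZeta (2 * ((n + s j : ℕ) : ℂ)) /
          riemannZeta ((n + s j : ℕ) : ℂ) ^ 2) P‖ ≤
        C * (H ^ (Λ.card - 1))⁻¹ * min 1 (H / 2 ^ n) := opl d4 d10a prfD10b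

end Pool.Agent.Work.MP_f1a024_nt.RL
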