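import Pool.Agent.Work.MP_f1a024_nt.RL.Stmts

/-!
# Block WL, item LLL: the local lemma for free primes
-/

set_option autoImplicit false

namespace Pool.Agent.Work.MP_f1a024_nt.RL

open Finset MvPolynomial Filter
open Pool.Agent.Work.MP_f1a024_nt.AH (tau PG val D1 D2 D4 D10a D10b)
open Pool.Agent.Work.MP_f1a024_nt.RW

/-- the exponent as an element of the box -/
def LLL_box {k D d : ℕ} (A : Fin (d + 1) → VE k) (hA : ∀ i, wv (A i) ≤ D) (i : Fin (d + 1)) :
    Fin (k + 1) → Fin (D + 1) := fun j =>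
  ⟨A i j, Nat.lt_succ_of_le ((Finset.single_le_sum (f := fun j => A i j)
    (fun _ _ => Nat.zero_le _) (Finset.mem_univ j)).trans (hA i))⟩

open Classical in
/-- extension by zero of a vector to the box -/
noncomputable def LLL_ext {k D d : ℕ} (A : Fin (d + 1) → VE k) (z : Fin (d + 1) → ℚ)
    (α : Fin (k + 1) → Fin (D + 1)) : ℚ :=
  ∑ i, if A i = (fun j => (α j : ℕ)) then z i else 0

/-- sums over the box -/
theorem LLL_sum {k D d d' : ℕ} (A : Fin (d + 1) → VE k) (hA : ∀ i, wv (A i) ≤ D)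
    (A' : Fin (d' + 1) ≃ (Fin (k + 1) → Fin (D + 1))) (z : Fin (d + 1) → ℚ)
    (g : (Fin (k + 1) → Fin (D + 1)) → ℚ) :
    ∑ i', LLL_ext A z (A' i') * g (A' i') = ∑ i, z i * g (LLL_box A hA i) := by
  classical
  rw [Equiv.sum_comp A' (fun α => LLL_ext A z α * g α)]
  have h1 : ∀ α : Fin (k + 1) → Fin (D + 1), LLL_ext A z α * g α =
      ∑ i, if LLL_box A hA i = α then z i * g α else 0 := by
    intro α
    unfold LLL_ext
    rw [Finset.sum_mul]
    refine Finset.sum_congr rfl fun i _ => ?_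
    have h2 : A i = (fun j => (α j : ℕ)) ↔ LLL_box A hA i = α := by
      constructor
      · intro h
        funext j
        apply Fin.ext
        exact congrFun h j
      · intro h
        funext j
        rw [← h]
        rfl
    by_cases h3 : LLL_box A hA i = α
    · rw [if_pos (h2.2 h3), if_pos h3]
    · rw [if_neg (fun h => h3 (h2.1 h)), if_neg h3, zero_mul]
  rw [Finset.sum_congr rfl fun α _ => h1 α, Finset.sum_comm]
  refine Finset.sum_congr rfl fun i _ => ?_
  rw [Finset.sum_ite_eq]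
  simp

/-- the orthogonality relations -/
theorem LLL_rel (h1 : LBJ) (h2 : ORJ) (hD : D10b) {k D d : ℕ} {s : Fin (k + 1) → ℕ}
    {A : Fin (d + 1) → VE k} (hA : ∀ i, wv (A i) ≤ D) (hs : Function.Injective s)
    {q : Fin (k + 1) → ℕ} (hq : Function.Injective q) (hqp : ∀ j, (q j).Prime)
    {z : Fin (d + 1) → ℚ}
    (hz : ∀ e : Fin (k + 1) → ℕ, ∑ j, e j ≤ D → ∑ i, z i * fW s A i (∏ j, q j ^ e j) = 0)
    (i₀ : Fin (d + 1)) : ∑ i, z i * cbf (A i₀) (A i) = 0 := by
  obtain ⟨A', hA'⟩ := h2 k D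
  set α := LLL_box A hA i₀ with hα
  have hr : A' (A'.symm α) = α := Equiv.apply_symm_apply _ _
  have hw : wt α ≤ D := hA i₀
  have hc : cJ A' (A'.symm α : ℕ) ≤ D := by
    rw [cJ, dif_pos (A'.symm α).2]
    show wt (A' (A'.symm α)) ≤ D
    rw [hr]
    exact hw
  have h3 := h1 hD k D _ s A' hs hA' (A'.symm α : ℕ) (Nat.lt_succ_iff.1 (A'.symm α).2) q hq
    hqp (fun i' => LLL_ext A z (A' i')) (fun e he => by
      have h4 := LLL_sum A hA A' z
        (fun β => (∏ j, ft (s j) ^ (β j : ℕ) : ArithmeticFunction ℚ) (∏ j, q j ^ e j))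
      exact h4.trans (hz e (he.trans hc)))
    (fun i' => bi (A' (A'.symm α)) (A' i'))
    (Submodule.subset_span ⟨A'.symm α, le_rfl, rfl⟩)
  rw [hr] at h3
  exact (LLL_sum A hA A' z (bi α)).symm.trans h3

/-- item LLL -/
theorem prfLLL (h1 : LBJ) (h2 : ORJ) (_h3 : PFL) (h4 : TRL) : LLL := by
  intro hD k D d s A hs hAi hA q hq hqp z hz
  exact h4 k (Fin (d + 1)) A z hAi fun i => LLL_rel h1 h2 hD hA hs hq hqp hz i

end Pool.Agent.Work.MP_f1a024_nt.RL
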