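import Pool.Agent.Work.MP_f1a024_nt.RL.Stmts

/-!
# Block WL, item RKL: the dimension of the flag
-/

namespace Pool.Agent.Work.MP_f1a024_nt.RL

open Finset
open Pool.Agent.Work.MP_f1a024_nt.RW

/-- A subspace of dimension at most `r` has a relation among the first `r + 1` coordinates. -/
theorem RKL_rel {r d : ℕ} (hr : r + 1 ≤ d + 1) (T : Submodule ℚ (Fin (d + 1) → ℚ))
    (hT : Module.finrank ℚ T < r + 1) :
    ∃ z : Fin (r + 1) → ℚ, z ≠ 0 ∧ ∀ t ∈ T, ∑ i, z i * t (Fin.castLE hr i) = 0 := by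
  let res : (Fin (d + 1) → ℚ) →ₗ[ℚ] (Fin (r + 1) → ℚ) := LinearMap.funLeft ℚ ℚ (Fin.castLE hr)
  have hlt : T.map res < ⊤ := by
    rw [lt_top_iff_ne_top]
    intro h
    have h1 : Module.finrank ℚ (T.map res) ≤ Module.finrank ℚ T := Submodule.finrank_map_le res T
    rw [h, finrank_top, Module.finrank_fin_fun] at h1
    omega
  obtain ⟨φ, φne, hφ⟩ := Submodule.exists_dual_map_eq_bot_of_lt_top hlt inferInstance
  have hsum : ∀ x : Fin (r + 1) → ℚ, ∑ i, φ (Pi.single i 1) * x i = φ x := by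
    intro x
    have hx : x = ∑ i, (Pi.single i (x i) : Fin (r + 1) → ℚ) := (Finset.univ_sum_single x).symm
    conv_rhs => rw [hx]
    rw [map_sum]
    refine Finset.sum_congr rfl fun i _ => ?_
    have : (Pi.single i (x i) : Fin (r + 1) → ℚ) = x i • Pi.single i 1 := by
      rw [← Pi.single_smul, smul_eq_mul, mul_one]
    rw [this, map_smul, smul_eq_mul, mul_comm]
  refine ⟨fun i => φ (Pi.single i 1), ?_, ?_⟩
  · intro hz
    apply φne
    ext x
    have h := hsum (Pi.single x 1)
    have hz' : ∀ i, φ (Pi.single i 1) = 0 := fun i => congrFun hz i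
    simp [hz']
  · intro t ht
    have h1 : φ (res t) ∈ (T.map res).map φ := ⟨res t, ⟨t, ht, rfl⟩, rfl⟩
    rw [hφ] at h1
    have h2 : φ (res t) = 0 := by simpa using h1
    rw [← h2, ← hsum (res t)]
    rfl

theorem prfRKL (h1 : PFL) (h2 : LTL) (h3 : LFL) (h4 : TRL) : RKL := by
  intro k d s A hs hA hmono r hr hLS n a S hS hcase
  by_contra hcon
  have hlt : Module.finrank ℚ (TL s A S a (wv (A ⟨r, hr⟩))) < r + 1 := by omega
  set b := wv (A ⟨r, hr⟩) with hb
  obtain ⟨z, hz0, hz⟩ := RKL_rel (Nat.succ_le_of_lt hr) _ hlt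
  obtain ⟨f1, f2, f3, f4, f5, f6, f7, f8, f9⟩ := h1 k
  set A' : Fin (r + 1) → VE k := fun i => A (Fin.castLE (Nat.succ_le_of_lt hr) i) with hA'
  have hA'inj : Function.Injective A' := fun i j hij => by
    have := hA hij
    exact Fin.castLE_injective _ this
  have hwt : ∀ i, wv (A' i) ≤ b := by
    intro i
    refine hmono ?_
    rw [Fin.le_def]
    simp only [Fin.val_castLE]
    omega
  have hmem : ∀ i, A' i ∈ Lr A r := by
    intro i
    refine mem_image.2 ⟨Fin.castLE (Nat.succ_le_of_lt hr) i, ?_, rfl⟩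
    simp only [mem_filter, mem_univ, true_and, Fin.val_castLE]
    omega
  -- `z` is orthogonal to the generators
  have hz1 : ∀ h ∈ PF k (b - 1), ∑ i, z i * h (A' i) = 0 := by
    intro h hh
    exact hz (fun i => h (A i)) (Submodule.subset_span (Or.inl ⟨h, hh, rfl⟩))
  have hz2 : ∀ p ∈ S, ∀ g ∈ PF k (b - a), ∑ i, z i * (g (A' i) * Lw s p (A' i) ^ a) = 0 := by
    intro p hp g hg
    exact hz (fun i => g (A i) * Lw s p (A i) ^ a)
      (Submodule.subset_span (Or.inr ⟨p, hp, g, hg, rfl⟩))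
  have key : ∀ h ∈ PF k b, ∑ i, z i * h (A' i) = 0 := by
    rcases hcase with h0 | ⟨ha1, hab, hSn, hG⟩
    · intro h hh
      refine hz1 h ?_
      rw [h0] at hh ⊢
      exact hh
    · rcases hG with ⟨ha, hnb⟩ | ⟨hn, hsep⟩
      · subst ha
        refine h3 k (Fin (r + 1)) A' (Lr A r) z b s S hLS hmem hab hs
          (fun p hp => (hS p hp).pos) ?_ hz1 ?_
        · intro γ hγ hγb
          rw [hSn]
          exact hnb γ hγ hγb
        · intro p hp g hg
          have := hz2 p hp g hg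
          simpa only [pow_one] using this
      · rw [hn, Finset.card_eq_one] at hSn
        obtain ⟨p, rfl⟩ := hSn
        have hp : p.Prime := hS p (mem_singleton_self p)
        have hp0 : (p : ℚ) ≠ 0 := by exact_mod_cast hp.ne_zero
        refine h2 k (Fin (r + 1)) A' (Lr A r) z b a (fun j => ((p : ℚ) ^ s j)⁻¹) hLS hmem ha1 hab
          (fun j => inv_ne_zero (pow_ne_zero _ hp0)) hsep hz1 ?_
        intro g hg
        have := hz2 p (mem_singleton_self p) g hg
        rw [← this]
        refine Finset.sum_congr rfl fun i _ => ?_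
        have hL : (∑ j, ((p : ℚ) ^ s j)⁻¹ * (A' i j : ℚ)) = Lw s p (A' i) := by
          unfold Lw
          refine Finset.sum_congr rfl fun j _ => ?_
          rw [div_eq_mul_inv, mul_comm]
        rw [hL]
  refine hz0 (h4 k (Fin (r + 1)) A' z hA'inj fun i => ?_)
  exact key _ (f9 b (A' i) (hwt i))

end Pool.Agent.Work.MP_f1a024_nt.RL
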