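import Pool.Agent.Work.MP_f1a024_nt.RW.StmtsS

/-!
# Block WL: statements (sharp threshold and exponent for every lower set of exponents)

THEOREM WL. Let `t(n) = ζ(2n)/ζ(n)^2`, `s_0, .., s_k` different integers `≥ 0`, `Λ` a finite set of
exponents `α ∈ ℕ^(k+1)` closed downwards (`β ≤ α ∈ Λ ⟹ β ∈ Λ`), `N = #Λ`. For every `B`, `ε > 0`, all
large `n`, all `H` with `2^n ≤ H ≤ B^n` and all nonzero integer polynomials `P` with exponents in `Λ`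
and coefficients at most `H`, `|P(t(n + s_0), .., t(n + s_k))| ≥ e^(-εn) H^(-(N-1))`. Exponent and
threshold are optimal for all `Λ` with `N ≥ 2`.

Notation in the proofs. Polynomial functions on `ℕ^(k+1)` are combinations of the products
`cbf γ α = ∏_j C(α_j, γ_j)`; `PF k n` are those of degree `≤ n`. `|γ| = wv γ`. Levels:
`lv Λ b = {γ ∈ Λ : |γ| = b}`. `A i`, `i ≤ d`, are the elements of `Λ`, `f_i = ∏_j f_{s_j}^(A_i j)`, `κ` is an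
exponent which is minimal in the sense `KM`, `U = up u`, `e_p = U_p - κ_p`, a prime is free if `e_p = 0`.
`S_h(m) = ∑_i h(A_i) AK_i(κ + m)` for a polynomial function `h`. The main induction (EBL): `S_h(m) = 0` for
`deg h ≤ b` if `N(κ) N(m) x_1 ⋯ x_b < k₃`. At level `b` the relations of one prime `p` (STL) are
`S_{g L_p^a}(m) = 0`, `deg g ≤ b - a`, `e_p < a`, `L_p(α) = ∑_j α_j p^(-s_j)`. A level is killed (LTL, LFL)
either by one prime, if polynomials of degree `≤ b - a` separate its points, or by `n` free primes if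
no point of level `b - 1` has more than `n` upper neighbours.

Every item may assume the items it quotes, as hypotheses (`theorem prfSTL (h : FAK) .. : STL`), also
items of `RW/*.lean` (NB, UB, FAK, ODK, MUK, LBJ, GML, ...). Please put the name of your item in
the names of all auxiliary lemmas (they are all in the same namespace).
-/

namespace Pool.Agent.Work.MP_f1a024_nt.RL

open Finset MvPolynomial Filter
open Pool.Agent.Work.MP_f1a024_nt.AH (tau PG val D1 D2 D4 D10a D10b)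
open Pool.Agent.Work.MP_f1a024_nt.RW

/-! ## Definitions -/

/-- exponents -/
abbrev VE (k : ℕ) : Type := Fin (k + 1) → ℕ

/-- the weight `|α|` -/
def wv {k : ℕ} (α : VE k) : ℕ := ∑ j, α j

/-- the unit vector -/
def uv1 {k : ℕ} (j : Fin (k + 1)) : VE k := fun i => if i = j then 1 else 0

/-- the product `∏_j C(α_j, γ_j)` -/
def cbf {k : ℕ} (γ α : VE k) : ℚ := ∏ j, (((α j).choose (γ j) : ℕ) : ℚ)

/-- the polynomial functions of degree at most `n` -/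
def PF (k n : ℕ) : Submodule ℚ (VE k → ℚ) :=
  Submodule.span ℚ {h | ∃ γ : VE k, wv γ ≤ n ∧ h = cbf γ}

/-- the linear form `∑_j α_j p^(-s_j)` -/
def Lw {k : ℕ} (s : Fin (k + 1) → ℕ) (p : ℕ) (α : VE k) : ℚ := ∑ j, (α j : ℚ) / (p : ℚ) ^ s j

/-- `Λ` is closed downwards -/
def LS {k : ℕ} (Λ : Finset (VE k)) : Prop := ∀ α ∈ Λ, ∀ β : VE k, β ≤ α → β ∈ Λ

/-- the elements of weight `b` -/
def lv {k : ℕ} (Λ : Finset (VE k)) (b : ℕ) : Finset (VE k) := Λ.filter fun γ => wv γ = b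

/-- polynomials of degree at most `c` separate the points of `E` -/
def SepE {k : ℕ} (E : Finset (VE k)) (c : ℕ) : Prop :=
  ∀ γ ∈ E, ∃ h ∈ PF k c, h γ ≠ 0 ∧ ∀ γ' ∈ E, γ' ≠ γ → h γ' = 0

/-- the number of upper neighbours of `γ` in `Λ` -/
def nbr {k : ℕ} (Λ : Finset (VE k)) (γ : VE k) : ℕ := (univ.filter fun j => γ + uv1 j ∈ Λ).card

/-- the level `b` can be killed by `n` primes with `e_p < a` -/
def GLv {k : ℕ} (Λ : Finset (VE k)) (b n a : ℕ) : Prop :=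
  (a = 1 ∧ ∀ γ ∈ Λ, wv γ + 1 = b → nbr Λ γ ≤ n) ∨ (n = 1 ∧ SepE (lv Λ b) (b - a))

/-- the family of the products `∏_j (f_{s_j}) ^ (α_j)` -/
noncomputable def fW {k d : ℕ} (s : Fin (k + 1) → ℕ) (A : Fin (d + 1) → VE k)
    (i : Fin (d + 1)) : ArithmeticFunction ℚ :=
  ∏ j, ft (s j) ^ (A i j)

/-- the flag of the primes in `S`: all polynomials of degree `< b`, and the multiples of degree
`≤ b` of `L_p^a`, `p ∈ S` (as functions on the `A i`) -/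
def TL {k d : ℕ} (s : Fin (k + 1) → ℕ) (A : Fin (d + 1) → VE k) (S : Finset ℕ) (a b : ℕ) :
    Submodule ℚ (Fin (d + 1) → ℚ) :=
  Submodule.span ℚ ({t | ∃ h ∈ PF k (b - 1), t = fun i => h (A i)} ∪
    {t | ∃ p ∈ S, ∃ g ∈ PF k (b - a), t = fun i => g (A i) * Lw s p (A i) ^ a})

/-- the first `r + 1` elements -/
def Lr {k d : ℕ} (A : Fin (d + 1) → VE k) (r : ℕ) : Finset (VE k) :=
  (univ.filter fun i : Fin (d + 1) => (i : ℕ) ≤ r).image A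

/-- the difference `U_p - κ_p` -/
noncomputable def eW (κ U : Ex) (p : ℕ) : ℕ :=
  if h : p.Prime then U ⟨p, h⟩ - κ ⟨p, h⟩ else 0

/-! ## Part F: polynomial functions -/

/-- PFL (EASY-MEDIUM): basic facts. (1) spans. (5) `C(a, c) ≠ 0 ⟹ c ≤ a`; `C(c, c) = 1`. (6)
`a C(a, c) = (c+1) C(a, c+1) + c C(a, c)` (`Nat.succ_mul_choose_eq`/`Nat.choose_succ_right_eq`), all
other factors are unchanged. (2) from (6) by linearity (`Submodule.span_induction`). (3) the same with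
`a C(a - 1, c) = (c+1) C(a, c+1)` (also for `a = 0`). (4) `cbf 0 = 1`. (7) from (2), (1). (8) every
`cbf γ` with `|γ| ≤ n` is in `PF k n`. -/
def PFL : Prop :=
  ∀ k : ℕ, (∀ n n', n ≤ n' → PF k n ≤ PF k n') ∧
    (∀ n, ∀ h ∈ PF k n, ∀ j, (fun α : VE k => (α j : ℚ) * h α) ∈ PF k (n + 1)) ∧
    (∀ n, ∀ h ∈ PF k n, ∀ j, (fun α : VE k => (α j : ℚ) * h (α - uv1 j)) ∈ PF k (n + 1)) ∧
    (∀ c : ℚ, (fun _ : VE k => c) ∈ PF k 0) ∧
    (∀ γ α : VE k, cbf γ α ≠ 0 → γ ≤ α) ∧ (∀ γ : VE k, cbf γ γ = 1) ∧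
    (∀ (γ α : VE k) j, (α j : ℚ) * cbf γ α =
      (γ j + 1) * cbf (γ + uv1 j) α + γ j * cbf γ α) ∧
    (∀ n, ∀ h ∈ PF k n, ∀ j (c : ℚ), (fun α : VE k => ((α j : ℚ) - c) * h α) ∈ PF k (n + 1)) ∧
    (∀ n (γ : VE k), wv γ ≤ n → cbf γ ∈ PF k n)

/-- EXL (MEDIUM, from PFL): the top degree part of `cbf δ * L^n`, `L(α) = ∑_j V_j α_j`, is
`n! ∑_{|γ| = |δ| + n} cbf δ γ V^(γ-δ) cbf γ` (a finite sum: `piAntidiag`). Induction on `n`. `n = 0`: only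
`γ = δ` has `cbf δ γ ≠ 0` (`γ ≥ δ`, `|γ| = |δ|`), the difference is `0`. `n → n + 1`: multiply by `L`: the
difference `R` of degree `≤ |δ| + n - 1` (and `R = 0` if `n = 0`) gives `L R ∈ PF (|δ| + n)`;
`L cbf γ = ∑_j V_j (γ_j + 1) cbf (γ + e_j) + ∑_j V_j γ_j cbf γ` (PFL (6)), the last sum has degree
`|γ| = |δ| + n`. In `n! ∑_γ ∑_j cbf δ γ V^(γ-δ) V_j (γ_j + 1) cbf (γ + e_j)` put `γ' = γ + e_j`: the coefficient
of `cbf γ'` is `n! ∑_{j : γ'_j ≥ 1} cbf δ (γ' - e_j) V^(γ'-e_j-δ) V_j γ'_j`, and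
`γ'_j C(γ'_j - 1, δ_j) = (γ'_j - δ_j) C(γ'_j, δ_j)`, so it is
`n! cbf δ γ' V^(γ'-δ) ∑_j (γ'_j - δ_j) = n! (n+1) cbf δ γ' V^(γ'-δ)` (if `γ' ≥ δ`; otherwise everything is
`0`). -/
def EXL : Prop :=
  ∀ (k : ℕ) (V : Fin (k + 1) → ℚ) (δ : VE k) (n : ℕ), 1 ≤ n →
    (fun α : VE k => cbf δ α * (∑ j, V j * (α j : ℚ)) ^ n -
      (n.factorial : ℚ) * ∑ γ ∈ Finset.piAntidiag univ (wv δ + n),
        cbf δ γ * (∏ j, V j ^ (γ j - δ j)) * cbf γ α) ∈ PF k (wv δ + n - 1)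

/-- LTL (EASY-MEDIUM, from PFL, EXL): one prime kills a level. Let `ξ_γ = ∑_i z_i cbf γ (A i)`. By
hypothesis `ξ_γ = 0` if `|γ| < b`; if `γ ∉ Λ` then `cbf γ (A i) = 0` for all `i` (otherwise `γ ≤ A i`, so
`γ ∈ Λ`), so `ξ_γ = 0`. Let `|δ| ≤ b - a`, `n = b - |δ| ≥ a`. Then
`∑_i z_i cbf δ (A i) L(A i)^n = 0`, by the last hypothesis for `g = cbf δ * L^(n - a) ∈ PF (b - a)`. By EXL
(`|δ| + n - 1 = b - 1`) `n! ∑_{|γ| = b} cbf δ γ V^(γ-δ) ξ_γ = 0`. Multiply by `V^δ / n!`: for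
`η_γ = V^γ ξ_γ`, `∑_{γ ∈ lv Λ b} cbf δ γ η_γ = 0` for all `|δ| ≤ b - a`, so
`∑_{γ ∈ lv Λ b} h(γ) η_γ = 0` for all `h ∈ PF (b - a)`. By `SepE` `η_γ = 0` for every `γ ∈ lv Λ b`, so `ξ_γ = 0`
(`V_j ≠ 0`). So `∑ z_i h(A i) = 0` for all `h = cbf γ`, `|γ| ≤ b`, so for all `h ∈ PF b`. -/
def LTL : Prop :=
  ∀ (k : ℕ) (ι : Type) [Fintype ι] (A : ι → VE k) (Λ : Finset (VE k)) (z : ι → ℚ) (b a : ℕ)
    (V : Fin (k + 1) → ℚ), LS Λ → (∀ i, A i ∈ Λ) → 1 ≤ a → a ≤ b → (∀ j, V j ≠ 0) →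
    SepE (lv Λ b) (b - a) → (∀ h ∈ PF k (b - 1), ∑ i, z i * h (A i) = 0) →
    (∀ g ∈ PF k (b - a), ∑ i, z i * (g (A i) * (∑ j, V j * (A i j : ℚ)) ^ a) = 0) →
    ∀ h ∈ PF k b, ∑ i, z i * h (A i) = 0

/-- LFL (EASY-MEDIUM, from PFL, DEJ): several free primes kill a level. Let
`ξ_γ = ∑_i z_i cbf γ (A i)`; `ξ_γ = 0` if `|γ| < b` or `γ ∉ Λ` (as in LTL). Let `γ' ∈ Λ`, `|γ'| = b ≥ 1`; choose
`j₀` with `γ'_{j₀} ≥ 1`, `γ = γ' - e_{j₀} ∈ Λ`, `|γ| = b - 1`. For `p ∈ S` take `g = cbf γ`: by PFL (6)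
`0 = ∑_j p^(-s_j) ((γ_j + 1) ξ_{γ+e_j} + γ_j ξ_γ) = ∑_{j ∈ J} c_j p^(-s_j)`, `c_j = (γ_j + 1) ξ_{γ+e_j}`,
`J = {j : γ + e_j ∈ Λ}`, `#J = nbr Λ γ ≤ #S`. The polynomial `∑_{j ∈ J} c_j X^(s_j)` has at most `#J` terms
(`#J ≥ 1` because `j₀ ∈ J`) and vanishes at `#J` different positive numbers `1/p`; by DEJ it is `0`, so
all `c_j = 0` (`s` is injective), so `ξ_γ' = 0`. -/
def LFL : Prop :=
  ∀ (k : ℕ) (ι : Type) [Fintype ι] (A : ι → VE k) (Λ : Finset (VE k)) (z : ι → ℚ) (b : ℕ)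
    (s : Fin (k + 1) → ℕ) (S : Finset ℕ), LS Λ → (∀ i, A i ∈ Λ) → 1 ≤ b → Function.Injective s →
    (∀ p ∈ S, 0 < p) → (∀ γ ∈ Λ, wv γ + 1 = b → nbr Λ γ ≤ S.card) →
    (∀ h ∈ PF k (b - 1), ∑ i, z i * h (A i) = 0) →
    (∀ p ∈ S, ∀ g ∈ PF k (b - 1), ∑ i, z i * (g (A i) * Lw s p (A i)) = 0) →
    ∀ h ∈ PF k b, ∑ i, z i * h (A i) = 0

/-- TRL (EASY, from PFL): triangularity. If `z ≠ 0` take `i` with `z i ≠ 0` and the largest weight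
`wv (A i)` and use `h = cbf (A i)`: a term `z i' * cbf (A i) (A i') ≠ 0` has `A i ≤ A i'`, so the weights are
equal, `A i = A i'`, `i = i'`. So `z i = 0`. -/
def TRL : Prop :=
  ∀ (k : ℕ) (ι : Type) [Fintype ι] (A : ι → VE k) (z : ι → ℚ), Function.Injective A →
    (∀ i, ∑ i', z i' * cbf (A i) (A i') = 0) → z = 0

/-! ## Part C: the combinatorics of lower sets -/

/-- SPL (EASY-MEDIUM, from PFL): one more point. For `y ∈ E` take `h_y` with `h_y(y) ≠ 0` and a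
coordinate `j` with `y_j ≠ x_j`: `(Y_j - x_j) h_y`. For `x`: let `c_y h_y(y) = 1` and
`F = 1 - ∑_{y ∈ E} c_y h_y ∈ PF c`, which vanishes on `E`. If `F(x) ≠ 0` take `F`. Otherwise some
`h_{y}(x) ≠ 0`; take `(Y_j - y_j) h_y` with `x_j ≠ y_j`. -/
def SPL : Prop :=
  ∀ (k c : ℕ) (E : Finset (VE k)) (x : VE k), x ∉ E → SepE E c → SepE (insert x E) (c + 1)

/-- SSL (EASY-MEDIUM, from PFL): the next level of a lower set. Let `γ ∈ lv Λ (b+1)` and `h` the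
function which is `1` at `γ` and `0` elsewhere. For every `j` there is `H_j ∈ PF c` with
`H_j(β) = h(β + e_j)` for all `β ∈ lv Λ b` (a combination of the separating polynomials). Put
`F(α) = ∑_j α_j H_j(α - e_j)`, which is in `PF (c + 1)` (PFL (3)). For `α ∈ lv Λ (b+1)` and `α_j ≥ 1` we have
`α - e_j ∈ lv Λ b`, so `H_j(α - e_j) = h(α)`; so `F(α) = ∑_j α_j h(α) = (b + 1) h(α)`. -/
def SSL : Prop :=
  ∀ (k b c : ℕ) (Λ : Finset (VE k)), LS Λ → SepE (lv Λ b) c → SepE (lv Λ (b + 1)) (c + 1)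

/-- PLL (MEDIUM, from PFL, SPL, SSL): THE PLAN. For `B ≥ 1` with `lv Λ B ≠ ∅` let `ι_B` be the smallest
`c` with `SepE (lv Λ B) c`; `ι_B ≤ B` (the functions `cbf γ`, `γ ∈ lv Λ B`: `cbf γ γ' = 0` for `γ' ≠ γ` of
the same weight). Let `N_B = #(lv Λ B)`. If `ι_B < B` put `a_B = B - ι_B`, `n_B = 1`. Otherwise
(`ι_B = B`) put `a_B = 1` and `n_B = v_B`, the largest `nbr Λ γ`, `γ ∈ lv Λ (B-1)`. Facts:
(i) `ι_B ≤ N_B - 1`: start with one point (`PF 0`) and SPL. So `1 + ι_B ≤ N_B`.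
(ii) if `v = nbr Λ γ ≥ 1`, `γ ∈ lv Λ (B-1)`, the points `γ + e_j ∈ Λ` are separated by the functions
`Y_j - γ_j` of degree `1`; add the other `N_B - v` points of the level (SPL): `ι_B ≤ 1 + N_B - v`. So if
`ι_B = B` then `v_B + B - 1 ≤ N_B`. And `1 ≤ v_B ≤ k + 1` as `lv Λ B ≠ ∅`.
(iii) `ι_{B+1} ≤ ι_B + 1` (SSL). So if `ι_B < B` then `ι_{B+1} < B + 1` and `a_{B+1} ≥ a_B`; and `a_B ≥ 1` always.
(iv) `v_{B+1} ≤ v_B`: for `γ ∈ lv Λ B` choose `e_i ≤ γ`; if `γ + e_j ∈ Λ` then `γ - e_i + e_j ∈ Λ`.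
So all the claims hold: if `a_{B-1} = a_B` and `n_B > 1` then `ι_B = B`, so `ι_{B-1} = B - 1` by (iii) and
`n_B = v_B ≤ v_{B-1} = n_{B-1}`. (`lv Λ (B-1) ≠ ∅` because `Λ` is a lower set.) -/
def PLL : Prop :=
  ∀ (k : ℕ) (Λ : Finset (VE k)), LS Λ → ∃ n a : ℕ → ℕ, ∀ B, 1 ≤ B → (lv Λ B).Nonempty →
    1 ≤ a B ∧ a B ≤ B ∧ 1 ≤ n B ∧ n B ≤ k + 1 ∧ n B + B ≤ (lv Λ B).card + a B ∧
      GLv Λ B (n B) (a B) ∧ (a B = 1 ∨ n B = 1) ∧
      (2 ≤ B → a (B - 1) ≤ a B ∧ (a (B - 1) = a B → n B ≤ n (B - 1)))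

/-- LRL (EASY): the first `r + 1` elements. (1) lower set: let `β ≤ A i`, `i ≤ r`; `β = A i'` for some
`i'`; if `i' > r ≥ i` then `wv β ≥ wv (A i) ≥ wv β` by monotonicity, so `β = A i` and `i' = i`.
(2) for `B < wv (A r)` all elements of weight `≤ B` have position `< r`, so they are in `Lr A r`:
`lv (Lr A r) B = lv (image A) B`, and `nbr` is the same for `wv γ + 1 = B`. (3) `Lr A r` has `r + 1`
elements, exactly one of them (the zero vector) of weight `0`, and all have weight `≤ wv (A r)`; so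
the sum over the levels `1, .., wv (A r)` is `r`. (4) the level of `A r` is not empty, nor are the
levels below. -/
def LRL : Prop :=
  ∀ (k d : ℕ) (A : Fin (d + 1) → VE k), Function.Injective A → LS (univ.image A) →
    (Monotone fun i => wv (A i)) → ∀ (r : ℕ) (hr : r < d + 1),
    LS (Lr A r) ∧
    (∀ B n a, 1 ≤ B → B < wv (A ⟨r, hr⟩) → GLv (Lr A r) B n a → GLv (univ.image A) B n a) ∧
    ∑ B ∈ Icc 1 (wv (A ⟨r, hr⟩)), (lv (Lr A r) B).card = r ∧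
    ∀ B ≤ wv (A ⟨r, hr⟩), (lv (Lr A r) B).Nonempty

/-- RKL (MEDIUM, from PFL, LTL, LFL, TRL): the dimension of the flag. Suppose `finrank T ≤ r`,
`T = TL s A S a b`. The restriction `T → (Fin (r+1) → ℚ)` to the coordinates `i ≤ r` is not surjective, so
there is a nonzero `z : Fin (r+1) → ℚ` with `∑_{i ≤ r} z_i t_i = 0` for all `t ∈ T` (a nonzero functional on
`ℚ^(r+1)` which vanishes on the range, `Submodule.exists_dual_map_eq_bot_of_lt_top` or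
`IU2.exists_relation` in `Bd/B02.lean`). Let `A_r : Fin (r+1) → VE k` be the restriction of `A` and
`Λ = Lr A r`, a lower set. If `b = 0` (`r = 0`): `t = 1 ∈ T` (`PF 0`) gives `z_0 = 0`, a contradiction. If
`b ≥ 1`: `z` is orthogonal to `h ∈ PF (b-1)` and to the functions `g L_p^a`. If `a = 1` use LFL, if `n = 1` use
LTL with `V_j = p^(-s_j)`, `S = {p}`: `∑ z_i h(A_i) = 0` for all `h ∈ PF b`, in particular for
`h = cbf (A i)`, `i ≤ r` (`wv (A i) ≤ b`). By TRL `z = 0`, a contradiction. -/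
def RKL : Prop :=
  ∀ (k d : ℕ) (s : Fin (k + 1) → ℕ) (A : Fin (d + 1) → VE k), Function.Injective s →
    Function.Injective A → (Monotone fun i => wv (A i)) → ∀ (r : ℕ) (hr : r < d + 1),
    LS (Lr A r) → ∀ (n a : ℕ) (S : Finset ℕ), (∀ p ∈ S, p.Prime) →
    (wv (A ⟨r, hr⟩) = 0 ∨ (1 ≤ a ∧ a ≤ wv (A ⟨r, hr⟩) ∧ S.card = n ∧
      GLv (Lr A r) (wv (A ⟨r, hr⟩)) n a)) →
    r + 1 ≤ Module.finrank ℚ (TL s A S a (wv (A ⟨r, hr⟩)))

/-! ## Part N: numbers -/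

/-- ACL (MEDIUM, from GML): the Bertrand inequality, layer by layer. For `c ≥ 1` let
`I_c = {B ∈ [1, b] : a_B = c}`, `Q_c = {p < X : p prime, e_p < c}`. For `B ∈ I_c`
`#{q ∈ Q_c : q < x_B} ≤ n_B - 1`, so GML gives
`∏_{B ∈ I_c} x_B ≤ 2^(#I_c (#I_c + 1)/2 + ∑_{I_c} (n_B - 1)) ∏_{p < X, e_p ≥ c} p`. Since `a_B ≤ B`,
`I_c ⊆ [c, b]`, and `#I_c (#I_c + 1)/2 ≤ ∑_{B ∈ I_c} (B - c + 1)` (the numbers `B - c + 1` are different and
`≥ 1`). Multiply over `c ∈ [1, b]` (`Finset.prod_fiberwise_of_maps_to`); every prime `p < X` appears in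
at most `e_p` of the last products. The exponent of `2` is at most
`∑_B (B - a_B + 1 + n_B - 1)`. -/
def ACL : Prop :=
  ∀ (b X : ℕ) (e n a x : ℕ → ℕ),
    (∀ B, 1 ≤ B → B ≤ b → 1 ≤ a B ∧ a B ≤ B ∧ x B ≤ X ∧
      ((range (x B)).filter (fun p => p.Prime ∧ e p < a B)).card + 1 ≤ n B) →
    ∏ B ∈ Icc 1 b, x B ≤ 2 ^ (∑ B ∈ Icc 1 b, (n B + B - a B)) *
      ∏ p ∈ (range X).filter Nat.Prime, p ^ e p

/-- KUL (EASY-MEDIUM, from NB): `κ + ∑_{p < X} single p (U_p - κ_p) ≤ U`, so the product of the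
integers divides `N(U)`. (Model: `Z4J_nn_sum`, `Z4J_sum_single` and the end of `Z4J.lean`.) -/
def KUL : Prop :=
  ∀ (κ U : Ex) (X : ℕ), κ ≤ U →
    nn κ * ∏ p ∈ (range X).filter Nat.Prime, p ^ eW κ U p ≤ nn U

/-- SEL (MEDIUM): the choice of the primes. For `a ≥ 1` let `G_a = {p prime : U_p - κ_p < a}`; it contains
all free primes and is infinite (outside the support of `U` everything is `0`; `κ ≤ U`), and increases
with `a`. For `1 ≤ B ≤ b` let `S_B` be the set of the `n_B` smallest elements of `G_{a_B}`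
(`Nat.nth (· ∈ G) i`, `i < n_B`), `x_B` its largest element (`Nat.nth (· ∈ G) (n_B - 1)`), so exactly
`n_B - 1` elements of `G_{a_B}` are `< x_B` (`Nat.count_nth`). `x_B ≤ q_k` because `q_0, .., q_k` are `k + 1 ≥ n_B`
elements of `G_{a_B}`. Let `B ≤ B'`; then `a_B ≤ a_{B'}`, and if `a_B = a_{B'}` then `n_{B'} ≤ n_B` (induction on
`B'`). (3) `x_{B'} ≤ x_B`: if `a_B = a_{B'}` clear; if `a_B < a_{B'}` then `a_{B'} ≥ 2`, `n_{B'} = 1` and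
`x_{B'} = min G_{a_{B'}} ≤ x_B`. (4) let `p ∈ S_B`, `p' ∈ S_{B'}` not free: then `a_{B'} ≥ 2` (elements of `G_1`
are free), so `n_{B'} = 1` and `p' = min G_{a_{B'}} ≤ p`. -/
def SEL : Prop :=
  ∀ (k b : ℕ) (κ U : Ex) (q : Fin (k + 1) → Nat.Primes) (n a : ℕ → ℕ), κ ≤ U →
    (StrictMono fun j => (q j : ℕ)) → (∀ j, U (q j) = κ (q j)) →
    (∀ B, 1 ≤ B → B ≤ b → 1 ≤ a B ∧ 1 ≤ n B ∧ n B ≤ k + 1 ∧ (a B = 1 ∨ n B = 1) ∧
      (2 ≤ B → a (B - 1) ≤ a B ∧ (a (B - 1) = a B → n B ≤ n (B - 1)))) →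
    ∃ (S : ℕ → Finset Nat.Primes) (x : ℕ → ℕ),
      (∀ B, 1 ≤ B → B ≤ b → (S B).card = n B ∧ x B ≤ (q (Fin.last k) : ℕ) ∧
        (∀ p ∈ S B, U p - κ p < a B ∧ (p : ℕ) ≤ x B) ∧
        ((range (x B)).filter (fun p => p.Prime ∧ eW κ U p < a B)).card + 1 ≤ n B) ∧
      (∀ B B', 1 ≤ B → B ≤ B' → B' ≤ b → x B' ≤ x B) ∧
      ∀ B B', 1 ≤ B → B ≤ B' → B' ≤ b → ∀ p ∈ S B, ∀ p' ∈ S B', U p' ≠ κ p' → (p' : ℕ) ≤ p

/-! ## Part O: one prime -/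

/-- SWL (MEDIUM, model `RW/ZK1.lean`; from PFL): one prime, power series. For `n ≥ 0` let
`LW_n(y_i) = Δ y_i' - n Δ' y_i + M_i y_i`, `M_i = ∑_j A_ij μ_j`. As in `LK_step`,
`LW_n(Δ^n w_i φ_i) = Δ^(n+1) w_i' φ_i`, so for the iterates `Y_0 = y`, `Y_{n+1} = LW_n(Y_n)` we have
`Y_n(w_i φ_i) = Δ^n D^n(w_i) φ_i`, which is `0` for `n = e + 1`. Write `Σ_h(y; c) = ∑_i h(A_i) coeff_c(y_i)`, `L(α) = ∑_j α_j μ_j(0)`.
Since `Δ(0) = 1`, `Δ'`, `Δ - 1` and `μ_j - μ_j(0)` give only smaller coefficients,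
`Σ_h(LW_n y; c) = (c+1) Σ_h(y; c+1) + Σ_{hL}(y; c) + (a combination of Σ_h(y; c'), c' ≤ c, and of
Σ_{h α_j}(y; c'), c' < c)` (use `PowerSeries.coeff_mul`, sums over `antidiagonal`, with the term of the
constant coefficient separated; `h α_j ∈ PF (n+1)` by PFL (2)). Claim: if `j + n' ≤ b` and `j + n' + c ≤ b + a` then
for all `h ∈ PF j`: `Σ_h(Y_{n'}; c) = Σ_{h L^{n'}}(y; c)`, `y = w φ`. Induction on `n'`: in the formula for
`Σ_h(Y_{n'+1}; c)` the terms `Σ_h(Y_{n'}; c'')`, `c'' ≤ c + 1`, are `Σ_{hL^{n'}}(y; c'')` with degree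
`j + n' < b` and `j + n' + c'' ≤ b + a`, so `0` by the first hypothesis; the terms
`Σ_{h α_j}(Y_{n'}; c')`, `c' < c`, are `Σ_{h α_j L^{n'}}(y; c')` of degree `j + 1 + n' ≤ b` with `c' < c`: `0` by the first
hypothesis if `j + 1 + n' < b`, and by the second one if `j + 1 + n' = b` (then `c' < c ≤ a`); and
`Σ_{hL}(Y_{n'}; c) = Σ_{h L^{n'+1}}(y; c)` by induction. Now `n' = e + 1`, `j = b - e - 1`, `c = a`, and
`h = g L^(n-e-1) ∈ PF (b - e - 1)`: `0 = Σ_h(Y_{e+1}; a) = Σ_{g L^n}(y; a)`. -/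
def SWL : Prop :=
  ∀ (k : ℕ) (ι : Type) [Fintype ι] (A : ι → VE k) (Δ : PowerSeries ℚ)
    (μ : Fin (k + 1) → PowerSeries ℚ) (e b a n : ℕ) (w φ : ι → PowerSeries ℚ),
    PowerSeries.constantCoeff Δ = 1 → e < n → n ≤ b →
    (∀ i, Δ * PowerSeries.derivative ℚ (φ i) =
      -((∑ j, PowerSeries.C (A i j : ℚ) * μ j) * φ i)) →
    (∀ i c, e < c → PowerSeries.coeff c (w i) = 0) →
    (∀ j a', j < b → j + a' ≤ b + a → ∀ h ∈ PF k j,
      ∑ i, h (A i) * PowerSeries.coeff a' (w i * φ i) = 0) →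
    (∀ a' < a, ∀ h ∈ PF k b, ∑ i, h (A i) * PowerSeries.coeff a' (w i * φ i) = 0) →
    ∀ g ∈ PF k (b - n), ∑ i, g (A i) * (∑ j, (A i j : ℚ) * PowerSeries.constantCoeff (μ j)) ^ n *
      PowerSeries.coeff a (w i * φ i) = 0

/-- MUL (EASY, from MUK): products of multiplicative functions are multiplicative. -/
def MUL : Prop :=
  D10b → ∀ (k d : ℕ) (s : Fin (k + 1) → ℕ) (A : Fin (d + 1) → VE k) (i : Fin (d + 1)),
    (fW s A i).IsMultiplicative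

/-- ODL (EASY-MEDIUM, from PSJ, ODK): the differential equation. By PSJ with `k = 0`, `S = fun _ => p`,
`v = 1` there is a ring homomorphism `Ψ` with `coeff n (Ψ f) = f (p^n)`. Put `Ψ_j = Ψ (ft (s j) ^ A_j)`,
`ρ_j = p^(-s_j)`; ODK: `(1 - ρ_j^2 X^2) Ψ_j' = -2 A_j ρ_j Ψ_j`. `φ = ∏_j Ψ_j`. With `Δ = ∏_j (1 - ρ_j^2 X^2)`
and `Δ_j = ∏_{i ≠ j} (1 - ρ_i^2 X^2)` the product rule (`Derivation.leibniz_prod` or induction) gives
`Δ φ' = ∑_j Δ Ψ_j' ∏_{i ≠ j} Ψ_i = ∑_j Δ_j (-2 A_j ρ_j) φ`. Take `μ_j = 2 ρ_j Δ_j`. -/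
def ODL : Prop :=
  ∀ (k : ℕ) (s : Fin (k + 1) → ℕ) (p : ℕ), p.Prime → ∃ (Δ : PowerSeries ℚ)
    (μ : Fin (k + 1) → PowerSeries ℚ), PowerSeries.constantCoeff Δ = 1 ∧
    (∀ j, PowerSeries.constantCoeff (μ j) = 2 * ((p : ℚ) ^ s j)⁻¹) ∧
    ∀ α : VE k, Δ * PowerSeries.derivative ℚ (PowerSeries.mk fun c => (∏ j, ft (s j) ^ α j) (p ^ c)) =
      -((∑ j, PowerSeries.C (α j : ℚ) * μ j) *
        PowerSeries.mk fun c => (∏ j, ft (s j) ^ α j) (p ^ c))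

/-- STL (EASY-MEDIUM, from FAK, MUL, ODL, SWL): the relations of one prime. FAK for `f = fW s A`
(MUL) gives `w_i` with `AK_i(κ + m + single p a') = coeff_{a'}(w_i φ_i)` and
`coeff_c (w_i) = 0` for `c > e = up u p - κ p`; ODL gives `Δ`, `μ`. SWL with `e < n`. Its conclusion has
`(∑_j A_ij 2 p^(-s_j))^n = 2^n Lw s p (A i)^n`; divide by `2^n`. -/
def STL : Prop :=
  D10b → ∀ (k d : ℕ) (s : Fin (k + 1) → ℕ) (A : Fin (d + 1) → VE k) (u : Fin (d + 1) → Rg)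
    (κ m : Ex) (p : Nat.Primes) (b a n : ℕ), m p = 0 → up u p - κ p < n → n ≤ b →
    (∀ i, ∀ y ∈ (u i).support, (∀ q, q ≠ p → y q ≤ κ q + m q) → κ p ≤ y p) →
    (∀ j a', j < b → j + a' ≤ b + a → ∀ h ∈ PF k j,
      ∑ i, h (A i) * AK (fW s A) u i (κ + m + Finsupp.single p a') = 0) →
    (∀ a' < a, ∀ h ∈ PF k b,
      ∑ i, h (A i) * AK (fW s A) u i (κ + m + Finsupp.single p a') = 0) →
    ∀ g ∈ PF k (b - n), ∑ i, g (A i) * Lw s p (A i) ^ n *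
      AK (fW s A) u i (κ + m + Finsupp.single p a) = 0

/-! ## Part E: the induction -/

/-- EBL (MEDIUM, from NB, UB, AKU, STL, LTL, LFL, PFL): THE INDUCTION. By induction on `b`, for all
`m`, and for fixed `b` by strong induction on `N(m)`. `b = 0`: `PF 0` consists of the constants
(`cbf γ`, `|γ| = 0`, is `cbf 0 = 1`), and `∑_i AK_i(κ + m) = uvJ (N(κ + m)) = 0` by AKU, as
`N(κ) N(m) < k₃`. Let `b ≥ 1`. The hypotheses for `b` give those for all `j < b`.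
Step 1: for every `p ∈ S b` and `g ∈ PF (b - a_b)`: `∑ g(A i) L_p(A i)^(a_b) AK_i(κ + m) = 0`. Write
`m = m' + single p c`, `m' = m.erase p`, `c = m p`, and apply STL with `n = a_b`, `a = c`. (i) Let
`y ∈ supp u_i` with `y q ≤ κ q + m' q` for `q ≠ p`, and suppose `y p < κ p`; so `y ≠ κ`, let `π` be as in `KM`:
`κ π < y π`, `y q = κ q` for `q > π`. `π ≠ p`; if `π < p` then `y p = κ p`, a contradiction; if `π > p` then
`m' π ≠ 0` (as `y π ≤ κ π + m' π`), so `π` is in the support of `m`, and `π > p` gives `up u π = κ π` by the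
hypothesis on `m`; but `y π ≤ up u π` (UB), a contradiction. (ii) first hypothesis of STL: `j < b`,
`j + c' ≤ b + c`: the induction hypothesis for `j` and `m'' = m' + single p c'`. Its primes: those of `m`, and
`p`; if `up u p ≠ κ p` then `p ≤ p''` for `p'' ∈ S B`, `B ≤ j ≤ b` by hypothesis (`p ∈ S b`). Its size:
`N(m'') ≤ N(m') p^c p^(b-j) = N(m) p^(b-j)` and `p ≤ x b ≤ x B` for `B ≤ b`, so
`N(m'') ∏_{B ≤ j} x_B ≤ N(m) ∏_{B ≤ b} x_B` (all `x_B ≥ p ≥ 1`). (iii) second hypothesis: `c' < c`: the induction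
hypothesis for `b` and `m' + single p c'`, which has a smaller `N`.
Step 2: `z_i = AK_i(κ + m)` is orthogonal to `PF (b - 1)` (induction hypothesis for `b - 1`: its size
is smaller) and satisfies Step 1 for all `p ∈ S b`. By `GLv`: either `a_b = 1` and LFL applies
(`S = (S b).image (↑)`, `card = n_b`), or `n_b = 1`, `S b = {p}` and LTL applies with `V_j = p^(-s_j)`. -/
def EBL : Prop :=
  D10b → ∀ (k d : ℕ) (s : Fin (k + 1) → ℕ) (A : Fin (d + 1) → VE k) (u : Fin (d + 1) → Rg)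
    (κ : Ex) (n a x : ℕ → ℕ) (S : ℕ → Finset Nat.Primes) (k₃ b : ℕ), Function.Injective s →
    Function.Injective A → LS (univ.image A) → KM u κ →
    (∀ B, 1 ≤ B → B ≤ b → 1 ≤ a B ∧ a B ≤ B ∧ 1 ≤ n B ∧ GLv (univ.image A) B (n B) (a B) ∧
      (S B).card = n B ∧ ∀ p ∈ S B, up u p - κ p < a B ∧ (p : ℕ) ≤ x B) →
    (∀ B B', 1 ≤ B → B ≤ B' → B' ≤ b → x B' ≤ x B) →
    (∀ B B', 1 ≤ B → B ≤ B' → B' ≤ b → ∀ p ∈ S B, ∀ p' ∈ S B', up u p' ≠ κ p' →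
      (p' : ℕ) ≤ p) →
    (∀ k' < k₃, uvJ (fW s A) u k' = 0) →
    ∀ m : Ex, (∀ B, 1 ≤ B → B ≤ b → ∀ p ∈ S B, ∀ π ∈ m.support, up u π ≠ κ π →
      (π : ℕ) ≤ p) →
      nn κ * nn m * ∏ B ∈ Icc 1 b, x B < k₃ →
      ∀ h ∈ PF k b, ∑ i, h (A i) * AK (fW s A) u i (κ + m) = 0

/-- AKL (EASY-MEDIUM, from NB, UB): at products of free primes. In
`AK f u i (κ + m) = ∑_{y₁ + y₂ = κ + m} coeff_{y₁}(u_i) f_i(N(y₂))` let `y₁ ∈ supp u_i`. If `y₁ ≠ κ` let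
`κ π < y₁ π` (KM); since `y₁ π ≤ κ π + m π` the prime `π` is in the support of `m`, so
`y₁ π ≤ up u π = κ π` (UB), a contradiction. So only `y = (κ, m)` remains. -/
def AKL : Prop :=
  ∀ (d : ℕ) (f : Fin (d + 1) → ArithmeticFunction ℚ) (u : Fin (d + 1) → Rg) (κ m : Ex),
    KM u κ → (∀ π ∈ m.support, up u π = κ π) →
    ∀ i, AK f u i (κ + m) = (u i).coeff κ * f i (nn m)

/-- LSL (EASY-MEDIUM, from NB, UB, AKL, STL, EBL): the last level. `z_i = coeff_κ(u_i)`; by AKL with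
`m = 0` `AK_i(κ) = z_i f_i(1) = z_i` (`f_i` is multiplicative, MUL). Let `b ≥ 1`. `z` is orthogonal to
`PF (b - 1)` by EBL for `b - 1`, `m = 0` (the product of the `x_B` is smaller; all `x_B ≥ 1` since `S B` is
not empty). And for `p ∈ S b`, `g ∈ PF (b - a_b)`: `∑ z_i g(A i) L_p(A i)^(a_b) = 0` by STL with `m = 0`, `a = 0`,
`n = a_b`, exactly as in Step 1 of EBL (hypothesis on `y`: `y q ≤ κ q` for `q ≠ p` and `y p < κ p` contradict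
`KM`; the first hypothesis by EBL for `j < b` at `single p c'`, `c' ≤ b - j`; the second is empty). So `z`
is orthogonal to the generators of `TL`, hence to `TL`. -/
def LSL : Prop :=
  D10b → ∀ (k d : ℕ) (s : Fin (k + 1) → ℕ) (A : Fin (d + 1) → VE k) (u : Fin (d + 1) → Rg)
    (κ : Ex) (n a x : ℕ → ℕ) (S : ℕ → Finset Nat.Primes) (k₃ b : ℕ), Function.Injective s →
    Function.Injective A → LS (univ.image A) → KM u κ → 1 ≤ b →
    (∀ B, 1 ≤ B → B ≤ b → 1 ≤ a B ∧ a B ≤ B ∧ 1 ≤ n B ∧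
      (B < b → GLv (univ.image A) B (n B) (a B)) ∧
      (S B).card = n B ∧ ∀ p ∈ S B, up u p - κ p < a B ∧ (p : ℕ) ≤ x B) →
    (∀ B B', 1 ≤ B → B ≤ B' → B' ≤ b → x B' ≤ x B) →
    (∀ B B', 1 ≤ B → B ≤ B' → B' ≤ b → ∀ p ∈ S B, ∀ p' ∈ S B', up u p' ≠ κ p' →
      (p' : ℕ) ≤ p) →
    (∀ k' < k₃, uvJ (fW s A) u k' = 0) → nn κ * ∏ B ∈ Icc 1 b, x B < k₃ →
    ∀ t ∈ TL s A ((S b).image fun p : Nat.Primes => (p : ℕ)) (a b) b, ∑ i, (u i).coeff κ * t i = 0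

/-- LLL (MEDIUM, from LBJ, ORJ, PFL, TRL; model `RW/LLS.lean`): the local lemma for free primes. All
`A i` are in the box `{0..D}^(k+1)`. Let `A'` be the numbering of ORJ of the box and `z'` the
extension of `z` by `0` (`z' i' = z i` if `A' i' = A i`). Let `i₀` be given, `α = A i₀`, `wt α ≤ D`; by LBJ for
`r = A'.symm α` `∑_i z_i cbf (A i₀) (A i) = 0` (`bi α I = cbf α I`). TRL. -/
def LLL : Prop :=
  D10b → ∀ (k D d : ℕ) (s : Fin (k + 1) → ℕ) (A : Fin (d + 1) → VE k), Function.Injective s →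
    Function.Injective A → (∀ i, wv (A i) ≤ D) →
    ∀ q : Fin (k + 1) → ℕ, Function.Injective q → (∀ j, (q j).Prime) → ∀ z : Fin (d + 1) → ℚ,
      (∀ e : Fin (k + 1) → ℕ, ∑ j, e j ≤ D → ∑ i, z i * fW s A i (∏ j, q j ^ e j) = 0) → z = 0

/-- ZFL (MEDIUM, from everything above and NB, UB, KAK, AKU, KQS, PQS): THE ZERO ESTIMATE (assembly
by helper90). -/
def ZFL : Prop :=
  D10b → ∀ (k d : ℕ) (s : Fin (k + 1) → ℕ) (A : Fin (d + 1) → VE k), Function.Injective s →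
    Function.Injective A → LS (univ.image A) → (Monotone fun i => wv (A i)) →
    ∃ (Q : ℕ) (T : Finset (Fin Q) → ℕ → Submodule ℚ (Fin (d + 1) → ℚ)),
      (∀ j, ∀ r ≤ d, r + 1 ≤ Module.finrank ℚ (T j r)) ∧
      ZF d (fW s A) (Finset (Fin Q)) T fun r => 2 ^ r

/-! ## Part E: the end -/

/-- SUL (EASY): subspaces of the exact dimension. Choose `T' j r ≤ T j r` with
`finrank = r + 1` for `r ≤ d` (`Submodule.exists_finrank_eq`.. or take the span of `r + 1` linearly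
independent vectors of `T j r`: `exists_linearIndependent_of_le_finrank`). Its spanning hypothesis
implies the one for `T` (a vector orthogonal to `T j r` is orthogonal to `T' j r`), so `ZF` for `T`
gives `ZF` for `T'`. -/
def SUL : Prop :=
  ∀ (d : ℕ) (f : Fin (d + 1) → ArithmeticFunction ℚ) (ι : Type)
    (T : ι → ℕ → Submodule ℚ (Fin (d + 1) → ℚ)) (ζ : ℕ → ℝ),
    (∀ j, ∀ r ≤ d, r + 1 ≤ Module.finrank ℚ (T j r)) → ZF d f ι T ζ →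
    ∃ T' : ι → ℕ → Submodule ℚ (Fin (d + 1) → ℚ),
      (∀ j, ∀ r ≤ d, Module.finrank ℚ (T' j r) = r + 1) ∧ ZF d f ι T' ζ

/-- VLL (EASY, copy of `RW/VLS.lean`, `RW/VLJ.lean`): values of the family. -/
def VLL : Prop :=
  D1 → D2 → D10a → ∀ (k d : ℕ) (s : Fin (k + 1) → ℕ) (A : Fin (d + 1) → VE k),
    (∀ i, PG (fW s A i)) ∧ ∃ M : ℕ, ∀ n ≥ M, ∀ i, ((val (fW s A i) n : ℝ) : ℂ) =
      ∏ j, (riemannZeta (2 * ((n + s j : ℕ) : ℂ)) / riemannZeta ((n + s j : ℕ) : ℂ) ^ 2) ^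
        (A i j)

/-- ORL (EASY-MEDIUM, as `RW/ORJ.lean`): the elements of `Λ` numbered by weight
(`Finset.equivFinOfCardEq`, `Tuple.sort`). -/
def ORL : Prop :=
  ∀ (k : ℕ) (Λ : Finset (Fin (k + 1) →₀ ℕ)), Λ.Nonempty →
    IsLowerSet (Λ : Set (Fin (k + 1) →₀ ℕ)) →
    ∃ A : Fin (Λ.card - 1 + 1) → VE k, Function.Injective A ∧ LS (univ.image A) ∧
      (Monotone fun i => wv (A i)) ∧ ∀ I : Fin (k + 1) →₀ ℕ, I ∈ Λ ↔ ∃ i, A i = ⇑I

/-- POL (EASY-MEDIUM, copy of `RW/PLS.lean`): polynomials as sums. -/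
def POL : Prop :=
  ∀ (k d : ℕ) (Λ : Finset (Fin (k + 1) →₀ ℕ)) (A : Fin (d + 1) → VE k), Function.Injective A →
    (∀ I : Fin (k + 1) →₀ ℕ, I ∈ Λ ↔ ∃ i, A i = ⇑I) →
    ∀ P : MvPolynomial (Fin (k + 1)) ℤ, P.support ⊆ Λ →
    (P ≠ 0 → (fun i => P.coeff (Finsupp.equivFunOnFinite.symm (A i))) ≠ 0) ∧
    ∀ t : Fin (k + 1) → ℂ, MvPolynomial.aeval t P =
      ∑ i, ((P.coeff (Finsupp.equivFunOnFinite.symm (A i)) : ℤ) : ℂ) * ∏ j, t j ^ (A i j)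

/-- MTL (EASY-MEDIUM, model `RW/MTS.lean`, from ORL, ZFL, SUL, VLL, POL, MRF): THEOREM WL. `Λ` is not
empty as `P ≠ 0` (for empty `Λ` take any `M`). -/
def MTL : Prop :=
  ∀ (k : ℕ) (s : Fin (k + 1) → ℕ) (Λ : Finset (Fin (k + 1) →₀ ℕ)) (B ε : ℝ),
    Function.Injective s → IsLowerSet (Λ : Set (Fin (k + 1) →₀ ℕ)) → 0 < ε →
    ∃ M : ℕ, ∀ n ≥ M, ∀ (P : MvPolynomial (Fin (k + 1)) ℤ) (H : ℝ), P ≠ 0 →
      P.support ⊆ Λ → (∀ I, |((P.coeff I : ℤ) : ℝ)| ≤ H) → 2 ^ n ≤ H → H ≤ B ^ n →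
      Real.exp (-(ε * n)) * (H ^ (Λ.card - 1))⁻¹ ≤
        ‖MvPolynomial.aeval (fun j => riemannZeta (2 * ((n + s j : ℕ) : ℂ)) /
          riemannZeta ((n + s j : ℕ) : ℂ) ^ 2) P‖

/-- OPL (MEDIUM, from SIG, NRS; model `RW/OPS.lean`): both parameters are optimal, for every finite
`Λ` with at least two elements. NRS with `D` the largest weight of an element of `Λ` gives `C`, `M` and
the real values `t_j` with `|∏_j t_j^(I_j) - 1| ≤ C 2^(-n)` for `I ∈ Λ`. Let `N = #Λ`, `I₀ ∈ Λ`. If `H < N`: take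
`P = X^I - X^(I₀)`, `I ≠ I₀`: `|P(t)| ≤ 2 C 2^(-n)`. If `N ≤ H < 2^n`: SIG for the `N - 1` numbers
`t^I - t^(I₀)`, `I ∈ Λ \ {I₀}`, `|..| ≤ 2 C 2^(-n)`, and `H/N`: `P = ∑ x_I (X^I - X^(I₀))`. If `2^n ≤ H`, `N ≤ H`: SIG
for the `N` numbers `t^I`, `|t^I| ≤ 1 + C`. The constant is `C' = 4N (1+C) N^N`. -/
def OPL : Prop :=
  D4 → D10a → D10b → ∀ (k : ℕ) (s : Fin (k + 1) → ℕ) (Λ : Finset (Fin (k + 1) →₀ ℕ)),
    2 ≤ Λ.card → ∃ (C : ℝ) (M : ℕ), ∀ n ≥ M,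
    ∀ H : ℝ, 1 ≤ H → ∃ P : MvPolynomial (Fin (k + 1)) ℤ, P ≠ 0 ∧ P.support ⊆ Λ ∧
      (∀ I, |((P.coeff I : ℤ) : ℝ)| ≤ H) ∧
      ‖MvPolynomial.aeval (fun j => riemannZeta (2 * ((n + s j : ℕ) : ℂ)) /
          riemannZeta ((n + s j : ℕ) : ℂ) ^ 2) P‖ ≤
        C * (H ^ (Λ.card - 1))⁻¹ * min 1 (H / 2 ^ n)

end Pool.Agent.Work.MP_f1a024_nt.RL
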